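import Pool.Agent.H974R2.Infinite

/-!
# Critical volumes: definitions

Consequences at the critical point of the one-arm exponent of bond percolation on `ℤ²`
(library `H974R2`, namespace `H974`).
-/

set_option autoImplicit false

namespace Pool.Agent.H160R2.CV
open Finset H974

/-- sup norm of a vertex -/
def nv (v : Vtx) : ℕ := max v.1.natAbs v.2.natAbs

/-- the vertices of the box `[-n, n]²` -/
noncomputable def bx (n : ℕ) : Finset Vtx := Finset.Icc (-(n : ℤ)) n ×ˢ Finset.Icc (-(n : ℤ)) n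

/-- the parameter `1/2` -/
noncomputable def P : Edg → ℝ := fun _ => 1 / 2

/-- the one-arm probability at `1/2` -/
noncomputable def ar (n : ℕ) : ℝ := arm (1 / 2) n

/-- `v` is connected to a vertex at distance at least `r` from `v` -/
def Far (v : Vtx) (r : ℕ) (F : Finset Edg) : Prop :=
  ∃ u : Vtx, r ≤ nv (u - v) ∧ Reach (↑F) v u

/-- the cluster of `v` -/
def cl (F : Set Edg) (v : Vtx) : Set Vtx := {u | Reach F v u}

/-- some vertex of the box `[-n,n]²` is connected inside the box to at least `N` vertices -/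
def Big (N : ℝ) (n : ℕ) (F : Finset Edg) : Prop :=
  ∃ v ∈ bx n, ∃ T : Finset Vtx, N ≤ (T.card : ℝ) ∧ ∀ u ∈ T, Reach (↑F ∩ ↑(boxE n)) v u

/-- `0` is connected to at least `N` vertices -/
def Vol (N : ℝ) (F : Set Edg) : Prop :=
  ∃ T : Finset Vtx, N ≤ (T.card : ℝ) ∧ ∀ u ∈ T, Reach F (0, 0) u

/-- the graph of the open edges with both ends in the box `[-n,n]²` -/
def boxGraph (n : ℕ) (ω : sqLattice.edgeSet → Bool) : SimpleGraph (ℤ × ℤ) where
  Adj u v := (openGraph ω).Adj u v ∧ u ∈ bx n ∧ v ∈ bx n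
  symm := ⟨fun _ _ h => ⟨h.1.symm, h.2.2, h.2.1⟩⟩
  loopless := ⟨fun _ h => (openGraph ω).loopless.irrefl _ h.1⟩

/-- the size of the largest open cluster of the box `[-n,n]²` -/
noncomputable def maxCl (n : ℕ) (ω : sqLattice.edgeSet → Bool) : ℕ :=
  (bx n).sup fun v => Set.ncard {u | (boxGraph n ω).Reachable v u}

end Pool.Agent.H160R2.CV
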