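import Pool.Agent.H160R2.CV.Defs

/-!
# Task R: ratios and sums of the one-arm probabilities
-/

set_option autoImplicit false

namespace Pool.Agent.H160R2.CV
open Finset H974

theorem ratio_nonneg (n : ℕ) : 0 ≤ ar n := arm_nonneg (by norm_num) (by norm_num) n

theorem ratio_half_sq {n : ℕ} (hn : 0 < n) : 1 ≤ 16 * n * ar n ^ 2 :=
  arm_half_sq le_rfl (by norm_num) hn

theorem ratio_arm {r n : ℕ} (hr : 0 < r) (hrn : r ≤ n) :
    kap ^ 2 * r * ar r ^ 2 ≤ 48 * n * ar n ^ 2 :=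
  arm_ratio le_rfl (by norm_num) hr hrn

theorem ratio_zero : ar 0 = 1 := arm_zero _

theorem ar_pos (n : ℕ) : 0 < ar n := by
  rcases Nat.eq_zero_or_pos n with rfl | hn
  · rw [ratio_zero]; norm_num
  · have h1 := ratio_half_sq hn
    rcases (ratio_nonneg n).eq_or_lt with h | h
    · rw [← h] at h1
      norm_num at h1
    · exact h

theorem ar_le_one (n : ℕ) : ar n ≤ 1 := arm_le_one (by norm_num) (by norm_num) n

theorem ar_anti {n m : ℕ} (h : n ≤ m) : ar m ≤ ar n := arm_anti (by norm_num) (by norm_num) h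

theorem ar_ratio (K : ℕ) : ∃ C : ℝ, 0 < C ∧ ∀ r n : ℕ, r ≤ n → n ≤ K * (r + 1) →
    ar r ≤ C * ar n := by
  have hk := kap_pos
  refine ⟨96 * K / kap ^ 2 + 16 * K + 1, by positivity, fun r n hrn hn => ?_⟩
  set C : ℝ := 96 * K / kap ^ 2 + 16 * K + 1 with hC
  have hA : (0 : ℝ) ≤ 96 * K / kap ^ 2 := by positivity
  have hB : (0 : ℝ) ≤ 16 * K := by positivity
  have hC1 : 1 ≤ C := by linarith
  have hCC : C ≤ C ^ 2 := by nlinarith
  have han := ar_pos n
  rcases Nat.eq_zero_or_pos n with rfl | hn0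
  · have : r = 0 := by omega
    subst this
    nlinarith
  have key : ar r ^ 2 ≤ (C * ar n) ^ 2 := by
    rw [mul_pow]
    rcases Nat.eq_zero_or_pos r with rfl | hr
    · have h1 := ratio_half_sq hn0
      have h2 : (n : ℝ) ≤ K := by
        have : n ≤ K := by omega
        exact_mod_cast this
      rw [ratio_zero, one_pow]
      have h3 : 16 * (n : ℝ) * ar n ^ 2 ≤ 16 * K * ar n ^ 2 := by
        have := sq_nonneg (ar n)
        nlinarith
      have h4 : 16 * (K : ℝ) * ar n ^ 2 ≤ C ^ 2 * ar n ^ 2 :=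
        mul_le_mul_of_nonneg_right (by linarith) (sq_nonneg _)
      linarith
    · have h1 := ratio_arm hr hrn
      have hr1 : (1 : ℝ) ≤ r := by exact_mod_cast hr
      have h2 : (n : ℝ) ≤ K * (r + 1) := by exact_mod_cast hn
      have h3 : (n : ℝ) ≤ 2 * K * r := by
        have : (K : ℝ) * (r + 1) ≤ K * (2 * r) :=
          mul_le_mul_of_nonneg_left (by linarith) (by positivity)
        linarith
      have h4 : kap ^ 2 * r * ar r ^ 2 ≤ (96 * K * ar n ^ 2) * r := by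
        have := mul_le_mul_of_nonneg_right h3 (sq_nonneg (ar n))
        nlinarith
      have h5 : kap ^ 2 * ar r ^ 2 ≤ 96 * K * ar n ^ 2 := by
        have hr0 : (0 : ℝ) < r := by linarith
        refine le_of_mul_le_mul_right ?_ hr0
        calc kap ^ 2 * ar r ^ 2 * r = kap ^ 2 * r * ar r ^ 2 := by ring
          _ ≤ _ := h4
      have h6 : ar r ^ 2 ≤ 96 * K / kap ^ 2 * ar n ^ 2 := by
        rw [div_mul_eq_mul_div, le_div_iff₀ (by positivity)]
        linarith
      have h7 : 96 * (K : ℝ) / kap ^ 2 * ar n ^ 2 ≤ C ^ 2 * ar n ^ 2 :=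
        mul_le_mul_of_nonneg_right (by linarith) (sq_nonneg _)
      linarith
  have h := abs_le_of_sq_le_sq key (by positivity)
  exact (le_abs_self _).trans h

theorem ar_sum : ∃ C : ℝ, 0 < C ∧ ∀ n : ℕ, 1 ≤ n →
    ∑ k ∈ range (n + 1), ((k : ℝ) + 1) * ar k ≤ C * ((n : ℝ) ^ 2 * ar n) := by
  have hk := kap_pos
  refine ⟨60 / kap, by positivity, fun n hn => ?_⟩
  have h1 : SS (1 / 2) n ≤ 30 / kap * n * arm (1 / 2) n := SS_le le_rfl (by norm_num) hn
  have hn1 : (1 : ℝ) ≤ n := by exact_mod_cast hn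
  have h2 : ∑ k ∈ range (n + 1), ((k : ℝ) + 1) * ar k ≤ ((n : ℝ) + 1) * SS (1 / 2) n := by
    unfold SS
    rw [Finset.mul_sum]
    refine Finset.sum_le_sum fun k hk => ?_
    have : (k : ℝ) ≤ n := by
      have := Finset.mem_range.1 hk
      exact_mod_cast Nat.lt_succ_iff.1 this
    exact mul_le_mul_of_nonneg_right (by linarith) (ratio_nonneg k)
  have h3 : 0 ≤ 30 / kap * n * ar n := by
    have := ratio_nonneg n
    positivity
  calc ∑ k ∈ range (n + 1), ((k : ℝ) + 1) * ar k ≤ ((n : ℝ) + 1) * SS (1 / 2) n := h2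
    _ ≤ ((n : ℝ) + 1) * (30 / kap * n * ar n) := mul_le_mul_of_nonneg_left h1 (by linarith)
    _ ≤ (2 * n) * (30 / kap * n * ar n) := mul_le_mul_of_nonneg_right (by linarith) h3
    _ = 60 / kap * ((n : ℝ) ^ 2 * ar n) := by ring

theorem ar_sum_sq : ∃ C : ℝ, 0 < C ∧ ∀ n : ℕ, 1 ≤ n →
    ∑ k ∈ range (n + 1), ((k : ℝ) + 1) * ar k ^ 2 ≤ C * ((n : ℝ) ^ 2 * ar n ^ 2) := by
  have hk := kap_pos
  refine ⟨2 * (96 / kap ^ 2 + 16), by positivity, fun n hn => ?_⟩
  have hn1 : (1 : ℝ) ≤ n := by exact_mod_cast hn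
  have hsq := sq_nonneg (ar n)
  have hterm : ∀ k ∈ range (n + 1), ((k : ℝ) + 1) * ar k ^ 2 ≤
      (96 / kap ^ 2 + 16) * (n * ar n ^ 2) := by
    intro k hkn
    have hkn' : k ≤ n := Nat.lt_succ_iff.1 (Finset.mem_range.1 hkn)
    have h0 : (0 : ℝ) ≤ n * ar n ^ 2 := by positivity
    rcases Nat.eq_zero_or_pos k with rfl | hk0
    · have h1 := ratio_half_sq hn
      rw [ratio_zero]
      have : 0 ≤ 96 / kap ^ 2 * (n * ar n ^ 2) := by positivity
      push_cast
      nlinarith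
    · have h1 := ratio_arm hk0 hkn'
      have hk1 : (1 : ℝ) ≤ k := by exact_mod_cast hk0
      have h2 : kap ^ 2 * (((k : ℝ) + 1) * ar k ^ 2) ≤ 96 * (n * ar n ^ 2) := by
        have h3 : kap ^ 2 * (((k : ℝ) + 1) * ar k ^ 2) ≤ 2 * (kap ^ 2 * k * ar k ^ 2) := by
          have h4 : 0 ≤ kap ^ 2 * ar k ^ 2 := by positivity
          nlinarith
        linarith
      have h5 : ((k : ℝ) + 1) * ar k ^ 2 ≤ 96 / kap ^ 2 * (n * ar n ^ 2) := by
        rw [div_mul_eq_mul_div, le_div_iff₀ (by positivity)]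
        linarith
      linarith
  calc ∑ k ∈ range (n + 1), ((k : ℝ) + 1) * ar k ^ 2
      ≤ ∑ _k ∈ range (n + 1), (96 / kap ^ 2 + 16) * (n * ar n ^ 2) := Finset.sum_le_sum hterm
    _ = ((n : ℝ) + 1) * ((96 / kap ^ 2 + 16) * (n * ar n ^ 2)) := by
        rw [Finset.sum_const, Finset.card_range, nsmul_eq_mul]; push_cast; ring
    _ ≤ (2 * n) * ((96 / kap ^ 2 + 16) * (n * ar n ^ 2)) :=
        mul_le_mul_of_nonneg_right (by linarith) (by positivity)
    _ = _ := by ring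

theorem ratio_nv_le {n : ℕ} {x : Vtx} (hx : x ∈ bx n) : nv x ≤ n := by
  unfold bx at hx
  rw [Finset.mem_product, Finset.mem_Icc, Finset.mem_Icc] at hx
  unfold nv
  omega

theorem ratio_fib (n k : ℕ) : ((bx n).filter (fun x => nv x = k)).card ≤ 8 * (k + 1) := by
  have hsub : (bx n).filter (fun x => nv x = k) ⊆
      (({-(k : ℤ), (k : ℤ)} : Finset ℤ) ×ˢ Finset.Icc (-(k : ℤ)) k) ∪
        (Finset.Icc (-(k : ℤ)) k ×ˢ ({-(k : ℤ), (k : ℤ)} : Finset ℤ)) := by
    intro x hx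
    have h1 := (Finset.mem_filter.1 hx).2
    unfold nv at h1
    simp only [Finset.mem_union, Finset.mem_product, Finset.mem_insert, Finset.mem_singleton,
      Finset.mem_Icc]
    omega
  have hc1 : ({-(k : ℤ), (k : ℤ)} : Finset ℤ).card ≤ 2 := Finset.card_le_two
  have hc2 : (Finset.Icc (-(k : ℤ)) k).card = 2 * k + 1 := by
    rw [Int.card_Icc]; omega
  calc ((bx n).filter (fun x => nv x = k)).card ≤ _ := Finset.card_le_card hsub
    _ ≤ _ := Finset.card_union_le _ _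
    _ ≤ 2 * (2 * k + 1) + (2 * k + 1) * 2 := by
        rw [Finset.card_product, Finset.card_product, hc2]
        exact Nat.add_le_add (Nat.mul_le_mul_right _ hc1) (Nat.mul_le_mul_left _ hc1)
    _ ≤ 8 * (k + 1) := by omega

/-- sums of functions of the norm -/
theorem sum_bx (n : ℕ) (f : ℕ → ℝ) (hf : ∀ k, 0 ≤ f k) :
    ∑ x ∈ bx n, f (nv x) ≤ 8 * ∑ k ∈ range (n + 1), ((k : ℝ) + 1) * f k := by
  have hmaps : ∀ x ∈ bx n, nv x ∈ range (n + 1) := fun x hx =>
    Finset.mem_range.2 (Nat.lt_succ_of_le (ratio_nv_le hx))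
  rw [← Finset.sum_fiberwise_of_maps_to hmaps, Finset.mul_sum]
  refine Finset.sum_le_sum fun k _ => ?_
  have h1 : ∑ x ∈ (bx n).filter (fun x => nv x = k), f (nv x) =
      ((bx n).filter (fun x => nv x = k)).card * f k := by
    rw [Finset.sum_congr rfl (fun x hx => by rw [(Finset.mem_filter.1 hx).2]),
      Finset.sum_const, nsmul_eq_mul]
  rw [h1]
  have h2 : (((bx n).filter (fun x => nv x = k)).card : ℝ) ≤ 8 * ((k : ℝ) + 1) := by
    exact_mod_cast ratio_fib n k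
  calc (((bx n).filter (fun x => nv x = k)).card : ℝ) * f k ≤ 8 * ((k : ℝ) + 1) * f k :=
        mul_le_mul_of_nonneg_right h2 (hf k)
    _ = _ := by ring

theorem sum_bx_shift (n : ℕ) (x : Vtx) (hx : x ∈ bx n) (f : ℕ → ℝ) (hf : ∀ k, 0 ≤ f k) :
    ∑ y ∈ bx n, f (nv (y - x)) ≤ 8 * ∑ k ∈ range (2 * n + 1), ((k : ℝ) + 1) * f k := by
  classical
  have h1 : ∑ y ∈ bx n, f (nv (y - x)) = ∑ z ∈ (bx n).image (fun y => y - x), f (nv z) := by
    rw [Finset.sum_image]
    intro a _ b _ hab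
    exact sub_left_injective hab
  have h2 : (bx n).image (fun y => y - x) ⊆ bx (2 * n) := by
    intro z hz
    obtain ⟨y, hy, rfl⟩ := Finset.mem_image.1 hz
    unfold bx at hx hy ⊢
    rw [Finset.mem_product, Finset.mem_Icc, Finset.mem_Icc] at hx hy ⊢
    simp only [Prod.fst_sub, Prod.snd_sub]
    push_cast
    omega
  rw [h1]
  exact (Finset.sum_le_sum_of_subset_of_nonneg h2 (fun z _ _ => hf _)).trans (sum_bx (2 * n) f hf)

end Pool.Agent.H160R2.CV
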