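import Pool.Agent.H160R2.CV.Defs
import Pool.Agent.H160R2.CV.Ratio

/-! # Task T: two point function and the event `Far` (helper215) -/

set_option autoImplicit false

namespace Pool.Agent.H160R2.CV
open Finset H974

namespace TwoAux

theorem okP : Ok P := okq (q := 1 / 2) (by norm_num) (by norm_num)

/-- the arm event around `v` -/
def QQ (v : Vtx) (r : ℕ) (F : Finset Edg) : Prop :=
  ∃ w : Vtx, inR (v.1 - r) (v.1 + r) (v.2 - r) (v.2 + r) w ∧
    (w.1 = v.1 - r ∨ w.1 = v.1 + r ∨ w.2 = v.2 - r ∨ w.2 = v.2 + r) ∧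
      Reach (↑F ∩ ↑(RE (v.1 - r) (v.1 + r) (v.2 - r) (v.2 + r))) v w

theorem QQ_incr (S : Finset Edg) (v : Vtx) (r : ℕ) : IncrE S (QQ v r) := by
  rintro F G h _ ⟨w, k1, k2, k3⟩
  exact ⟨w, k1, k2, k3.mono (Set.inter_subset_inter_left _ (by exact_mod_cast h))⟩

theorem QQ_local {v : Vtx} {r : ℕ} {F S : Finset Edg}
    (hS : RE (v.1 - r) (v.1 + r) (v.2 - r) (v.2 + r) ⊆ S) : QQ v r F ↔ QQ v r (F ∩ S) := by
  unfold QQ
  rw [coe_inter_eq hS]

theorem pr_QQ0 (v : Vtx) (r : ℕ) :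
    Pr P (RE (v.1 - r) (v.1 + r) (v.2 - r) (v.2 + r)) (QQ v r) = ar r := by
  obtain ⟨a, b⟩ := v
  set B := (trl a b).mp (boxE r) with hB
  have hBeq : B = RE (a - r) (a + r) (b - r) (b + r) := by
    rw [hB]; unfold boxE; rw [trl_RE]; congr 1 <;> ring
  simp only
  rw [← hBeq, hB]
  change Pr (fun _ => (1 / 2 : ℝ)) _ _ = _
  rw [LSym.pr]
  unfold ar arm
  apply Pr_congr
  intro F _
  have himg : (trl a b).φ '' ((↑F : Set Edg) ∩ ↑(boxE r))
      = ↑((trl a b).mp F) ∩ ↑(RE (a - r) (a + r) (b - r) (b + r)) := by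
    rw [LSym.image_inter, ← hB, hBeq]
  constructor
  · rintro ⟨w, k1, k2, k3⟩
    refine ⟨(w.1 - a, w.2 - b), ?_, ?_⟩
    · unfold onB inR at *
      simp only at k1 k2 ⊢
      omega
    · rw [← (trl a b).reach_iff, himg, trl_ψ, trl_ψ]
      simpa using k3
  · rintro ⟨⟨w1, w2⟩, k1, k2⟩
    refine ⟨(w1 + a, w2 + b), ?_, ?_, ?_⟩
    · unfold onB inR at *
      simp only at k1 ⊢
      omega
    · unfold onB inR at *
      simp only at k1 ⊢
      omega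
    · rw [← (trl a b).reach_iff, himg, trl_ψ] at k2
      simpa using k2

theorem pr_QQ {v : Vtx} {r : ℕ} {S : Finset Edg}
    (hS : RE (v.1 - r) (v.1 + r) (v.2 - r) (v.2 + r) ⊆ S) : Pr P S (QQ v r) = ar r := by
  rw [← pr_QQ0 v r]
  exact Pr_local hS (fun F _ => QQ_local (Finset.Subset.refl _))

theorem QQ_of_reach {v x : Vtx} {r : ℕ} {F : Finset Edg}
    (hx : x.1 ≤ v.1 - r ∨ v.1 + r ≤ x.1 ∨ x.2 ≤ v.2 - r ∨ v.2 + r ≤ x.2)
    (h : Reach (↑F) v x) : QQ v r F :=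
  first_exit (by unfold inR; omega) h hx

theorem far_of_QQ {v : Vtx} {r : ℕ} {F : Finset Edg} (h : QQ v r F) : Far v r F := by
  obtain ⟨w, _, k2, k3⟩ := h
  refine ⟨w, ?_, k3.mono Set.inter_subset_left⟩
  unfold nv
  simp only [Prod.fst_sub, Prod.snd_sub]
  omega

theorem far_incr (S : Finset Edg) (v : Vtx) (r : ℕ) : IncrE S (Far v r) := by
  rintro F G h _ ⟨u, k1, k2⟩
  exact ⟨u, k1, k2.mono (by exact_mod_cast h)⟩

theorem nv_cases {w : Vtx} {r : ℕ} (h : r ≤ nv w) :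
    w.1 ≤ -(r : ℤ) ∨ (r : ℤ) ≤ w.1 ∨ w.2 ≤ -(r : ℤ) ∨ (r : ℤ) ≤ w.2 := by
  unfold nv at h
  omega

theorem mem_bx' {n : ℕ} {v : Vtx} : v ∈ bx n ↔
    (-(n : ℤ) ≤ v.1 ∧ v.1 ≤ n) ∧ (-(n : ℤ) ≤ v.2 ∧ v.2 ≤ n) := by
  unfold bx
  rw [Finset.mem_product, Finset.mem_Icc, Finset.mem_Icc]

end TwoAux

open TwoAux

theorem far_le (S : Finset Edg) (v : Vtx) (r : ℕ) : Pr P S (Far v r) ≤ ar r := by
  refine le_trans (Pr_mono okP ?_) (arm_bound (q := 1 / 2) (by norm_num) (by norm_num) S v r)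
  rintro F _ ⟨u, hu, hr⟩
  refine ⟨u, ?_, hr⟩
  have := nv_cases hu
  simp only [Prod.fst_sub, Prod.snd_sub] at this
  omega

theorem far_ge {S : Finset Edg} {n r : ℕ} (hS : boxE (n + r) ⊆ S) {v : Vtx} (hv : v ∈ bx n) :
    ar r ≤ Pr P S (Far v r) := by
  have hv' := mem_bx'.1 hv
  have hsub : RE (v.1 - r) (v.1 + r) (v.2 - r) (v.2 + r) ⊆ S := by
    refine (RE_subset ?_ ?_ ?_ ?_).trans hS
    all_goals push_cast; omega
  rw [← pr_QQ hsub]
  exact Pr_mono okP (fun F _ h => far_of_QQ h)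

theorem two_upper : ∃ C : ℝ, 0 < C ∧ ∀ (S : Finset Edg) (x : Vtx),
    Pr P S (fun F => Reach (↑F) (0, 0) x) ≤ C * ar (nv x) ^ 2 := by
  obtain ⟨C, hC, h⟩ := ar_ratio 2
  refine ⟨C ^ 2 + 1, by positivity, fun S x => ?_⟩
  rcases Nat.eq_zero_or_pos (nv x) with hx | hx
  · rw [hx]
    have h0 : ar 0 = 1 := arm_zero _
    rw [h0]
    have := Pr_le_one okP S (fun F => Reach (↑F) (0, 0) x)
    nlinarith [sq_nonneg C]
  · set k := nv x with hk
    set m := (k - 1) / 2 with hm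
    have hm1 : 2 * m + 1 ≤ k := by omega
    have hm2 : k ≤ 2 * (m + 1) := by omega
    have har := h m k (by omega) hm2
    have hxc := nv_cases (w := x) (r := 2 * m + 1) (by rw [← hk]; exact hm1)
    push_cast at hxc
    have d : Disjoint (RE (((0, 0) : Vtx).1 - m) (((0, 0) : Vtx).1 + m) (((0, 0) : Vtx).2 - m)
        (((0, 0) : Vtx).2 + m)) (RE (x.1 - m) (x.1 + m) (x.2 - m) (x.2 + m)) := by
      rw [Finset.disjoint_left]
      rintro ⟨y, z, _ | _⟩ h1 h2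
      · simp only [mem_RE_false] at h1 h2; omega
      · simp only [mem_RE_true] at h1 h2; omega
    set E1 := RE (((0, 0) : Vtx).1 - m) (((0, 0) : Vtx).1 + m) (((0, 0) : Vtx).2 - m)
        (((0, 0) : Vtx).2 + m) with hE1
    set E2 := RE (x.1 - m) (x.1 + m) (x.2 - m) (x.2 + m) with hE2
    have s1 : Pr P S (fun F => Reach (↑F) (0, 0) x) ≤
        Pr P S (fun F => QQ (0, 0) m F ∧ QQ x m F) := by
      apply Pr_mono okP
      intro F _ hr
      exact ⟨QQ_of_reach (by simp only; omega) hr, QQ_of_reach (by simp only; omega) hr.symm⟩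
    have s2 : Pr P S (fun F => QQ (0, 0) m F ∧ QQ x m F) ≤
        Pr P (S ∪ (E1 ∪ E2)) (fun F => QQ (0, 0) m F ∧ QQ x m F) := by
      apply Pr_mono_set okP Finset.subset_union_left
      rintro F G hFG hG ⟨k1, k2⟩
      exact ⟨QQ_incr _ _ _ F G hFG hG k1, QQ_incr _ _ _ F G hFG hG k2⟩
    have sE1 : E1 ⊆ S ∪ (E1 ∪ E2) :=
      Finset.subset_union_left.trans Finset.subset_union_right
    have sE2 : E2 ⊆ S ∪ (E1 ∪ E2) :=
      Finset.subset_union_right.trans Finset.subset_union_right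
    have s3 := Pr_indep (p := P) sE1 sE2 d (A := QQ (0, 0) m) (B := QQ x m)
      (fun F _ => QQ_local (Finset.Subset.refl _)) (fun F _ => QQ_local (Finset.Subset.refl _))
    rw [pr_QQ sE1, pr_QQ sE2] at s3
    have hp0 : 0 ≤ ar m := (ar_pos m).le
    have hpk : 0 ≤ ar k := (ar_pos k).le
    have e : ar m * ar m ≤ (C * ar k) * (C * ar k) := mul_le_mul har har hp0 (by positivity)
    calc _ ≤ _ := s1
      _ ≤ _ := s2
      _ = ar m * ar m := s3
      _ ≤ _ := e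
      _ ≤ (C ^ 2 + 1) * ar k ^ 2 := by nlinarith [sq_nonneg (ar k)]

theorem two_lower : ∃ c : ℝ, 0 < c ∧ ∀ n : ℕ, 1 ≤ n → ∀ x ∈ bx n, ∀ S : Finset Edg,
    boxE (5 * n) ⊆ S → c * ar n ^ 2 ≤ Pr P S (fun F => Reach (↑F) (0, 0) x) := by
  obtain ⟨C, hC, h⟩ := ar_ratio 4
  refine ⟨(1 / 2 : ℝ) ^ 188 / C ^ 2, by positivity, fun n hn x hx S hS => ?_⟩
  have hxb := mem_bx'.1 hx
  have hsub3 : boxE (3 * n) ⊆ S := (boxE_mono (by omega)).trans hS
  have e1 : Pr P S (Arm (3 * n)) = ar (3 * n) := pr_Arm (1 / 2) hsub3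
  have e2 : ar (4 * n) ≤ Pr P S (Far x (4 * n)) := by
    apply far_ge (n := n) _ hx
    have : n + 4 * n = 5 * n := by ring
    rw [this]
    exact hS
  have hn' : (0 : ℤ) < n := by exact_mod_cast hn
  have e3 : (1 / 2 : ℝ) ^ 188 ≤ Pr P S (Circ n ((3 * n : ℕ) : ℤ)) := by
    refine le_trans ?_ (pr_Circ (q := 1 / 2) (by norm_num) (by norm_num) (R1 := n)
      (R2 := ((3 * n : ℕ) : ℤ)) (by positivity) (by push_cast; omega) hsub3)
    have k := rsw_p (p := 1 / 2) le_rfl (by norm_num) (n := n) (w := 2 * ((3 * n : ℕ) : ℤ))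
      (h := ((3 * n : ℕ) : ℤ) - n) hn' (by push_cast; omega) (by push_cast; omega)
      (by push_cast; omega)
    calc (1 / 2 : ℝ) ^ 188 = ((1 / 2 : ℝ) ^ 47) ^ 4 := by norm_num
      _ ≤ _ := pow_le_pow_left₀ (by positivity) k 4
  have i1 := Pr_harris okP (Arm_incr S (3 * n))
    (B := Circ n ((3 * n : ℕ) : ℤ)) (fun F G h _ hF => hF.mono h)
  have i2 := Pr_harris okP (S := S)
    (A := fun F => Arm (3 * n) F ∧ Circ n ((3 * n : ℕ) : ℤ) F)
    (B := Far x (4 * n)) (fun F G h _ hF => ⟨hF.1.mono h, hF.2.mono h⟩) (far_incr _ _ _)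
  have i3 : Pr P S (fun F => (Arm (3 * n) F ∧ Circ n ((3 * n : ℕ) : ℤ) F) ∧ Far x (4 * n) F) ≤
      Pr P S (fun F => Reach (↑F) (0, 0) x) := by
    apply Pr_mono okP
    rintro F _ ⟨⟨⟨v, hv, hr⟩, k2⟩, ⟨u, hu, hru⟩⟩
    obtain ⟨z, hz⟩ := circ_meet (by positivity) (by push_cast; omega) k2
    have m1 := hz (0, 0) v (by unfold inR; simp) hv.2 hr
    have hu' := nv_cases hu
    simp only [Prod.fst_sub, Prod.snd_sub] at hu'
    push_cast at hu'
    obtain ⟨w, l1, l2, l3⟩ := first_exit (a := -((3 * n : ℕ) : ℤ)) (b := ((3 * n : ℕ) : ℤ))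
      (c := -((3 * n : ℕ) : ℤ)) (d := ((3 * n : ℕ) : ℤ)) (u := x) (v := u)
      (by unfold inR; push_cast; omega) hru (by push_cast; omega)
    have m2 := hz x w (by unfold inR; omega) l2 l3
    exact (m1.mono Set.inter_subset_left).trans (m2.mono Set.inter_subset_left).symm
  rw [e1] at i1
  have h3 := h n (3 * n) (by omega) (by omega)
  have h4 := h n (4 * n) (by omega) (by omega)
  have p0 : 0 ≤ ar n := (ar_pos n).le
  have p3 : 0 ≤ ar (3 * n) := (ar_pos _).le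
  have p4 : 0 ≤ ar (4 * n) := (ar_pos _).le
  have hk : (0 : ℝ) < (1 / 2 : ℝ) ^ 188 := by positivity
  have e5 : ar n * ar n ≤ C ^ 2 * (ar (3 * n) * ar (4 * n)) := by
    calc ar n * ar n ≤ (C * ar (3 * n)) * (C * ar (4 * n)) := mul_le_mul h3 h4 p0 (by positivity)
      _ = _ := by ring
  calc (1 / 2 : ℝ) ^ 188 / C ^ 2 * ar n ^ 2
      = (1 / 2 : ℝ) ^ 188 * ((ar n * ar n) / C ^ 2) := by ring
    _ ≤ (1 / 2 : ℝ) ^ 188 * (ar (3 * n) * ar (4 * n)) := by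
        apply mul_le_mul_of_nonneg_left _ hk.le
        rw [div_le_iff₀ (by positivity)]
        linarith
    _ = (ar (3 * n) * (1 / 2 : ℝ) ^ 188) * ar (4 * n) := by ring
    _ ≤ (ar (3 * n) * Pr P S (Circ n ((3 * n : ℕ) : ℤ))) * Pr P S (Far x (4 * n)) := by
        apply mul_le_mul (mul_le_mul_of_nonneg_left e3 p3) e2 p4
        exact mul_nonneg p3 (Pr_nonneg okP _ _)
    _ ≤ _ * Pr P S (Far x (4 * n)) :=
        mul_le_mul_of_nonneg_right i1 (Pr_nonneg okP _ _)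
    _ ≤ _ := i2
    _ ≤ _ := i3

end Pool.Agent.H160R2.CV
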