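import Pool.Agent.H160R2.CV.Ratio

/-!
Task CV-Q: two far connections from two points, and three-point connections (helper265).
-/

set_option autoImplicit false

namespace Pool.Agent.H160R2.CV
open Finset H974

namespace Quad

theorem okP : Ok P := fun _ => by unfold P; norm_num

/-- an event depending only on the edges of `T` -/
def LocE (T : Finset Edg) (A : Finset Edg → Prop) : Prop := ∀ F, A F ↔ A (F ∩ T)

/-- an increasing event -/
def IncA (A : Finset Edg → Prop) : Prop := ∀ F G, F ⊆ G → A F → A G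

theorem pr_le_loc (S T : Finset Edg) {A : Finset Edg → Prop} (hA : IncA A) (hT : LocE T A) :
    Pr P S A ≤ Pr P T A := by
  have s2 : Pr P S A ≤ Pr P (S ∪ T) A :=
    Pr_mono_set okP Finset.subset_union_left (fun F G h _ => hA F G h)
  have s3 : Pr P (S ∪ T) A = Pr P T A :=
    Pr_local Finset.subset_union_right (fun F _ => hT F)
  linarith

/-- two increasing events on disjoint sets of edges -/
theorem indep2 (S S1 S2 : Finset Edg) (hd : Disjoint S1 S2) {A B : Finset Edg → Prop}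
    (hA : IncA A) (hB : IncA B) (hA' : LocE S1 A) (hB' : LocE S2 B) :
    Pr P S (fun F => A F ∧ B F) ≤ Pr P S1 A * Pr P S2 B := by
  have hi : IncA (fun F => A F ∧ B F) := fun F G h hF => ⟨hA F G h hF.1, hB F G h hF.2⟩
  have hl : LocE (S1 ∪ S2) (fun F => A F ∧ B F) := by
    intro F
    show (A F ∧ B F) ↔ (A (F ∩ (S1 ∪ S2)) ∧ B (F ∩ (S1 ∪ S2)))
    rw [hA' F, hB' F, hA' (F ∩ (S1 ∪ S2)), hB' (F ∩ (S1 ∪ S2))]
    have e1 : F ∩ (S1 ∪ S2) ∩ S1 = F ∩ S1 := by
      ext e; simp only [Finset.mem_inter, Finset.mem_union]; tauto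
    have e2 : F ∩ (S1 ∪ S2) ∩ S2 = F ∩ S2 := by
      ext e; simp only [Finset.mem_inter, Finset.mem_union]; tauto
    rw [e1, e2]
  have h1 := pr_le_loc S (S1 ∪ S2) hi hl
  have h2 : Pr P (S1 ∪ S2) (fun F => A F ∧ B F) = Pr P (S1 ∪ S2) A * Pr P (S1 ∪ S2) B :=
    Pr_indep Finset.subset_union_left Finset.subset_union_right hd (fun F _ => hA' F)
      (fun F _ => hB' F)
  have h3 : Pr P (S1 ∪ S2) A = Pr P S1 A :=
    Pr_local Finset.subset_union_left (fun F _ => hA' F)
  have h4 : Pr P (S1 ∪ S2) B = Pr P S2 B :=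
    Pr_local Finset.subset_union_right (fun F _ => hB' F)
  rw [h2, h3, h4] at h1
  exact h1

/-- the edges of the box of radius `m` around `v` -/
noncomputable def bo (v : Vtx) (m : ℕ) : Finset Edg :=
  RE (v.1 - m) (v.1 + m) (v.2 - m) (v.2 + m)

/-- an arm from `v` to distance `m` inside the box of radius `m` -/
def LA (v : Vtx) (m : ℕ) (F : Finset Edg) : Prop :=
  ∃ w : Vtx, inR (v.1 - m) (v.1 + m) (v.2 - m) (v.2 + m) w ∧
    (w.1 = v.1 - m ∨ w.1 = v.1 + m ∨ w.2 = v.2 - m ∨ w.2 = v.2 + m) ∧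
      Reach (↑F ∩ ↑(bo v m)) v w

theorem LA_inc (v : Vtx) (m : ℕ) : IncA (LA v m) := by
  rintro F G h ⟨w, k1, k2, k3⟩
  exact ⟨w, k1, k2, k3.mono (Set.inter_subset_inter_left _ (by exact_mod_cast h))⟩

theorem LA_loc {v : Vtx} {m : ℕ} {T : Finset Edg} (h : bo v m ⊆ T) : LocE T (LA v m) := by
  intro F
  unfold LA
  rw [coe_inter_eq h]

theorem pr_LA (S : Finset Edg) (v : Vtx) (m : ℕ) : Pr P S (LA v m) ≤ ar m := by
  refine le_trans (Pr_mono okP ?_)
    (arm_bound (q := 1 / 2) (by norm_num) (by norm_num) S v m)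
  rintro F _ ⟨w, -, k2, k3⟩
  exact ⟨w, by omega, k3.mono Set.inter_subset_left⟩

theorem LA_of_reach {F : Finset Edg} {v u : Vtx} {m : ℕ} (h : m ≤ nv (u - v))
    (hr : Reach (↑F) v u) : LA v m F := by
  obtain ⟨w, k1, k2, k3⟩ := first_exit (a := v.1 - m) (b := v.1 + m) (c := v.2 - m) (d := v.2 + m)
    (by unfold inR; omega) hr (by
      unfold nv at h
      simp only [Prod.fst_sub, Prod.snd_sub] at h
      omega)
  exact ⟨w, k1, k2, k3⟩

theorem LA_of_far {F : Finset Edg} {v : Vtx} {m r : ℕ} (h : m ≤ r) (hF : Far v r F) :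
    LA v m F := by
  obtain ⟨u, hu, hr⟩ := hF
  exact LA_of_reach (h.trans hu) hr

theorem far_of_LA {F : Finset Edg} {v : Vtx} {m : ℕ} (hF : LA v m F) : Far v m F := by
  obtain ⟨w, k1, k2, k3⟩ := hF
  refine ⟨w, ?_, k3.mono Set.inter_subset_left⟩
  unfold nv
  simp only [Prod.fst_sub, Prod.snd_sub]
  unfold inR at k1
  omega

theorem bo_disj {x y : Vtx} {m m' : ℕ} (h : m + m' + 1 ≤ nv (x - y)) :
    Disjoint (bo x m) (bo y m') := by
  rw [Finset.disjoint_left]
  unfold nv at h
  simp only [Prod.fst_sub, Prod.snd_sub] at h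
  rintro ⟨a, b, _ | _⟩ h1 h2
  · simp only [bo, mem_RE_false] at h1 h2; omega
  · simp only [bo, mem_RE_true] at h1 h2; omega

/-- last exit -/
theorem last_exit {G : Set Edg} {a b c d : ℤ} {x w : Vtx} (hx : inR a b c d x)
    (h : Reach G x w) : ∃ u, inR a b c d u ∧ Reach (G \ ↑(RE a b c d)) u w := by
  induction h with
  | refl => exact ⟨x, hx, Reach.refl _ _⟩
  | @tail w w' _ hs ih =>
    obtain ⟨⟨x0, y0, bo⟩, heG, hcase⟩ := hs
    by_cases hm : ((x0, y0, bo) : Edg) ∈ RE a b c d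
    · refine ⟨w', ?_, Reach.refl _ _⟩
      unfold inR
      cases bo
      · simp only [src_mk, tgt_false] at hcase
        rw [mem_RE_false] at hm
        rcases hcase with ⟨h3, h4⟩ | ⟨h3, h4⟩
        · rw [← h4]; simp only; omega
        · rw [← h3]; simp only; omega
      · simp only [src_mk, tgt_true] at hcase
        rw [mem_RE_true] at hm
        rcases hcase with ⟨h3, h4⟩ | ⟨h3, h4⟩
        · rw [← h4]; simp only; omega
        · rw [← h3]; simp only; omega
    · obtain ⟨u, hu, hr⟩ := ih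
      refine ⟨u, hu, hr.trans (Adj.reach ⟨_, ⟨heG, ?_⟩, hcase⟩)⟩
      exact fun h5 => hm (by exact_mod_cast h5)

/-- the crossing of an annulus around `x` -/
def Cr (x : Vtx) (r n : ℕ) (F : Finset Edg) : Prop :=
  ∃ u w : Vtx, inR (x.1 - r) (x.1 + r) (x.2 - r) (x.2 + r) u ∧
    inR (x.1 - n) (x.1 + n) (x.2 - n) (x.2 + n) w ∧
    (w.1 = x.1 - n ∨ w.1 = x.1 + n ∨ w.2 = x.2 - n ∨ w.2 = x.2 + n) ∧
      Reach (↑F ∩ ↑(bo x n \ bo x r)) u w

theorem Cr_inc (v : Vtx) (r n : ℕ) : IncA (Cr v r n) := by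
  rintro F G h ⟨u, w, k0, k1, k2, k3⟩
  exact ⟨u, w, k0, k1, k2, k3.mono (Set.inter_subset_inter_left _ (by exact_mod_cast h))⟩

theorem Cr_loc {v : Vtx} {r n : ℕ} : LocE (bo v n \ bo v r) (Cr v r n) := by
  intro F
  unfold Cr
  rw [coe_inter_eq (Finset.Subset.refl _)]

theorem Cr_of_far {F : Finset Edg} {v : Vtx} {r n : ℕ} (hF : Far v n F) :
    Cr v r n F := by
  obtain ⟨w, k1, k2, k3⟩ := LA_of_far le_rfl hF
  obtain ⟨u, hu, hr⟩ := last_exit (a := v.1 - r) (b := v.1 + r) (c := v.2 - r) (d := v.2 + r)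
    (by unfold inR; omega) k3
  refine ⟨u, w, hu, k1, k2, hr.mono ?_⟩
  intro e he
  refine ⟨he.1.1, ?_⟩
  rw [Finset.coe_sdiff]
  exact ⟨he.1.2, he.2⟩

theorem pr_Cr (S : Finset Edg) (x : Vtx) (r n : ℕ) : Pr P S (Cr x r n) ≤ barm (1 / 2) r n := by
  obtain ⟨a, b⟩ := x
  refine le_trans (Pr_mono okP (B := fun F => BArm r n ((trl (-a) (-b)).mp F)) ?_) ?_
  · rintro F _ ⟨u, w, k0, k1, k2, k3⟩
    have k3' : Reach (↑F ∩ ↑(RE (a - n) (a + n) (b - n) (b + n))) u w := by
      refine k3.mono (Set.inter_subset_inter_right _ ?_)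
      intro e he
      rw [Finset.coe_sdiff] at he
      exact he.1
    have h1 := (trl (-a) (-b)).reach k3'
    rw [LSym.image_inter, trl_RE, trl_ψ, trl_ψ] at h1
    have e : RE (a - n + -a) (a + n + -a) (b - n + -b) (b + n + -b) = boxE n := by
      unfold boxE; congr 1 <;> ring
    rw [e] at h1
    refine ⟨_, _, ?_, ?_, h1⟩
    · unfold inR at k0 ⊢; simp only at k0 ⊢; omega
    · unfold onB inR at *; simp only at *; omega
  · exact Pr_shift_le (q := 1 / 2) (by norm_num) (by norm_num) (trl (-a) (-b)) S (fun F G h hF => hF.mono h)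
      (fun F => BArm_local (Finset.Subset.refl _))

theorem nv_eq_zero {v : Vtx} (h : nv v = 0) : v = 0 := by
  unfold nv at h
  have h1 : v.1 = 0 := by omega
  have h2 : v.2 = 0 := by omega
  exact Prod.ext h1 h2

theorem nv_neg (v : Vtx) : nv (-v) = nv v := by
  unfold nv
  simp

end Quad

open Quad

theorem pair_bound : ∃ C : ℝ, 0 < C ∧ ∀ n : ℕ, 1 ≤ n → ∀ x y : Vtx, nv (x - y) ≤ 2 * n →
    ∀ S : Finset Edg, Pr P S (fun F => Far x n F ∧ Far y n F) ≤ C * (ar (nv (x - y)) * ar n) := by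
  obtain ⟨C, hC, hr⟩ := ar_ratio 16
  have hk := kap_pos
  refine ⟨1 + C * C + C * C / kap, by positivity, ?_⟩
  intro n hn x y hxy S
  set k := nv (x - y) with hkdef
  have hk0 := ar_pos k
  have hn0 := ar_pos n
  have hkn : 0 < ar k * ar n := mul_pos hk0 hn0
  have hCC : 0 < C * C := mul_pos hC hC
  have hCk : 0 < C * C / kap := by positivity
  rcases Nat.eq_zero_or_pos k with h0 | hpos
  · have h1 : Pr P S (fun F => Far x n F ∧ Far y n F) ≤ ar n := by
      refine le_trans (Pr_mono okP (B := LA x n) ?_) (pr_LA S x n)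
      rintro F _ ⟨h2, -⟩
      exact LA_of_far le_rfl h2
    have h2 : ar k = 1 := by rw [h0]; exact arm_zero _
    rw [h2, one_mul]
    nlinarith
  · set m := (k - 1) / 2 with hm
    have hmk : 2 * m + 1 ≤ k := by omega
    have hkm : k ≤ 2 * (m + 1) := by omega
    have hmn : m ≤ n := by omega
    have a1 : ar m ≤ C * ar k := hr m k (by omega) (by omega)
    have hm0 := ar_pos m
    have hdis : Disjoint (bo x m) (bo y m) := bo_disj (by omega)
    by_cases h8 : n ≤ 8 * k
    · have h1 : Pr P S (fun F => Far x n F ∧ Far y n F) ≤ Pr P (bo x m) (LA x m) *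
          Pr P (bo y m) (LA y m) := by
        refine le_trans (Pr_mono okP (B := fun F => LA x m F ∧ LA y m F) ?_)
          (indep2 S (bo x m) (bo y m) hdis (LA_inc x m) (LA_inc y m)
            (LA_loc (Finset.Subset.refl _)) (LA_loc (Finset.Subset.refl _)))
        rintro F _ ⟨h2, h3⟩
        exact ⟨LA_of_far hmn h2, LA_of_far hmn h3⟩
      have h2 : Pr P (bo x m) (LA x m) * Pr P (bo y m) (LA y m) ≤ ar m * ar m :=
        mul_le_mul (pr_LA _ _ _) (pr_LA _ _ _) (Pr_nonneg okP _ _) hm0.le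
      have a2 : ar m ≤ C * ar n := hr m n hmn (by omega)
      have h3 : ar m * ar m ≤ (C * ar k) * (C * ar n) :=
        mul_le_mul a1 a2 hm0.le (by positivity)
      nlinarith
    · push Not at h8
      have h4 : Disjoint (bo y m) (bo x n \ bo x (2 * k)) := by
        rw [Finset.disjoint_left]
        intro e he1 he2
        rw [Finset.mem_sdiff] at he2
        apply he2.2
        have hxy' := hkdef
        unfold nv at hxy'
        simp only [Prod.fst_sub, Prod.snd_sub] at hxy'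
        obtain ⟨a, b, _ | _⟩ := e
        · simp only [bo, mem_RE_false] at he1 ⊢
          push_cast
          omega
        · simp only [bo, mem_RE_true] at he1 ⊢
          push_cast
          omega
      have h5 : Disjoint (bo x m) (bo x n \ bo x (2 * k)) := by
        rw [Finset.disjoint_left]
        intro e he1 he2
        rw [Finset.mem_sdiff] at he2
        apply he2.2
        obtain ⟨a, b, _ | _⟩ := e
        · simp only [bo, mem_RE_false] at he1 ⊢
          push_cast
          omega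
        · simp only [bo, mem_RE_true] at he1 ⊢
          push_cast
          omega
      have h6 : Disjoint (bo x m) (bo y m ∪ (bo x n \ bo x (2 * k))) :=
        Finset.disjoint_union_right.2 ⟨hdis, h5⟩
      have hiB : IncA (fun F => LA y m F ∧ Cr x (2 * k) n F) :=
        fun F G h hF => ⟨LA_inc y m F G h hF.1, Cr_inc x _ n F G h hF.2⟩
      have hlB : LocE (bo y m ∪ (bo x n \ bo x (2 * k)))
          (fun F => LA y m F ∧ Cr x (2 * k) n F) := by
        intro F
        show (LA y m F ∧ Cr x (2 * k) n F) ↔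
          (LA y m (F ∩ (bo y m ∪ (bo x n \ bo x (2 * k)))) ∧
            Cr x (2 * k) n (F ∩ (bo y m ∪ (bo x n \ bo x (2 * k)))))
        rw [← LA_loc (v := y) (m := m) Finset.subset_union_left F,
          Cr_loc (F ∩ (bo y m ∪ (bo x n \ bo x (2 * k)))), Cr_loc F]
        have e2 : F ∩ (bo y m ∪ (bo x n \ bo x (2 * k))) ∩ (bo x n \ bo x (2 * k)) =
            F ∩ (bo x n \ bo x (2 * k)) := by
          ext e; simp only [Finset.mem_inter, Finset.mem_union]; tauto
        rw [e2]
      have h1 : Pr P S (fun F => Far x n F ∧ Far y n F) ≤ Pr P (bo x m) (LA x m) *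
          Pr P (bo y m ∪ (bo x n \ bo x (2 * k))) (fun F => LA y m F ∧ Cr x (2 * k) n F) := by
        refine le_trans (Pr_mono okP (B := fun F => LA x m F ∧ (LA y m F ∧ Cr x (2 * k) n F)) ?_)
          (indep2 S (bo x m) _ h6 (LA_inc x m) hiB (LA_loc (Finset.Subset.refl _)) hlB)
        rintro F _ ⟨h2, h3⟩
        exact ⟨LA_of_far hmn h2, LA_of_far hmn h3, Cr_of_far h2⟩
      have h2 : Pr P (bo y m ∪ (bo x n \ bo x (2 * k))) (fun F => LA y m F ∧ Cr x (2 * k) n F) ≤
          ar m * barm (1 / 2) (2 * k) n := by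
        refine le_trans (indep2 _ (bo y m) (bo x n \ bo x (2 * k)) h4 (LA_inc y m)
          (Cr_inc x _ n) (LA_loc (Finset.Subset.refl _)) Cr_loc) ?_
        exact mul_le_mul (pr_LA _ _ _) (pr_Cr _ _ _ _) (Pr_nonneg okP _ _) hm0.le
      have h3 : Pr P (bo x m) (LA x m) ≤ ar m := pr_LA _ _ _
      have hb0 : 0 ≤ barm (1 / 2) (2 * k) n := barm_nonneg (by norm_num) (by norm_num) _ _
      have h7 : Pr P S (fun F => Far x n F ∧ Far y n F) ≤
          ar m * (ar m * barm (1 / 2) (2 * k) n) :=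
        h1.trans (mul_le_mul h3 h2 (Pr_nonneg okP _ _) hm0.le)
      have g0 := arm_glue (p := 1 / 2) le_rfl (by norm_num) (r := 2 * k) (n := n)
        (by omega) (by omega)
      have g : kap * (ar (3 * (2 * k)) * barm (1 / 2) (2 * k) n) ≤ ar n := by
        unfold kap ar
        exact g0
      have a2 : ar m ≤ C * ar (3 * (2 * k)) := hr m (3 * (2 * k)) (by omega) (by omega)
      have h8 : ar m * barm (1 / 2) (2 * k) n ≤ C * (ar n / kap) := by
        have h9 : ar m * barm (1 / 2) (2 * k) n ≤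
            C * (ar (3 * (2 * k)) * barm (1 / 2) (2 * k) n) := by
          have := mul_le_mul_of_nonneg_right a2 hb0
          linarith
        refine h9.trans (mul_le_mul_of_nonneg_left ?_ hC.le)
        rw [le_div_iff₀ hk]
        linarith
      have h10 : ar m * (ar m * barm (1 / 2) (2 * k) n) ≤ (C * ar k) * (C * (ar n / kap)) :=
        mul_le_mul a1 h8 (mul_nonneg hm0.le hb0) (mul_nonneg hC.le hk0.le)
      have h11 : (C * ar k) * (C * (ar n / kap)) = C * C / kap * (ar k * ar n) := by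
        field_simp
      rw [h11] at h10
      nlinarith

theorem triple_bound : ∃ C : ℝ, 0 < C ∧ ∀ n : ℕ, 1 ≤ n → ∀ x y : Vtx, 3 * n ≤ nv x → 3 * n ≤ nv y →
    nv (x - y) ≤ 48 * n → ∀ S : Finset Edg,
    Pr P S (fun F => Reach (↑F) (0, 0) x ∧ Reach (↑F) (0, 0) y)
      ≤ C * (ar n ^ 2 * ar (nv (x - y))) := by
  obtain ⟨C, hC, hp⟩ := pair_bound
  obtain ⟨K, hK, hr⟩ := ar_ratio 48
  refine ⟨C + K, by positivity, ?_⟩
  intro n hn x y hx hy hxy S
  have hn0 := ar_pos n
  have hk0 := ar_pos (nv (x - y))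
  have hT : 0 < ar n ^ 2 * ar (nv (x - y)) := by positivity
  have hlB : LocE (bo x n ∪ bo y n) (fun F => LA x n F ∧ LA y n F) := by
    intro F
    show (LA x n F ∧ LA y n F) ↔
      (LA x n (F ∩ (bo x n ∪ bo y n)) ∧ LA y n (F ∩ (bo x n ∪ bo y n)))
    rw [← LA_loc (v := x) (m := n) Finset.subset_union_left F,
      ← LA_loc (v := y) (m := n) Finset.subset_union_right F]
  have hiB : IncA (fun F => LA x n F ∧ LA y n F) :=
    fun F G h hF => ⟨LA_inc x n F G h hF.1, LA_inc y n F G h hF.2⟩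
  have hd : Disjoint (bo (0, 0) n) (bo x n ∪ bo y n) := by
    refine Finset.disjoint_union_right.2 ⟨bo_disj ?_, bo_disj ?_⟩
    · have : nv ((0, 0) - x) = nv x := by
        have : ((0, 0) : Vtx) - x = -x := by
          have : ((0, 0) : Vtx) = 0 := rfl
          rw [this, zero_sub]
        rw [this, nv_neg]
      omega
    · have : nv ((0, 0) - y) = nv y := by
        have : ((0, 0) : Vtx) - y = -y := by
          have : ((0, 0) : Vtx) = 0 := rfl
          rw [this, zero_sub]
        rw [this, nv_neg]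
      omega
  have h1 : Pr P S (fun F => Reach (↑F) (0, 0) x ∧ Reach (↑F) (0, 0) y) ≤
      Pr P (bo (0, 0) n) (LA (0, 0) n) *
        Pr P (bo x n ∪ bo y n) (fun F => LA x n F ∧ LA y n F) := by
    refine le_trans (Pr_mono okP
      (B := fun F => LA (0, 0) n F ∧ (LA x n F ∧ LA y n F)) ?_)
      (indep2 S _ _ hd (LA_inc _ n) hiB (LA_loc (Finset.Subset.refl _)) hlB)
    rintro F _ ⟨h2, h3⟩
    have z1 : ∀ z : Vtx, z - (0, 0) = z := fun z => by
      have : ((0, 0) : Vtx) = 0 := rfl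
      rw [this, sub_zero]
    have z2 : ∀ z : Vtx, nv ((0, 0) - z) = nv z := fun z => by
      have : ((0, 0) : Vtx) - z = -z := by
        have : ((0, 0) : Vtx) = 0 := rfl
        rw [this, zero_sub]
      rw [this, nv_neg]
    refine ⟨LA_of_reach (u := x) (by rw [z1]; omega) h2, LA_of_reach (u := (0, 0)) ?_ h2.symm,
      LA_of_reach (u := (0, 0)) ?_ h3.symm⟩
    · rw [z2]; omega
    · rw [z2]; omega
  have h2 : Pr P (bo (0, 0) n) (LA (0, 0) n) ≤ ar n := pr_LA _ _ _
  by_cases h3 : nv (x - y) ≤ 2 * n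
  · have h4 : Pr P (bo x n ∪ bo y n) (fun F => LA x n F ∧ LA y n F) ≤
        C * (ar (nv (x - y)) * ar n) := by
      refine le_trans (Pr_mono okP ?_) (hp n hn x y h3 _)
      rintro F _ ⟨h5, h6⟩
      exact ⟨far_of_LA h5, far_of_LA h6⟩
    have h5 := mul_le_mul h2 h4 (Pr_nonneg okP _ _) hn0.le
    have h6 : ar n * (C * (ar (nv (x - y)) * ar n)) = C * (ar n ^ 2 * ar (nv (x - y))) := by ring
    rw [h6] at h5
    nlinarith
  · push Not at h3
    have h4 : Pr P (bo x n ∪ bo y n) (fun F => LA x n F ∧ LA y n F) ≤ ar n * ar n := by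
      refine le_trans (indep2 _ (bo x n) (bo y n) (bo_disj (by omega)) (LA_inc x n) (LA_inc y n)
        (LA_loc (Finset.Subset.refl _)) (LA_loc (Finset.Subset.refl _))) ?_
      exact mul_le_mul (pr_LA _ _ _) (pr_LA _ _ _) (Pr_nonneg okP _ _) hn0.le
    have h5 := mul_le_mul h2 h4 (Pr_nonneg okP _ _) hn0.le
    have h6 : ar n ≤ K * ar (nv (x - y)) := hr n _ (by omega) (by omega)
    have h7 : ar n * (ar n * ar n) ≤ ar n * (ar n * (K * ar (nv (x - y)))) := by
      apply mul_le_mul_of_nonneg_left _ hn0.le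
      exact mul_le_mul_of_nonneg_left h6 hn0.le
    have h8 : ar n * (ar n * (K * ar (nv (x - y)))) = K * (ar n ^ 2 * ar (nv (x - y))) := by ring
    rw [h8] at h7
    nlinarith

end Pool.Agent.H160R2.CV
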