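import Pool.Agent.H160R2.CV.Ratio
import Pool.Agent.H160R2.CV.Two
import Pool.Agent.H160R2.CV.Quad

/-!
# Critical volumes: first moment, upper and lower bounds for the volume of the cluster of `0`
-/

set_option autoImplicit false

namespace Pool.Agent.H160R2.CV
open Finset H974

namespace VolAux

theorem okP : Ok P := by
  intro e
  unfold P
  constructor <;> norm_num

theorem mem_bx {n : ℕ} {x : Vtx} : x ∈ bx n ↔ nv x ≤ n := by
  unfold bx nv
  rw [Finset.mem_product, Finset.mem_Icc, Finset.mem_Icc]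
  omega

theorem card_bx (n : ℕ) : ((bx n).card : ℝ) ≤ 9 * (n : ℝ) ^ 2 ∨ n = 0 := by
  rcases Nat.eq_zero_or_pos n with h | h
  · exact Or.inr h
  · left
    unfold bx
    rw [Finset.card_product, Int.card_Icc]
    have h1 : ((n : ℤ) + 1 - -(n : ℤ)).toNat = 2 * n + 1 := by omega
    rw [h1]
    push_cast
    have h2 : (1 : ℝ) ≤ n := by exact_mod_cast h
    nlinarith

theorem nv_comm (x y : Vtx) : nv (x - y) = nv (y - x) := by
  unfold nv
  simp only [Prod.fst_sub, Prod.snd_sub]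
  omega

theorem nv_sub_le {n : ℕ} {x y : Vtx} (hx : x ∈ bx n) (hy : y ∈ bx n) : nv (x - y) ≤ 2 * n := by
  rw [mem_bx] at hx hy
  unfold nv at *
  simp only [Prod.fst_sub, Prod.snd_sub]
  omega

theorem far_of {F : Finset Edg} {x : Vtx} {r : ℕ} (h : r ≤ nv x) (hr : Reach (↑F) (0, 0) x) :
    Far (0, 0) r F := by
  refine ⟨x, ?_, hr⟩
  have : x - (0, 0) = x := by
    ext <;> simp
  rw [this]
  exact h

theorem vol_mono {N N' : ℝ} (h : N' ≤ N) {F : Set Edg} (hV : Vol N F) : Vol N' F := by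
  obtain ⟨T, h1, h2⟩ := hV
  exact ⟨T, h.trans h1, h2⟩

/-- the number of vertices of `D` connected to `0` -/
noncomputable def X (D : Finset Vtx) (F : Finset Edg) : ℝ :=
  ∑ x ∈ D, ind (Reach (↑F) (0, 0) x)

theorem X_nonneg (D : Finset Vtx) (F : Finset Edg) : 0 ≤ X D F :=
  Finset.sum_nonneg fun _ _ => ind_nonneg _

theorem X_eq (D : Finset Vtx) (F : Finset Edg) : ∃ T : Finset Vtx, T ⊆ D ∧ X D F = T.card ∧
    (∀ u ∈ T, Reach (↑F) (0, 0) u) ∧ ∀ u ∈ D, Reach (↑F) (0, 0) u → u ∈ T := by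
  classical
  refine ⟨D.filter fun x => Reach (↑F) (0, 0) x, Finset.filter_subset _ _, ?_, ?_, ?_⟩
  · unfold X
    rw [Finset.card_filter]
    push_cast
    apply Finset.sum_congr rfl
    intro x _
    by_cases h : Reach (↑F) (0, 0) x
    · rw [ind_of h, if_pos h]
    · rw [ind_not_of h, if_neg h]
  · intro u hu
    exact (Finset.mem_filter.mp hu).2
  · intro u hu hr
    exact Finset.mem_filter.mpr ⟨hu, hr⟩

theorem Ex_X (D : Finset Vtx) (S : Finset Edg) :
    Ex P S (X D) = ∑ x ∈ D, Pr P S (fun F => Reach (↑F) (0, 0) x) := by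
  unfold X
  rw [Ex_sum]
  rfl

theorem Ex_X2 (D : Finset Vtx) (S : Finset Edg) :
    Ex P S (fun F => X D F * X D F) = ∑ x ∈ D, ∑ y ∈ D,
      Pr P S (fun F => Reach (↑F) (0, 0) x ∧ Reach (↑F) (0, 0) y) := by
  unfold X
  simp only [Finset.sum_mul_sum]
  rw [Ex_sum]
  apply Finset.sum_congr rfl
  intro x _
  rw [Ex_sum]
  apply Finset.sum_congr rfl
  intro y _
  unfold Pr
  apply Ex_congr
  intro F _
  rw [ind_and]

end VolAux

open VolAux

theorem first_moment : ∃ C : ℝ, 0 < C ∧ ∀ n : ℕ, 1 ≤ n → ∀ S : Finset Edg,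
    ∑ x ∈ bx n, Pr P S (fun F => Reach (↑F) (0, 0) x) ≤ C * ((n : ℝ) ^ 2 * ar n ^ 2) := by
  obtain ⟨C2, hC2, h2⟩ := two_upper
  obtain ⟨C3, hC3, h3⟩ := ar_sum_sq
  refine ⟨C2 * (8 * C3), by positivity, fun n hn S => ?_⟩
  calc ∑ x ∈ bx n, Pr P S (fun F => Reach (↑F) (0, 0) x)
      ≤ ∑ x ∈ bx n, C2 * ar (nv x) ^ 2 := Finset.sum_le_sum fun x _ => h2 S x
    _ = C2 * ∑ x ∈ bx n, ar (nv x) ^ 2 := by rw [Finset.mul_sum]
    _ ≤ C2 * (8 * ∑ k ∈ range (n + 1), ((k : ℝ) + 1) * ar k ^ 2) :=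
        mul_le_mul_of_nonneg_left (sum_bx n (fun k => ar k ^ 2) fun k => by positivity) hC2.le
    _ ≤ C2 * (8 * (C3 * ((n : ℝ) ^ 2 * ar n ^ 2))) := by
        apply mul_le_mul_of_nonneg_left _ hC2.le
        have := h3 n hn
        linarith
    _ = C2 * (8 * C3) * ((n : ℝ) ^ 2 * ar n ^ 2) := by ring

theorem vol_upper : ∃ C : ℝ, 0 < C ∧ ∀ n : ℕ, 1 ≤ n → ∀ N : ℝ, 0 < N → ∀ S : Finset Edg,
    Pr P S (fun F => Vol N ↑F) ≤ ar n + C * ((n : ℝ) ^ 2 * ar n ^ 2) / N := by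
  obtain ⟨C, hC, h1⟩ := first_moment
  refine ⟨C, hC, fun n hn N hN S => ?_⟩
  have key : Pr P S (fun F => Vol N ↑F) ≤
      Ex P S (fun F => ind (Far (0, 0) n F) + (1 / N) * X (bx n) F) := by
    unfold Pr
    apply Ex_mono okP
    intro F _
    by_cases hV : Vol N (↑F : Set Edg)
    · rw [ind_of hV]
      by_cases hF : Far (0, 0) n F
      · rw [ind_of hF]
        have := X_nonneg (bx n) F
        have : 0 ≤ (1 / N) * X (bx n) F := by positivity
        linarith
      · obtain ⟨T, hT, hr⟩ := hV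
        have hTs : ∀ u ∈ T, u ∈ bx n := by
          intro u hu
          by_contra hn'
          rw [mem_bx, not_le] at hn'
          exact hF (far_of hn'.le (hr u hu))
        obtain ⟨T', -, hX, -, h5⟩ := X_eq (bx n) F
        have hsub : T ⊆ T' := fun u hu => h5 u (hTs u hu) (hr u hu)
        have hc : (T.card : ℝ) ≤ T'.card := by exact_mod_cast Finset.card_le_card hsub
        have : 1 ≤ (1 / N) * X (bx n) F := by
          rw [hX, one_div, ← div_eq_inv_mul, le_div_iff₀ hN]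
          linarith
        have := ind_nonneg (Far (0, 0) n F)
        linarith
    · rw [ind_not_of hV]
      have h6 := X_nonneg (bx n) F
      have h7 := ind_nonneg (Far (0, 0) n F)
      positivity
  rw [Ex_add, Ex_mul_left, Ex_X] at key
  have h2 : Ex P S (fun F => ind (Far (0, 0) n F)) ≤ ar n := far_le S (0, 0) n
  have h3 := h1 n hn S
  have h4 : 1 / N * ∑ x ∈ bx n, Pr P S (fun F => Reach (↑F) (0, 0) x) ≤
      C * ((n : ℝ) ^ 2 * ar n ^ 2) / N := by
    rw [one_div, ← div_eq_inv_mul]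
    exact div_le_div_of_nonneg_right h3 hN.le
  linarith

/-- the vertices at distance at least `3m` in the box of radius `n` -/
theorem card_D {n m : ℕ} (hm : 12 * m ≤ n) (hn : 1 ≤ n) :
    (n : ℝ) ^ 2 ≤ ((bx n).filter fun x => 3 * m ≤ nv x).card := by
  have hsub : Finset.Icc (3 * (m : ℤ)) n ×ˢ Finset.Icc (-(n : ℤ)) n ⊆
      (bx n).filter fun x => 3 * m ≤ nv x := by
    intro x hx
    rw [Finset.mem_product, Finset.mem_Icc, Finset.mem_Icc] at hx
    rw [Finset.mem_filter, mem_bx]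
    unfold nv
    omega
  have h1 := Finset.card_le_card hsub
  rw [Finset.card_product, Int.card_Icc, Int.card_Icc] at h1
  have e1 : ((n : ℤ) + 1 - 3 * (m : ℤ)).toNat = n + 1 - 3 * m := by omega
  have e2 : ((n : ℤ) + 1 - -(n : ℤ)).toNat = 2 * n + 1 := by omega
  rw [e1, e2] at h1
  have h2 : n * n ≤ (n + 1 - 3 * m) * (2 * n + 1) := by
    have h3 : n ≤ 2 * (n + 1 - 3 * m) := by omega
    calc n * n ≤ (2 * (n + 1 - 3 * m)) * n := Nat.mul_le_mul_right _ h3
      _ = (n + 1 - 3 * m) * (2 * n) := by ring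
      _ ≤ (n + 1 - 3 * m) * (2 * n + 1) := Nat.mul_le_mul_left _ (by omega)
  have h4 : n * n ≤ ((bx n).filter fun x => 3 * m ≤ nv x).card := h2.trans h1
  calc (n : ℝ) ^ 2 = ((n * n : ℕ) : ℝ) := by push_cast; ring
    _ ≤ _ := by exact_mod_cast h4

theorem ex_sq : ∃ C : ℝ, 0 < C ∧ ∀ n m : ℕ, 1 ≤ m → 12 * m ≤ n → n < 12 * (m + 1) →
    ∀ S : Finset Edg, Ex P S (fun F => X ((bx n).filter fun x => 3 * m ≤ nv x) F *
      X ((bx n).filter fun x => 3 * m ≤ nv x) F) ≤ C * ((n : ℝ) ^ 4 * ar n ^ 3) := by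
  obtain ⟨C1, hC1, h1⟩ := triple_bound
  obtain ⟨C2, hC2, h2⟩ := ar_sum
  obtain ⟨C3, hC3, h3⟩ := ar_ratio 24
  refine ⟨C1 * C3 ^ 2 * 9 * (32 * C2), by positivity, fun n m hm hmn hnm S => ?_⟩
  have hn : 1 ≤ n := by omega
  rw [Ex_X2]
  have harn := ar_pos n
  have harm := ar_pos m
  have hr : ar m ≤ C3 * ar n := h3 m n (by omega) (by omega)
  have hinner : ∀ x ∈ bx n, ∑ y ∈ bx n, ar (nv (x - y)) ≤ 32 * C2 * ((n : ℝ) ^ 2 * ar n) := by
    intro x hx
    have h4 := sum_bx_shift n x hx ar (fun k => (ar_pos k).le)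
    have h5 := h2 (2 * n) (by omega)
    have h6 : ar (2 * n) ≤ ar n := ar_anti (by omega)
    have h7 : ∑ y ∈ bx n, ar (nv (x - y)) = ∑ y ∈ bx n, ar (nv (y - x)) :=
      Finset.sum_congr rfl fun y _ => by rw [nv_comm]
    rw [h7]
    push_cast at h5
    have h8 : (2 * (n : ℝ)) ^ 2 * ar (2 * n) ≤ 4 * ((n : ℝ) ^ 2 * ar n) := by
      have : (n : ℝ) ^ 2 * ar (2 * n) ≤ (n : ℝ) ^ 2 * ar n :=
        mul_le_mul_of_nonneg_left h6 (by positivity)
      nlinarith
    have h9 : C2 * ((2 * (n : ℝ)) ^ 2 * ar (2 * n)) ≤ C2 * (4 * ((n : ℝ) ^ 2 * ar n)) :=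
      mul_le_mul_of_nonneg_left h8 hC2.le
    linarith
  set D := (bx n).filter fun x => 3 * m ≤ nv x with hD
  have hDs : D ⊆ bx n := Finset.filter_subset _ _
  calc ∑ x ∈ D, ∑ y ∈ D, Pr P S (fun F => Reach (↑F) (0, 0) x ∧ Reach (↑F) (0, 0) y)
      ≤ ∑ x ∈ D, ∑ y ∈ D, C1 * (ar m ^ 2 * ar (nv (x - y))) := by
        apply Finset.sum_le_sum
        intro x hx
        apply Finset.sum_le_sum
        intro y hy
        have hx' := (Finset.mem_filter.mp hx)
        have hy' := (Finset.mem_filter.mp hy)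
        exact h1 m hm x y hx'.2 hy'.2 ((nv_sub_le hx'.1 hy'.1).trans (by omega)) S
    _ ≤ ∑ x ∈ bx n, ∑ y ∈ bx n, C1 * (ar m ^ 2 * ar (nv (x - y))) := by
        have hnn : ∀ x y : Vtx, 0 ≤ C1 * (ar m ^ 2 * ar (nv (x - y))) := fun x y => by
          have := ar_pos (nv (x - y)); positivity
        refine (Finset.sum_le_sum fun x _ =>
          Finset.sum_le_sum_of_subset_of_nonneg hDs fun y _ _ => hnn x y).trans ?_
        exact Finset.sum_le_sum_of_subset_of_nonneg hDs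
          fun x _ _ => Finset.sum_nonneg fun y _ => hnn x y
    _ = C1 * ar m ^ 2 * ∑ x ∈ bx n, ∑ y ∈ bx n, ar (nv (x - y)) := by
        rw [Finset.mul_sum]
        apply Finset.sum_congr rfl
        intro x _
        rw [Finset.mul_sum]
        apply Finset.sum_congr rfl
        intro y _
        ring
    _ ≤ C1 * ar m ^ 2 * ∑ x ∈ bx n, 32 * C2 * ((n : ℝ) ^ 2 * ar n) := by
        apply mul_le_mul_of_nonneg_left _ (by positivity)
        exact Finset.sum_le_sum hinner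
    _ = C1 * ar m ^ 2 * ((bx n).card * (32 * C2 * ((n : ℝ) ^ 2 * ar n))) := by
        rw [Finset.sum_const, nsmul_eq_mul]
    _ ≤ C1 * (C3 * ar n) ^ 2 * (9 * (n : ℝ) ^ 2 * (32 * C2 * ((n : ℝ) ^ 2 * ar n))) := by
        have hc : ((bx n).card : ℝ) ≤ 9 * (n : ℝ) ^ 2 := by
          rcases card_bx n with h | h
          · exact h
          · omega
        have h10 : ar m ^ 2 ≤ (C3 * ar n) ^ 2 := pow_le_pow_left₀ harm.le hr 2
        have h11 : C1 * ar m ^ 2 ≤ C1 * (C3 * ar n) ^ 2 := mul_le_mul_of_nonneg_left h10 hC1.le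
        have h12 : ((bx n).card : ℝ) * (32 * C2 * ((n : ℝ) ^ 2 * ar n)) ≤
            9 * (n : ℝ) ^ 2 * (32 * C2 * ((n : ℝ) ^ 2 * ar n)) :=
          mul_le_mul_of_nonneg_right hc (by positivity)
        exact mul_le_mul h11 h12 (by positivity) (by positivity)
    _ = C1 * C3 ^ 2 * 9 * (32 * C2) * ((n : ℝ) ^ 4 * ar n ^ 3) := by ring

theorem vol_lower : ∃ c : ℝ, 0 < c ∧ ∀ n : ℕ, 12 ≤ n → ∀ S : Finset Edg, boxE (5 * n) ⊆ S →
    c * ar n ≤ Pr P S (fun F => Vol (c * ((n : ℝ) ^ 2 * ar n)) ↑F) := by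
  obtain ⟨c2, hc2, h2⟩ := two_lower
  obtain ⟨Cr, hCr, hr⟩ := ar_ratio 24
  obtain ⟨Cq, hCq, hq⟩ := ex_sq
  set a : ℝ := c2 / (2 * Cr) with ha
  have ha0 : 0 < a := by positivity
  set b : ℝ := 2 * Cq / c2 with hb
  have hb0 : 0 < b := by positivity
  set c' : ℝ := c2 / (2 * b) with hc'
  have hc'0 : 0 < c' := by positivity
  refine ⟨min a c', lt_min ha0 hc'0, fun n hn S hS => ?_⟩
  set m := n / 12 with hm
  have hm1 : 1 ≤ m := by omega
  have hm2 : 12 * m ≤ n := by omega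
  have hm3 : n < 12 * (m + 1) := by omega
  have harn := ar_pos n
  have hn0 : (0 : ℝ) < n := by exact_mod_cast (show 0 < n by omega)
  set D := (bx n).filter fun x => 3 * m ≤ nv x with hD
  have hDs : D ⊆ bx n := Finset.filter_subset _ _
  have hcard : (n : ℝ) ^ 2 ≤ D.card := card_D hm2 (by omega)
  have hEX : c2 * ((n : ℝ) ^ 2 * ar n ^ 2) ≤ Ex P S (X D) := by
    rw [Ex_X]
    calc c2 * ((n : ℝ) ^ 2 * ar n ^ 2) = (n : ℝ) ^ 2 * (c2 * ar n ^ 2) := by ring
      _ ≤ D.card * (c2 * ar n ^ 2) := mul_le_mul_of_nonneg_right hcard (by positivity)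
      _ = ∑ x ∈ D, c2 * ar n ^ 2 := by rw [Finset.sum_const, nsmul_eq_mul]
      _ ≤ _ := Finset.sum_le_sum fun x hx => h2 n (by omega) x (hDs hx) S hS
  have hEX2 : Ex P S (fun F => X D F * X D F) ≤ Cq * ((n : ℝ) ^ 4 * ar n ^ 3) :=
    hq n m hm1 hm2 hm3 S
  set t : ℝ := a * ((n : ℝ) ^ 2 * ar n) with ht
  have ht0 : 0 < t := by positivity
  set l : ℝ := b * ((n : ℝ) ^ 2 * ar n) with hl
  have hl0 : 0 < l := by positivity
  -- pointwise bound
  have hpt : Ex P S (X D) ≤ Ex P S (fun F => t * ind (Far (0, 0) (3 * m) F) +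
      ((1 / (2 * l)) * (X D F * X D F) + (l / 2) * ind (t ≤ X D F))) := by
    apply Ex_mono okP
    intro F _
    have hX0 := X_nonneg D F
    have hf0 := ind_nonneg (Far (0, 0) (3 * m) F)
    by_cases hG : t ≤ X D F
    · rw [ind_of hG]
      have h5 : X D F ≤ 1 / (2 * l) * (X D F * X D F) + l / 2 * 1 := by
        have : 0 ≤ (X D F - l) ^ 2 / (2 * l) := by positivity
        have e : (X D F - l) ^ 2 / (2 * l) =
            1 / (2 * l) * (X D F * X D F) + l / 2 * 1 - X D F := by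
          field_simp
          ring
        linarith
      have : 0 ≤ t * ind (Far (0, 0) (3 * m) F) := by positivity
      linarith
    · rw [ind_not_of hG]
      have h6 : 0 ≤ 1 / (2 * l) * (X D F * X D F) := by positivity
      by_cases hF : Far (0, 0) (3 * m) F
      · rw [ind_of hF]
        push Not at hG
        linarith
      · have hz : X D F = 0 := by
          unfold X
          apply Finset.sum_eq_zero
          intro x hx
          apply ind_not_of
          intro hre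
          exact hF (far_of (Finset.mem_filter.mp hx).2 hre)
        rw [ind_not_of hF, hz]
        simp
  rw [Ex_add, Ex_mul_left, Ex_add, Ex_mul_left, Ex_mul_left] at hpt
  have hfar : Ex P S (fun F => ind (Far (0, 0) (3 * m) F)) ≤ Cr * ar n := by
    have h7 : Ex P S (fun F => ind (Far (0, 0) (3 * m) F)) ≤ ar (3 * m) := far_le S (0, 0) (3 * m)
    have h8 : ar (3 * m) ≤ Cr * ar n := hr (3 * m) n (by omega) (by omega)
    linarith
  have h9 : t * Ex P S (fun F => ind (Far (0, 0) (3 * m) F)) ≤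
      c2 / 2 * ((n : ℝ) ^ 2 * ar n ^ 2) := by
    calc _ ≤ t * (Cr * ar n) := mul_le_mul_of_nonneg_left hfar ht0.le
      _ = c2 / 2 * ((n : ℝ) ^ 2 * ar n ^ 2) := by
        rw [ht, ha]; field_simp
  have h10 : 1 / (2 * l) * Ex P S (fun F => X D F * X D F) ≤
      c2 / 4 * ((n : ℝ) ^ 2 * ar n ^ 2) := by
    calc _ ≤ 1 / (2 * l) * (Cq * ((n : ℝ) ^ 4 * ar n ^ 3)) :=
          mul_le_mul_of_nonneg_left hEX2 (by positivity)
      _ = c2 / 4 * ((n : ℝ) ^ 2 * ar n ^ 2) := by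
        rw [hl, hb]; field_simp; ring
  have h11 : c2 / 4 * ((n : ℝ) ^ 2 * ar n ^ 2) ≤
      l / 2 * Ex P S (fun F => ind (t ≤ X D F)) := by linarith
  have h12 : c' * ar n ≤ Ex P S (fun F => ind (t ≤ X D F)) := by
    have h13 : l / 2 * (c' * ar n) = c2 / 4 * ((n : ℝ) ^ 2 * ar n ^ 2) := by
      rw [hl, hc']; field_simp; ring
    rw [← h13] at h11
    exact le_of_mul_le_mul_left h11 (by positivity)
  calc min a c' * ar n ≤ c' * ar n := mul_le_mul_of_nonneg_right (min_le_right _ _) harn.le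
    _ ≤ Ex P S (fun F => ind (t ≤ X D F)) := h12
    _ ≤ Pr P S (fun F => Vol (min a c' * ((n : ℝ) ^ 2 * ar n)) ↑F) := by
        unfold Pr
        apply Ex_mono okP
        intro F _
        apply ind_mono
        intro hF
        obtain ⟨T, -, h14, h15, -⟩ := X_eq D F
        refine ⟨T, ?_, h15⟩
        rw [← h14]
        refine le_trans ?_ hF
        exact mul_le_mul_of_nonneg_right (min_le_left _ _) (by positivity)

end Pool.Agent.H160R2.CV
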