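import Pool.Agent.H160R2.CV.Defs
import Pool.Agent.H160R2.CV.Ratio
import Pool.Agent.H160R2.CV.Two
import Pool.Agent.H160R2.CV.Vol

/-! The two-point function and the volume of the cluster in the infinite lattice. -/

set_option autoImplicit false

namespace Pool.Agent.H160R2.CV
open Finset H974 Filter MeasureTheory

namespace InfAux

theorem edge_in_box (e : Edg) : ∃ m : ℕ, e ∈ boxE m := by
  obtain ⟨x, y, _ | _⟩ := e
  · refine ⟨x.natAbs + y.natAbs + 1, ?_⟩
    unfold boxE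
    rw [mem_RE_false]
    omega
  · refine ⟨x.natAbs + y.natAbs + 1, ?_⟩
    unfold boxE
    rw [mem_RE_true]
    omega

theorem boxE_coe_mono {m m' : ℕ} (h : m ≤ m') : (↑(boxE m) : Set Edg) ⊆ ↑(boxE m') := by
  exact_mod_cast boxE_mono h

theorem reach_box {F : Set Edg} {u v : Vtx} (h : Reach F u v) :
    ∃ m : ℕ, Reach (F ∩ ↑(boxE m)) u v := by
  induction h with
  | refl => exact ⟨0, Reach.refl _ _⟩
  | tail _ hs ih =>
    obtain ⟨m, hm⟩ := ih
    obtain ⟨e, he, hcase⟩ := hs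
    obtain ⟨m', hm'⟩ := edge_in_box e
    refine ⟨max m m', ?_⟩
    refine (hm.mono (Set.inter_subset_inter_right _ (boxE_coe_mono (le_max_left _ _)))).trans ?_
    exact Adj.reach ⟨e, ⟨he, boxE_coe_mono (le_max_right _ _) (Finset.mem_coe.2 hm')⟩, hcase⟩

theorem vol_box {N : ℝ} {F : Set Edg} (h : Vol N F) : ∃ m : ℕ, Vol N (F ∩ ↑(boxE m)) := by
  obtain ⟨T, hT, hr⟩ := h
  have h1 : ∀ u : Vtx, ∃ m : ℕ, u ∈ T → Reach (F ∩ ↑(boxE m)) (0, 0) u := by
    intro u
    by_cases hu : u ∈ T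
    · obtain ⟨m, hm⟩ := reach_box (hr u hu)
      exact ⟨m, fun _ => hm⟩
    · exact ⟨0, fun h => absurd h hu⟩
  choose m hm using h1
  refine ⟨T.sup m, T, hT, fun u hu => ?_⟩
  exact (hm u hu).mono (Set.inter_subset_inter_right _ (boxE_coe_mono (Finset.le_sup hu)))

theorem vol_mono {N : ℝ} {F G : Set Edg} (hFG : F ⊆ G) (h : Vol N F) : Vol N G := by
  obtain ⟨T, hT, hr⟩ := h
  exact ⟨T, hT, fun u hu => (hr u hu).mono hFG⟩

theorem law_box (m : ℕ) (Q : Set Edg → Prop) :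
    (bondLaw hlf).real {ω | Q (opn ω ∩ ↑(boxE m))} = Pr P (boxE m) (fun F => Q ↑F) := by
  have h := law_event hlf (boxE m) (fun F => Q ↑F)
  have e : {ω | Q (opn ω ∩ ↑(boxE m))} = {ω | (fun F : Finset Edg => Q ↑F) (FF (boxE m) ω)} := by
    ext ω
    simp only [Set.mem_ofPred_eq, FF_coe]
  rw [e, h]
  rfl

theorem upper (Q : Set Edg → Prop) (hmono : ∀ F G, F ⊆ G → Q F → Q G)
    (hbox : ∀ F, Q F → ∃ m : ℕ, Q (F ∩ ↑(boxE m))) (c : ℝ)
    (h : ∀ m : ℕ, Pr P (boxE m) (fun F => Q ↑F) ≤ c) :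
    (bondLaw hlf).real {ω | Q (opn ω)} ≤ c := by
  have e : {ω : sqLattice.edgeSet → Bool | Q (opn ω)} = ⋃ m : ℕ, {ω | Q (opn ω ∩ ↑(boxE m))} := by
    ext ω
    rw [Set.mem_iUnion]
    constructor
    · intro hω
      exact hbox _ hω
    · rintro ⟨m, hm⟩
      exact hmono _ _ Set.inter_subset_left hm
  have hm : Monotone (fun m : ℕ => {ω : sqLattice.edgeSet → Bool | Q (opn ω ∩ ↑(boxE m))}) := by
    intro m m' hmm ω hω
    exact hmono _ _ (Set.inter_subset_inter_right _ (boxE_coe_mono hmm)) hω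
  have h1 := tendsto_measure_iUnion_atTop (μ := bondLaw hlf) hm
  rw [← e] at h1
  have h2 : Tendsto (fun m : ℕ => (bondLaw hlf).real {ω | Q (opn ω ∩ ↑(boxE m))}) atTop
      (nhds ((bondLaw hlf).real {ω | Q (opn ω)})) :=
    (ENNReal.tendsto_toReal (measure_ne_top _ _)).comp h1
  refine le_of_tendsto' h2 (fun m => ?_)
  rw [law_box]
  exact h m

theorem lower (Q : Set Edg → Prop) (hmono : ∀ F G, F ⊆ G → Q F → Q G) (m : ℕ) :
    Pr P (boxE m) (fun F => Q ↑F) ≤ (bondLaw hlf).real {ω | Q (opn ω)} := by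
  rw [← law_box]
  exact measureReal_mono (fun ω hω => hmono _ _ Set.inter_subset_left hω)

theorem encard_iff (ω : sqLattice.edgeSet → Bool) (N : ℕ) :
    (N : ℕ∞) ≤ (cluster0 ω).encard ↔ Vol N (opn ω) := by
  constructor
  · intro h
    obtain ⟨t, ht, htN⟩ := Set.exists_subset_encard_eq h
    have hfin : t.Finite := Set.finite_of_encard_eq_coe htN
    refine ⟨hfin.toFinset, ?_, fun u hu => ?_⟩
    · have h1 : (hfin.toFinset.card : ℕ∞) = (N : ℕ∞) := by
        rw [← htN, ← Set.encard_coe_eq_coe_finsetCard, hfin.coe_toFinset]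
      have h2 : hfin.toFinset.card = N := by exact_mod_cast h1
      rw [h2]
    · have h3 : u ∈ cluster0 ω := ht (by simpa using hu)
      exact (open_reach ω _ _).1 h3
  · rintro ⟨T, hT, hr⟩
    have h1 : (T : Set Vtx) ⊆ cluster0 ω := fun u hu =>
      (open_reach ω _ _).2 (hr u (Finset.mem_coe.1 hu))
    refine le_trans ?_ (Set.encard_le_encard h1)
    rw [Set.encard_coe_eq_coe_finsetCard]
    exact_mod_cast hT

theorem mem_bx_nv (x : Vtx) : x ∈ bx (nv x) := by
  unfold bx nv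
  rw [Finset.mem_product, Finset.mem_Icc, Finset.mem_Icc]
  refine ⟨⟨?_, ?_⟩, ?_, ?_⟩ <;> omega

end InfAux

open InfAux in
theorem inf_two : ∃ c C : ℝ, 0 < c ∧ 0 < C ∧ ∀ x : Vtx,
    c * ar (nv x) ^ 2 ≤ (bondLaw hlf).real {ω | (openGraph ω).Reachable (0, 0) x} ∧
    (bondLaw hlf).real {ω | (openGraph ω).Reachable (0, 0) x} ≤ C * ar (nv x) ^ 2 := by
  obtain ⟨C, hC, hup⟩ := two_upper
  obtain ⟨c, hc, hlo⟩ := two_lower
  refine ⟨min c 1, C, lt_min hc one_pos, hC, fun x => ?_⟩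
  have e : {ω : sqLattice.edgeSet → Bool | (openGraph ω).Reachable (0, 0) x} =
      {ω | (fun F : Set Edg => Reach F (0, 0) x) (opn ω)} := by
    ext ω
    exact open_reach ω _ _
  rw [e]
  constructor
  · rcases Nat.eq_zero_or_pos (nv x) with h0 | h0
    · have hx : x = (0, 0) := by
        unfold nv at h0
        ext
        · simp only; omega
        · simp only; omega
      have h1 : {ω : sqLattice.edgeSet → Bool | (fun F : Set Edg => Reach F (0, 0) x) (opn ω)} =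
          Set.univ := by
        ext ω
        simp only [Set.mem_ofPred_eq, Set.mem_univ, iff_true]
        rw [hx]
        exact Reach.refl _ _
      rw [h1, probReal_univ]
      have h2 := ar_le_one (nv x)
      have h3 := (ar_pos (nv x)).le
      have h4 : ar (nv x) ^ 2 ≤ 1 := pow_le_one₀ h3 h2
      calc min c 1 * ar (nv x) ^ 2 ≤ 1 * 1 :=
            mul_le_mul (min_le_right _ _) h4 (by positivity) (by norm_num)
        _ = 1 := by norm_num
    · have h1 := hlo (nv x) h0 x (mem_bx_nv x) (boxE (5 * nv x)) (Finset.Subset.refl _)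
      have h2 := lower (fun F : Set Edg => Reach F (0, 0) x) (fun F G hFG h => h.mono hFG)
        (5 * nv x)
      refine le_trans ?_ (h1.trans h2)
      exact mul_le_mul_of_nonneg_right (min_le_left _ _) (by positivity)
  · exact upper (fun F : Set Edg => Reach F (0, 0) x) (fun F G hFG h => h.mono hFG)
      (fun F h => reach_box h) _ (fun m => hup (boxE m) x)

open InfAux in
theorem inf_vol_upper : ∃ C : ℝ, 0 < C ∧ ∀ n : ℕ, 1 ≤ n → ∀ N : ℕ, 1 ≤ N →
    (bondLaw hlf).real {ω | (N : ℕ∞) ≤ (cluster0 ω).encard} ≤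
      ar n + C * ((n : ℝ) ^ 2 * ar n ^ 2) / N := by
  obtain ⟨C, hC, h⟩ := vol_upper
  refine ⟨C, hC, fun n hn N hN => ?_⟩
  have e : {ω : sqLattice.edgeSet → Bool | (N : ℕ∞) ≤ (cluster0 ω).encard} =
      {ω | Vol N (opn ω)} := by
    ext ω
    exact encard_iff ω N
  rw [e]
  have hN' : (0 : ℝ) < N := by exact_mod_cast hN
  exact upper (fun F : Set Edg => Vol N F) (fun F G hFG h => vol_mono hFG h)
    (fun F h => vol_box h) _ (fun m => h n hn N hN' (boxE m))

open InfAux in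
theorem inf_vol_lower : ∃ c : ℝ, 0 < c ∧ ∀ n : ℕ, 12 ≤ n → ∀ N : ℕ,
    (N : ℝ) ≤ c * ((n : ℝ) ^ 2 * ar n) →
    c * ar n ≤ (bondLaw hlf).real {ω | (N : ℕ∞) ≤ (cluster0 ω).encard} := by
  obtain ⟨c, hc, h⟩ := vol_lower
  refine ⟨c, hc, fun n hn N hN => ?_⟩
  have h1 := h n hn (boxE (5 * n)) (Finset.Subset.refl _)
  have h2 := lower (fun F : Set Edg => Vol (c * ((n : ℝ) ^ 2 * ar n)) F)
    (fun F G hFG h => vol_mono hFG h) (5 * n)
  refine (h1.trans h2).trans (measureReal_mono ?_)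
  intro ω hω
  obtain ⟨T, hT, hr⟩ := hω
  exact (encard_iff ω N).2 ⟨T, hN.trans hT, hr⟩

end Pool.Agent.H160R2.CV
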