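import Pool.Agent.H160R2.CV.Defs

/-! The largest cluster of a box in the infinite lattice. -/

set_option autoImplicit false

namespace Pool.Agent.H160R2.CV
open Finset H974 Filter MeasureTheory

namespace InfMax

theorem mem_bx {n : ℕ} {u : Vtx} : u ∈ bx n ↔
    -(n:ℤ) ≤ u.1 ∧ u.1 ≤ n ∧ -(n:ℤ) ≤ u.2 ∧ u.2 ≤ n := by
  unfold bx
  rw [Finset.mem_product, Finset.mem_Icc, Finset.mem_Icc]
  tauto

/-- the edges of the box are the edges with both ends in the box -/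
theorem mem_boxE {n : ℕ} {e : Edg} : e ∈ boxE n ↔ src e ∈ bx n ∧ tgt e ∈ bx n := by
  obtain ⟨x, y, _ | _⟩ := e
  · simp only [boxE, mem_RE_false, mem_bx, src_mk, tgt_false]
    omega
  · simp only [boxE, mem_RE_true, mem_bx, src_mk, tgt_true]
    omega

theorem boxGraph_adj (n : ℕ) (ω : sqLattice.edgeSet → Bool) (u v : ℤ × ℤ) :
    (boxGraph n ω).Adj u v ↔ Adj (opn ω ∩ ↑(boxE n)) u v := by
  show ((openGraph ω).Adj u v ∧ u ∈ bx n ∧ v ∈ bx n) ↔ _
  rw [openGraph_adj]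
  constructor
  · rintro ⟨⟨e, he, hc⟩, hu, hv⟩
    refine ⟨e, ⟨he, ?_⟩, hc⟩
    rw [Finset.mem_coe, mem_boxE]
    rcases hc with ⟨h1, h2⟩ | ⟨h1, h2⟩
    · rw [h1, h2]; exact ⟨hu, hv⟩
    · rw [h1, h2]; exact ⟨hv, hu⟩
  · rintro ⟨e, ⟨he, he'⟩, hc⟩
    rw [Finset.mem_coe, mem_boxE] at he'
    refine ⟨⟨e, he, hc⟩, ?_⟩
    rcases hc with ⟨h1, h2⟩ | ⟨h1, h2⟩
    · rw [h1, h2] at he'; exact he'
    · rw [h1, h2] at he'; exact ⟨he'.2, he'.1⟩

theorem box_reach (n : ℕ) (ω : sqLattice.edgeSet → Bool) (u v : ℤ × ℤ) :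
    (boxGraph n ω).Reachable u v ↔ Reach (opn ω ∩ ↑(boxE n)) u v := by
  rw [SimpleGraph.reachable_iff_reflTransGen]
  have : (boxGraph n ω).Adj = Adj (opn ω ∩ ↑(boxE n)) := by
    funext u v
    exact propext (boxGraph_adj n ω u v)
  rw [this]
  rfl

theorem reach_sub (n : ℕ) (ω : sqLattice.edgeSet → Bool) (v : ℤ × ℤ) :
    {u | Reach (opn ω ∩ ↑(boxE n)) v u} ⊆ ↑(insert v (bx n)) := by
  intro u hu
  have hu' : Relation.ReflTransGen (Adj (opn ω ∩ ↑(boxE n))) v u := hu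
  rw [Finset.mem_coe, Finset.mem_insert]
  rcases Relation.ReflTransGen.cases_tail hu' with h | ⟨w, -, hw⟩
  · exact Or.inl h
  · right
    rw [← boxGraph_adj] at hw
    exact hw.2.2

theorem fin_reach (n : ℕ) (ω : sqLattice.edgeSet → Bool) (v : ℤ × ℤ) :
    {u | Reach (opn ω ∩ ↑(boxE n)) v u}.Finite :=
  (Finset.finite_toSet _).subset (reach_sub n ω v)

theorem bx_ne (n : ℕ) : (bx n).Nonempty :=
  ⟨(0, 0), by rw [mem_bx]; simp⟩

theorem le_maxCl_iff (n N : ℕ) (ω : sqLattice.edgeSet → Bool) :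
    N ≤ maxCl n ω ↔ Big N n (FF (boxE n) ω) := by
  have hFF : (↑(FF (boxE n) ω) : Set Edg) ∩ ↑(boxE n) = opn ω ∩ ↑(boxE n) := by
    rw [FF_coe, Set.inter_assoc, Set.inter_self]
  have hset : ∀ v : ℤ × ℤ, {u | (boxGraph n ω).Reachable v u}
      = {u | Reach (opn ω ∩ ↑(boxE n)) v u} := by
    intro v; ext u; exact box_reach n ω v u
  unfold Big
  rw [hFF]
  constructor
  · intro h
    obtain ⟨v, hv, hv'⟩ := Finset.exists_mem_eq_sup (bx n) (bx_ne n)
      (fun v => Set.ncard {u | (boxGraph n ω).Reachable v u})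
    refine ⟨v, hv, (fin_reach n ω v).toFinset, ?_, fun u hu => by
      rw [Set.Finite.mem_toFinset] at hu; exact hu⟩
    have h1 : N ≤ Set.ncard {u | Reach (opn ω ∩ ↑(boxE n)) v u} := by
      rw [← hset v]
      exact h.trans (le_of_eq hv')
    rw [Set.ncard_eq_toFinset_card _ (fin_reach n ω v)] at h1
    exact_mod_cast h1
  · rintro ⟨v, hv, T, hT, hT'⟩
    have h1 : T.card ≤ Set.ncard {u | Reach (opn ω ∩ ↑(boxE n)) v u} := by
      rw [← Set.ncard_coe_finset]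
      exact Set.ncard_le_ncard (fun u hu => hT' u hu) (fin_reach n ω v)
    rw [← hset v] at h1
    have h2 : Set.ncard {u | (boxGraph n ω).Reachable v u} ≤ maxCl n ω :=
      Finset.le_sup (f := fun v => Set.ncard {u | (boxGraph n ω).Reachable v u}) hv
    have h3 : N ≤ T.card := by exact_mod_cast hT
    exact h3.trans (h1.trans h2)

end InfMax

theorem law_maxCl (n : ℕ) (N : ℕ) :
    (bondLaw hlf).real {ω | N ≤ maxCl n ω} = Pr P (boxE n) (Big N n) := by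
  have h1 : {ω | N ≤ maxCl n ω} = {ω | Big N n (FF (boxE n) ω)} := by
    ext ω
    exact InfMax.le_maxCl_iff n N ω
  rw [h1, law_event]
  rfl

end Pool.Agent.H160R2.CV
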