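import Pool.Agent.H160R2.CV.Ratio
import Pool.Agent.H160R2.CV.Two
import Pool.Agent.H160R2.CV.Quad

/-!
# The largest cluster of a box (task CV-W, helper473)
-/

set_option autoImplicit false

namespace Pool.Agent.H160R2.CV
open Finset H974

theorem w_ok : Ok P := fun _ => ⟨by unfold P; norm_num, by unfold P; norm_num⟩

theorem w_mem_bx {n : ℕ} {v : Vtx} : v ∈ bx n ↔ (-(n : ℤ) ≤ v.1 ∧ v.1 ≤ n) ∧ (-(n : ℤ) ≤ v.2 ∧ v.2 ≤ n) := by
  unfold bx
  rw [Finset.mem_product, Finset.mem_Icc, Finset.mem_Icc]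

theorem w_card_bx (n : ℕ) : ((bx n).card : ℝ) = (2 * (n : ℝ) + 1) ^ 2 := by
  unfold bx
  rw [Finset.card_product, Int.card_Icc]
  have : ((n : ℤ) + 1 - -(n : ℤ)).toNat = 2 * n + 1 := by omega
  rw [this]
  push_cast
  ring

theorem w_nv_comm (x y : Vtx) : nv (x - y) = nv (y - x) := by
  unfold nv
  simp only [Prod.fst_sub, Prod.snd_sub]
  congr 1 <;> omega

theorem w_nv_le {n : ℕ} {x y : Vtx} (hx : x ∈ bx n) (hy : y ∈ bx n) : nv (x - y) ≤ 2 * n := by
  rw [w_mem_bx] at hx hy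
  unfold nv
  simp only [Prod.fst_sub, Prod.snd_sub]
  omega

theorem w_sum_ind {α : Type*} (s : Finset α) (p : α → Prop) [DecidablePred p] :
    ∑ x ∈ s, ind (p x) = ((s.filter p).card : ℝ) := by
  rw [Finset.card_filter]
  push_cast
  apply Finset.sum_congr rfl
  intro x _
  by_cases h : p x
  · rw [ind_of h, if_pos h]
  · rw [ind_not_of h, if_neg h]

theorem Far.mono_r {v : Vtx} {r s : ℕ} (h : r ≤ s) {F : Finset Edg} (hF : Far v s F) : Far v r F := by
  obtain ⟨u, hu, hr⟩ := hF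
  exact ⟨u, h.trans hu, hr⟩

theorem Far.mono_F {v : Vtx} {r : ℕ} {F G : Finset Edg} (h : F ⊆ G) (hF : Far v r F) : Far v r G := by
  obtain ⟨u, hu, hr⟩ := hF
  exact ⟨u, hu, hr.mono (by exact_mod_cast h)⟩

theorem second_moment : ∃ C : ℝ, 0 < C ∧ ∀ n : ℕ, 1 ≤ n → ∀ S : Finset Edg,
    ∑ x ∈ bx n, ∑ y ∈ bx n, Pr P S (fun F => Far x n F ∧ Far y n F)
      ≤ C * ((n : ℝ) ^ 2 * ar n) ^ 2 := by
  obtain ⟨C1, hC1, h1⟩ := pair_bound
  obtain ⟨C2, hC2, h2⟩ := ar_sum
  refine ⟨288 * C1 * C2, by positivity, fun n hn S => ?_⟩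
  have hn1 : (1 : ℝ) ≤ n := by exact_mod_cast hn
  have han := ar_pos n
  have hinner : ∀ x ∈ bx n, ∑ y ∈ bx n, Pr P S (fun F => Far x n F ∧ Far y n F) ≤
      32 * C1 * C2 * ((n : ℝ) ^ 2 * ar n ^ 2) := by
    intro x hx
    calc ∑ y ∈ bx n, Pr P S (fun F => Far x n F ∧ Far y n F)
        ≤ ∑ y ∈ bx n, C1 * ar n * ar (nv (y - x)) := by
          apply Finset.sum_le_sum
          intro y hy
          have := h1 n hn x y (w_nv_le hx hy) S
          rw [w_nv_comm] at this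
          calc _ ≤ _ := this
            _ = _ := by ring
      _ = C1 * ar n * ∑ y ∈ bx n, ar (nv (y - x)) := by rw [Finset.mul_sum]
      _ ≤ C1 * ar n * (8 * ∑ k ∈ range (2 * n + 1), ((k : ℝ) + 1) * ar k) := by
          apply mul_le_mul_of_nonneg_left (sum_bx_shift n x hx ar (fun k => (ar_pos k).le))
          positivity
      _ ≤ C1 * ar n * (8 * (C2 * (((2 * n : ℕ) : ℝ) ^ 2 * ar (2 * n)))) := by
          apply mul_le_mul_of_nonneg_left _ (by positivity)
          apply mul_le_mul_of_nonneg_left (h2 (2 * n) (by omega)) (by norm_num)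
      _ ≤ C1 * ar n * (8 * (C2 * (((2 * n : ℕ) : ℝ) ^ 2 * ar n))) := by
          apply mul_le_mul_of_nonneg_left _ (by positivity)
          apply mul_le_mul_of_nonneg_left _ (by norm_num)
          apply mul_le_mul_of_nonneg_left _ hC2.le
          apply mul_le_mul_of_nonneg_left (ar_anti (by omega)) (by positivity)
      _ = 32 * C1 * C2 * ((n : ℝ) ^ 2 * ar n ^ 2) := by push_cast; ring
  calc ∑ x ∈ bx n, ∑ y ∈ bx n, Pr P S (fun F => Far x n F ∧ Far y n F)
      ≤ ∑ x ∈ bx n, 32 * C1 * C2 * ((n : ℝ) ^ 2 * ar n ^ 2) := Finset.sum_le_sum hinner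
    _ = (2 * (n : ℝ) + 1) ^ 2 * (32 * C1 * C2 * ((n : ℝ) ^ 2 * ar n ^ 2)) := by
        rw [Finset.sum_const, nsmul_eq_mul, w_card_bx]
    _ ≤ (9 * (n : ℝ) ^ 2) * (32 * C1 * C2 * ((n : ℝ) ^ 2 * ar n ^ 2)) := by
        apply mul_le_mul_of_nonneg_right _ (by positivity)
        nlinarith
    _ = _ := by ring

/-- Connection probabilities are translation invariant. -/
theorem w_two : ∃ C : ℝ, 0 < C ∧ ∀ (S : Finset Edg) (v u : Vtx),
    Pr P S (fun F => Reach (↑F) v u) ≤ C * ar (nv (u - v)) ^ 2 := by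
  obtain ⟨C, hC, h⟩ := two_upper
  refine ⟨C, hC, fun S v u => ?_⟩
  obtain ⟨a, b⟩ := v
  have hS : S = (trl a b).mp ((trl (-a) (-b)).mp S) := by
    have := trl_trl (-a) (-b) S
    rw [neg_neg, neg_neg] at this
    exact this.symm
  have h1 : Pr P S (fun F => Reach (↑F) (a, b) u) =
      Pr P ((trl (-a) (-b)).mp S) (fun F => Reach (↑F) (0, 0) (u - (a, b))) := by
    conv_lhs => rw [hS]
    unfold P
    rw [LSym.pr]
    apply Pr_congr
    intro F _
    rw [LSym.coe_mp]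
    have h2 := (trl a b).reach_iff (F := (↑F : Set Edg)) (u := (0, 0)) (v := u - (a, b))
    rw [← h2]
    have e1 : (trl a b).ψ (0, 0) = (a, b) := by simp
    have e2 : (trl a b).ψ (u - (a, b)) = u := by
      obtain ⟨u1, u2⟩ := u
      simp
    rw [e1, e2]
  rw [h1]
  exact h _ _

theorem w_reach_bx {n : ℕ} {F : Set Edg} {v u : Vtx} (hv : v ∈ bx n)
    (h : Reach (F ∩ ↑(boxE n)) v u) : u ∈ bx n := by
  induction h with
  | refl => exact hv
  | @tail w w' _ hs _ =>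
    obtain ⟨⟨x0, y0, bo⟩, ⟨_, he⟩, hcase⟩ := hs
    rw [w_mem_bx]
    unfold boxE at he
    rw [Finset.mem_coe] at he
    cases bo
    · rw [mem_RE_false] at he
      simp only [src_mk, tgt_false] at hcase
      rcases hcase with ⟨_, h4⟩ | ⟨h3, _⟩
      · rw [← h4]; simp only; omega
      · rw [← h3]; simp only; omega
    · rw [mem_RE_true] at he
      simp only [src_mk, tgt_true] at hcase
      rcases hcase with ⟨_, h4⟩ | ⟨h3, _⟩
      · rw [← h4]; simp only; omega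
      · rw [← h3]; simp only; omega

theorem w_big_sq {n : ℕ} {N : ℝ} (hN : 0 ≤ N) {F : Finset Edg} (h : Big N n F) :
    N ^ 2 ≤ ∑ w ∈ bx n, ∑ u ∈ bx n, ind (Reach (↑F) w u) := by
  classical
  obtain ⟨v, hv, T, hT, hr⟩ := h
  have hsub : T ⊆ bx n := fun u hu => w_reach_bx hv (hr u hu)
  have h1 : ∀ w ∈ T, ∀ u ∈ T, Reach (↑F) w u := by
    intro w hw u hu
    exact ((hr w hw).symm.trans (hr u hu)).mono Set.inter_subset_left
  calc N ^ 2 ≤ (T.card : ℝ) ^ 2 := by gcongr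
    _ = ∑ w ∈ T, ∑ u ∈ T, (1 : ℝ) := by
        simp only [Finset.sum_const, nsmul_eq_mul, mul_one]
        ring
    _ = ∑ w ∈ T, ∑ u ∈ T, ind (Reach (↑F) w u) := by
        apply Finset.sum_congr rfl
        intro w hw
        apply Finset.sum_congr rfl
        intro u hu
        rw [ind_of (h1 w hw u hu)]
    _ ≤ ∑ w ∈ T, ∑ u ∈ bx n, ind (Reach (↑F) w u) := by
        apply Finset.sum_le_sum
        intro w _
        exact Finset.sum_le_sum_of_subset_of_nonneg hsub (fun _ _ _ => ind_nonneg _)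
    _ ≤ _ := Finset.sum_le_sum_of_subset_of_nonneg hsub
        (fun _ _ _ => Finset.sum_nonneg fun _ _ => ind_nonneg _)

theorem max_upper : ∃ C : ℝ, 0 < C ∧ ∀ n : ℕ, 1 ≤ n → ∀ l : ℝ, 0 < l →
    Pr P (boxE n) (Big (l * ((n : ℝ) ^ 2 * ar n)) n) ≤ C / l ^ 2 := by
  obtain ⟨C1, hC1, h1⟩ := w_two
  obtain ⟨C2, hC2, h2⟩ := ar_sum_sq
  refine ⟨288 * C1 * C2, by positivity, fun n hn l hl => ?_⟩
  have hn1 : (1 : ℝ) ≤ n := by exact_mod_cast hn
  have han := ar_pos n
  set N : ℝ := l * ((n : ℝ) ^ 2 * ar n) with hN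
  have hN0 : 0 < N := by positivity
  have hinner : ∀ w ∈ bx n, ∑ u ∈ bx n, Pr P (boxE n) (fun F => Reach (↑F) w u) ≤
      32 * C1 * C2 * ((n : ℝ) ^ 2 * ar n ^ 2) := by
    intro w hw
    calc ∑ u ∈ bx n, Pr P (boxE n) (fun F => Reach (↑F) w u)
        ≤ ∑ u ∈ bx n, C1 * ar (nv (u - w)) ^ 2 := Finset.sum_le_sum fun u _ => h1 _ w u
      _ = C1 * ∑ u ∈ bx n, ar (nv (u - w)) ^ 2 := by rw [Finset.mul_sum]
      _ ≤ C1 * (8 * ∑ k ∈ range (2 * n + 1), ((k : ℝ) + 1) * ar k ^ 2) := by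
          apply mul_le_mul_of_nonneg_left
            (sum_bx_shift n w hw (fun k => ar k ^ 2) (fun k => sq_nonneg _)) hC1.le
      _ ≤ C1 * (8 * (C2 * (((2 * n : ℕ) : ℝ) ^ 2 * ar (2 * n) ^ 2))) := by
          apply mul_le_mul_of_nonneg_left _ hC1.le
          apply mul_le_mul_of_nonneg_left (h2 (2 * n) (by omega)) (by norm_num)
      _ ≤ C1 * (8 * (C2 * (((2 * n : ℕ) : ℝ) ^ 2 * ar n ^ 2))) := by
          apply mul_le_mul_of_nonneg_left _ hC1.le
          apply mul_le_mul_of_nonneg_left _ (by norm_num)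
          apply mul_le_mul_of_nonneg_left _ hC2.le
          apply mul_le_mul_of_nonneg_left _ (by positivity)
          exact pow_le_pow_left₀ (ar_pos _).le (ar_anti (by omega)) 2
      _ = 32 * C1 * C2 * ((n : ℝ) ^ 2 * ar n ^ 2) := by push_cast; ring
  have hmain : N ^ 2 * Pr P (boxE n) (Big N n) ≤
      ∑ w ∈ bx n, ∑ u ∈ bx n, Pr P (boxE n) (fun F => Reach (↑F) w u) := by
    have e1 : ∑ w ∈ bx n, ∑ u ∈ bx n, Pr P (boxE n) (fun F => Reach (↑F) w u) =
        Ex P (boxE n) (fun F => ∑ w ∈ bx n, ∑ u ∈ bx n, ind (Reach (↑F) w u)) := by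
      rw [Ex_sum]
      apply Finset.sum_congr rfl
      intro w _
      rw [Ex_sum]
      rfl
    rw [e1]
    unfold Pr
    rw [← Ex_mul_left]
    apply Ex_mono w_ok
    intro F _
    by_cases hB : Big N n F
    · rw [ind_of hB, mul_one]
      exact w_big_sq hN0.le hB
    · rw [ind_not_of hB, mul_zero]
      exact Finset.sum_nonneg fun _ _ => Finset.sum_nonneg fun _ _ => ind_nonneg _
  have htot : ∑ w ∈ bx n, ∑ u ∈ bx n, Pr P (boxE n) (fun F => Reach (↑F) w u) ≤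
      288 * C1 * C2 * ((n : ℝ) ^ 2 * ar n) ^ 2 := by
    calc ∑ w ∈ bx n, ∑ u ∈ bx n, Pr P (boxE n) (fun F => Reach (↑F) w u)
        ≤ ∑ w ∈ bx n, 32 * C1 * C2 * ((n : ℝ) ^ 2 * ar n ^ 2) := Finset.sum_le_sum hinner
      _ = (2 * (n : ℝ) + 1) ^ 2 * (32 * C1 * C2 * ((n : ℝ) ^ 2 * ar n ^ 2)) := by
          rw [Finset.sum_const, nsmul_eq_mul, w_card_bx]
      _ ≤ (9 * (n : ℝ) ^ 2) * (32 * C1 * C2 * ((n : ℝ) ^ 2 * ar n ^ 2)) := by
          apply mul_le_mul_of_nonneg_right _ (by positivity)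
          nlinarith
      _ = _ := by ring
  rw [le_div_iff₀ (by positivity)]
  have h3 : N ^ 2 * Pr P (boxE n) (Big N n) ≤ 288 * C1 * C2 * ((n : ℝ) ^ 2 * ar n) ^ 2 :=
    hmain.trans htot
  have h4 : N ^ 2 = l ^ 2 * ((n : ℝ) ^ 2 * ar n) ^ 2 := by rw [hN]; ring
  rw [h4] at h3
  have h5 : 0 < ((n : ℝ) ^ 2 * ar n) ^ 2 := by positivity
  have h6 : (Pr P (boxE n) (Big N n) * l ^ 2) * ((n : ℝ) ^ 2 * ar n) ^ 2 ≤
      (288 * C1 * C2) * ((n : ℝ) ^ 2 * ar n) ^ 2 := by linarith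
  exact le_of_mul_le_mul_right h6 h5

/-- On the circuit event all far-reaching vertices of the small box lie in one cluster. -/
theorem w_glue {r n : ℕ} (hr : 1 ≤ r) (hrn : 5 * r ≤ n) {F : Finset Edg}
    (hC : Circ r ((3 * r : ℕ) : ℤ) F) {T : Finset Vtx} (hT : ∀ x ∈ T, x ∈ bx r ∧ Far x (4 * r) F)
    {N : ℝ} (hN : N ≤ (T.card : ℝ)) (hN0 : 0 < N) : Big N n F := by
  obtain ⟨z, hz⟩ := circ_meet (by positivity) (by push_cast; omega) hC
  have key : ∀ x ∈ T, Reach ((↑F : Set Edg) ∩ ↑(boxE n)) x z := by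
    intro x hx
    obtain ⟨hxb, u, hu, hru⟩ := hT x hx
    rw [w_mem_bx] at hxb
    have hout : u.1 ≤ -((3 * r : ℕ) : ℤ) ∨ ((3 * r : ℕ) : ℤ) ≤ u.1 ∨
        u.2 ≤ -((3 * r : ℕ) : ℤ) ∨ ((3 * r : ℕ) : ℤ) ≤ u.2 := by
      unfold nv at hu
      simp only [Prod.fst_sub, Prod.snd_sub] at hu
      push_cast
      omega
    obtain ⟨w, k1, k2, k3⟩ := first_exit (a := -((3 * r : ℕ) : ℤ)) (b := ((3 * r : ℕ) : ℤ))
      (c := -((3 * r : ℕ) : ℤ)) (d := ((3 * r : ℕ) : ℤ)) (u := x) (v := u)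
      (by unfold inR; push_cast; omega) hru hout
    have h1 := hz x w (by unfold inR; omega) k2 k3
    refine h1.mono (Set.inter_subset_inter_right _ ?_)
    have : boxE (3 * r) ⊆ boxE n := boxE_mono (by omega)
    exact_mod_cast this
  have hTne : T.Nonempty := by
    rw [Finset.nonempty_iff_ne_empty]
    rintro rfl
    simp at hN
    linarith
  obtain ⟨x0, hx0⟩ := hTne
  refine ⟨x0, ?_, T, hN, fun u hu => (key x0 hx0).trans (key u hu).symm⟩
  have := (hT x0 hx0).1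
  rw [w_mem_bx] at this ⊢
  omega

theorem max_lower1 : ∃ c : ℝ, 0 < c ∧ ∃ n0 : ℕ, ∀ n : ℕ, n0 ≤ n →
    c ≤ Pr P (boxE n) (Big (c * ((n : ℝ) ^ 2 * ar n)) n) := by
  classical
  obtain ⟨C2, hC2, h2⟩ := second_moment
  obtain ⟨C4, hC4, h4⟩ := ar_ratio 4
  obtain ⟨kp, hkp⟩ : ∃ kp : ℝ, kp = (1 / 2 : ℝ) ^ 188 := ⟨_, rfl⟩
  have hkp0 : 0 < kp := by rw [hkp]; positivity
  set c1 : ℝ := kp * 4 / C4 with hc1
  have hc10 : 0 < c1 := by positivity
  set a : ℝ := c1 / 2 with ha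
  have ha0 : 0 < a := by positivity
  refine ⟨min (a / 81) (c1 ^ 2 / (4 * C2)), by positivity, 5, fun n hn => ?_⟩
  set r := n / 5 with hr
  have hr1 : 1 ≤ r := by omega
  have hrn : 5 * r ≤ n := by omega
  have hnr : n ≤ 9 * r := by omega
  have hr1' : (1 : ℝ) ≤ r := by exact_mod_cast hr1
  have harr := ar_pos r
  set A : ℝ := (r : ℝ) ^ 2 * ar r with hA
  have hA0 : 0 < A := by positivity
  set S := boxE n with hS
  set Y : Finset Edg → ℝ := fun F => ∑ x ∈ bx r, ind (Far x (4 * r) F) with hY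
  have hY0 : ∀ F, 0 ≤ Y F := fun F => Finset.sum_nonneg fun _ _ => ind_nonneg _
  set Cc : Finset Edg → Prop := Circ r ((3 * r : ℕ) : ℤ) with hCc
  -- first moment
  have hEY : 4 * (A / C4) ≤ Ex P S Y := by
    rw [hY, Ex_sum]
    have h5 : ∀ x ∈ bx r, ar (4 * r) ≤ Ex P S (fun F => ind (Far x (4 * r) F)) := by
      intro x hx
      exact far_ge (n := r) (r := 4 * r) (boxE_mono (by omega)) hx
    have h6 : ar r / C4 ≤ ar (4 * r) := by
      rw [div_le_iff₀ hC4, mul_comm]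
      exact h4 r (4 * r) (by omega) (by omega)
    calc 4 * (A / C4) = (4 * (r : ℝ) ^ 2) * (ar r / C4) := by rw [hA]; ring
      _ ≤ (2 * (r : ℝ) + 1) ^ 2 * (ar r / C4) := by
          apply mul_le_mul_of_nonneg_right _ (by positivity)
          nlinarith
      _ ≤ (2 * (r : ℝ) + 1) ^ 2 * ar (4 * r) := by
          apply mul_le_mul_of_nonneg_left h6 (by positivity)
      _ = ∑ x ∈ bx r, ar (4 * r) := by rw [Finset.sum_const, nsmul_eq_mul, w_card_bx]
      _ ≤ _ := Finset.sum_le_sum h5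
  -- circuit
  have hcirc : kp ≤ Pr P S Cc := by
    have hr' : (0 : ℤ) < r := by exact_mod_cast hr1
    rw [hkp]
    refine le_trans ?_ (pr_Circ (q := 1 / 2) (by norm_num) (by norm_num) (R1 := r)
      (R2 := ((3 * r : ℕ) : ℤ)) (by positivity) (by push_cast; omega) (S := S)
      (boxE_mono (by omega : 3 * r ≤ n)))
    have k := rsw_p (p := 1 / 2) le_rfl (by norm_num) (n := r) (w := 2 * ((3 * r : ℕ) : ℤ))
      (h := ((3 * r : ℕ) : ℤ) - r) hr' (by push_cast; omega) (by push_cast; omega)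
      (by push_cast; omega)
    calc (1 / 2 : ℝ) ^ 188 = ((1 / 2 : ℝ) ^ 47) ^ 4 := by rw [← pow_mul]
      _ ≤ _ := pow_le_pow_left₀ (by positivity) k 4
  -- FKG
  have hYincr : Incr S Y := by
    intro F G hFG _
    exact Finset.sum_le_sum fun x _ => ind_mono (Far.mono_F hFG)
  have hCincr : Incr S (fun F => ind (Cc F)) := by
    intro F G hFG _
    exact ind_mono (fun h => Circ.mono hFG h)
  have hfkg := harris w_ok hYincr hCincr
  have hEYC : c1 * A ≤ Ex P S (fun F => Y F * ind (Cc F)) := by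
    refine le_trans ?_ hfkg
    have h7 : Ex P S (fun F => ind (Cc F)) = Pr P S Cc := rfl
    rw [h7]
    calc c1 * A = 4 * (A / C4) * kp := by rw [hc1]; ring
      _ ≤ Ex P S Y * Pr P S Cc := mul_le_mul hEY hcirc (by positivity)
          (le_trans (by positivity) hEY)
  -- second moment
  have hEY2 : Ex P S (fun F => Y F ^ 2) ≤ C2 * A ^ 2 := by
    have h8 : ∀ F, Y F ^ 2 = ∑ x ∈ bx r, ∑ y ∈ bx r, ind (Far x (4 * r) F ∧ Far y (4 * r) F) := by
      intro F
      rw [hY, sq, Finset.sum_mul_sum]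
      apply Finset.sum_congr rfl
      intro x _
      apply Finset.sum_congr rfl
      intro y _
      rw [ind_and]
    have h9 : Ex P S (fun F => Y F ^ 2) = ∑ x ∈ bx r, ∑ y ∈ bx r,
        Pr P S (fun F => Far x (4 * r) F ∧ Far y (4 * r) F) := by
      rw [Ex_congr (g := fun F => ∑ x ∈ bx r, ∑ y ∈ bx r,
        ind (Far x (4 * r) F ∧ Far y (4 * r) F)) (fun F _ => h8 F), Ex_sum]
      apply Finset.sum_congr rfl
      intro x _
      rw [Ex_sum]
      rfl
    rw [h9]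
    refine le_trans ?_ (h2 r hr1 S)
    apply Finset.sum_le_sum
    intro x _
    apply Finset.sum_le_sum
    intro y _
    apply Pr_mono w_ok
    rintro F _ ⟨k1, k2⟩
    exact ⟨k1.mono_r (by omega), k2.mono_r (by omega)⟩
  -- the good event
  set Gd : Finset Edg → Prop := fun F => a * A ≤ Y F ∧ Cc F with hGd
  set s : ℝ := 2 * C2 * A / c1 with hs
  have hs0 : 0 < s := by positivity
  have hpt : ∀ F, Y F * ind (Cc F) ≤ a * A + (1 / (2 * s) * Y F ^ 2 + s / 2 * ind (Gd F)) := by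
    intro F
    by_cases hc : Cc F
    · rw [ind_of hc, mul_one]
      by_cases hy : a * A ≤ Y F
      · rw [ind_of (show Gd F from ⟨hy, hc⟩), mul_one]
        have h10 : Y F ≤ 1 / (2 * s) * Y F ^ 2 + s / 2 := by
          rw [← sub_nonneg]
          have : 1 / (2 * s) * Y F ^ 2 + s / 2 - Y F = 1 / (2 * s) * (Y F - s) ^ 2 := by
            field_simp
            ring
          rw [this]
          positivity
        have : 0 < a * A := by positivity
        linarith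
      · push Not at hy
        have h11 := ind_nonneg (Gd F)
        have : 0 ≤ 1 / (2 * s) * Y F ^ 2 + s / 2 * ind (Gd F) := by positivity
        linarith
    · rw [ind_not_of hc, mul_zero]
      have h11 := ind_nonneg (Gd F)
      positivity
  have hint : Ex P S (fun F => Y F * ind (Cc F)) ≤
      a * A + (1 / (2 * s) * Ex P S (fun F => Y F ^ 2) + s / 2 * Pr P S Gd) := by
    refine (Ex_mono w_ok (fun F _ => hpt F)).trans (le_of_eq ?_)
    rw [Ex_add, Ex_const, Ex_add, Ex_mul_left, Ex_mul_left]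
    rfl
  have hprG : c1 ^ 2 / (4 * C2) ≤ Pr P S Gd := by
    have h12 : c1 * A ≤ a * A + (1 / (2 * s) * (C2 * A ^ 2) + s / 2 * Pr P S Gd) := by
      refine hEYC.trans (hint.trans ?_)
      have : 1 / (2 * s) * Ex P S (fun F => Y F ^ 2) ≤ 1 / (2 * s) * (C2 * A ^ 2) :=
        mul_le_mul_of_nonneg_left hEY2 (by positivity)
      linarith
    have h13 : 1 / (2 * s) * (C2 * A ^ 2) = c1 * A / 4 := by
      rw [hs]; field_simp; ring
    rw [h13, ha] at h12
    have h14 : c1 * A / 4 ≤ s / 2 * Pr P S Gd := by linarith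
    have h15 : s / 2 = C2 * A / c1 := by rw [hs]; ring
    rw [h15] at h14
    have h16 : c1 / 4 ≤ C2 / c1 * Pr P S Gd := by
      have h17 : (c1 / 4) * A ≤ (C2 / c1 * Pr P S Gd) * A := by
        calc (c1 / 4) * A = c1 * A / 4 := by ring
          _ ≤ _ := h14
          _ = _ := by ring
      exact le_of_mul_le_mul_right h17 hA0
    rw [div_le_iff₀ (by positivity)]
    have h18 : c1 / 4 * c1 ≤ C2 / c1 * Pr P S Gd * c1 := mul_le_mul_of_nonneg_right h16 hc10.le
    have h19 : C2 / c1 * Pr P S Gd * c1 = C2 * Pr P S Gd := by field_simp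
    rw [h19] at h18
    nlinarith
  refine (min_le_right _ _).trans (hprG.trans ?_)
  apply Pr_mono w_ok
  rintro F _ ⟨hy, hc⟩
  have hN1 : min (a / 81) (c1 ^ 2 / (4 * C2)) * ((n : ℝ) ^ 2 * ar n) ≤ a * A := by
    have hn9 : (n : ℝ) ≤ 9 * r := by exact_mod_cast hnr
    have hn0 : (0 : ℝ) ≤ n := Nat.cast_nonneg n
    calc min (a / 81) (c1 ^ 2 / (4 * C2)) * ((n : ℝ) ^ 2 * ar n)
        ≤ a / 81 * ((n : ℝ) ^ 2 * ar n) := by
          apply mul_le_mul_of_nonneg_right (min_le_left _ _)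
          have := (ar_pos n).le
          positivity
      _ ≤ a / 81 * ((9 * (r : ℝ)) ^ 2 * ar r) := by
          apply mul_le_mul_of_nonneg_left _ (by positivity)
          exact mul_le_mul (pow_le_pow_left₀ hn0 hn9 2) (ar_anti (by omega)) (ar_pos _).le
            (by positivity)
      _ = a * A := by rw [hA]; ring
  refine w_glue (r := r) (T := (bx r).filter (fun x => Far x (4 * r) F)) hr1 hrn hc ?_ ?_ ?_
  · intro x hx
    rw [Finset.mem_filter] at hx
    exact hx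
  · rw [← w_sum_ind]
    exact hN1.trans hy
  · have := ar_pos n
    have hn0 : (0 : ℝ) < n := by
      have : 0 < n := by omega
      exact_mod_cast this
    positivity

end Pool.Agent.H160R2.CV
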