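import Pool.Agent.H160R2.CV.Defs

/-!
# The largest cluster of a box: lower bound with probability close to one
-/

set_option autoImplicit false

namespace Pool.Agent.H160R2.CV
open Finset H974

private theorem okP : Ok P := fun _ => by unfold P; norm_num

private theorem ar_anti' {n m : ℕ} (h : n ≤ m) : ar m ≤ ar n :=
  arm_anti (by norm_num) (by norm_num) h

private theorem ar_nonneg' (n : ℕ) : 0 ≤ ar n := arm_nonneg (by norm_num) (by norm_num) n

/-- centre of the `j`-th box -/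
private def ctr (n m j : ℕ) : ℤ := -(n : ℤ) + (2 * (m : ℤ) + 1) * j + m

/-- edges of the `j`-th box -/
private noncomputable def SB (n m j : ℕ) : Finset Edg :=
  RE (ctr n m j - m) (ctr n m j + m) (-(m : ℤ)) m

private theorem SB_eq (n m j : ℕ) : SB n m j = (trl (ctr n m j) 0).mp (boxE m) := by
  unfold boxE SB
  rw [trl_RE]
  congr 1 <;> ring

/-- the event in the `j`-th box -/
private def BB (N : ℝ) (n m j : ℕ) (F : Finset Edg) : Prop :=
  Big N m ((trl (-ctr n m j) (-0)).mp F)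

private theorem Big_local {N : ℝ} {m : ℕ} {F : Finset Edg} : Big N m F ↔ Big N m (F ∩ boxE m) := by
  unfold Big
  rw [coe_inter_eq (Finset.Subset.refl _)]

private theorem BB_local {N : ℝ} {n m j : ℕ} {F : Finset Edg} :
    BB N n m j F ↔ BB N n m j (F ∩ SB n m j) := by
  unfold BB
  rw [LSym.mp_inter, SB_eq, trl_trl]
  exact Big_local

private theorem SB_subset {n m K j : ℕ} (hK : (2 * m + 1) * K ≤ 2 * n + 1) (hj : j < K) :
    SB n m j ⊆ boxE n := by
  have h1 : (2 * m + 1) * (j + 1) ≤ 2 * n + 1 := (Nat.mul_le_mul_left _ hj).trans hK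
  have h2 : (2 * (m : ℤ) + 1) * (j + 1) ≤ 2 * n + 1 := by exact_mod_cast h1
  have h3 : 0 ≤ (2 * (m : ℤ) + 1) * j := by positivity
  have h4 : (2 * m + 1) ≤ 2 * n + 1 := by nlinarith
  have h5 : (m : ℤ) ≤ n := by omega
  unfold SB boxE ctr
  have e : (2 * (m : ℤ) + 1) * (j + 1) = (2 * (m : ℤ) + 1) * j + (2 * m + 1) := by ring
  rw [e] at h2
  generalize (2 * (m : ℤ) + 1) * j = t at h2 h3 ⊢
  apply RE_subset <;> omega

private theorem SB_disjoint {n m i j : ℕ} (hij : i < j) : Disjoint (SB n m i) (SB n m j) := by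
  rw [Finset.disjoint_left]
  have h1 : (2 * m + 1) * (i + 1) ≤ (2 * m + 1) * j := Nat.mul_le_mul_left _ hij
  have h2 : (2 * (m : ℤ) + 1) * i + (2 * m + 1) ≤ (2 * (m : ℤ) + 1) * j := by
    have : (2 * (m : ℤ) + 1) * (i + 1) ≤ (2 * (m : ℤ) + 1) * j := by exact_mod_cast h1
    linarith
  unfold SB ctr
  generalize (2 * (m : ℤ) + 1) * i = s at h2 ⊢
  generalize (2 * (m : ℤ) + 1) * j = t at h2 ⊢
  rintro ⟨x, y, _ | _⟩ h8 h9
  · simp only [mem_RE_false] at h8 h9; omega
  · simp only [mem_RE_true] at h8 h9; omega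

private theorem BB_big {N : ℝ} {n m K j : ℕ} (hK : (2 * m + 1) * K ≤ 2 * n + 1) (hj : j < K)
    {F : Finset Edg} (h : BB N n m j F) : Big N n F := by
  have hsub := SB_subset hK hj
  have h1 : (2 * m + 1) * (j + 1) ≤ 2 * n + 1 := (Nat.mul_le_mul_left _ hj).trans hK
  have h2 : (2 * (m : ℤ) + 1) * j + (2 * m + 1) ≤ 2 * n + 1 := by
    have : (2 * (m : ℤ) + 1) * (j + 1) ≤ 2 * n + 1 := by exact_mod_cast h1
    linarith
  have h3 : 0 ≤ (2 * (m : ℤ) + 1) * j := by positivity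
  obtain ⟨v, hv, T, hT, hr⟩ := h
  have key : ∀ u w : Vtx, Reach (↑((trl (-ctr n m j) (-0)).mp F) ∩ ↑(boxE m)) u w →
      Reach (↑F ∩ ↑(boxE n)) ((trl (ctr n m j) 0).ψ u) ((trl (ctr n m j) 0).ψ w) := by
    intro u w huw
    have h4 := (trl (ctr n m j) 0).reach huw
    refine h4.mono ?_
    rw [LSym.image_inter, ← SB_eq]
    rintro e ⟨he1, he2⟩
    refine ⟨?_, by exact_mod_cast hsub (by exact_mod_cast he2)⟩
    have : (trl (ctr n m j) 0).mp ((trl (-ctr n m j) (-0)).mp F) = F := by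
      have := trl_trl (-ctr n m j) (-0) F
      simpa using this
    rw [this] at he1
    exact he1
  refine ⟨(trl (ctr n m j) 0).ψ v, ?_, T.map (trl (ctr n m j) 0).ψ.toEmbedding, ?_, ?_⟩
  · obtain ⟨a, b⟩ := v
    unfold bx at hv ⊢
    rw [trl_ψ]
    simp only [Finset.mem_product, Finset.mem_Icc] at hv ⊢
    unfold ctr
    generalize (2 * (m : ℤ) + 1) * j = t at h2 h3 ⊢
    omega
  · rwa [Finset.card_map]
  · intro u hu
    rw [Finset.mem_map] at hu
    obtain ⟨w, hw, rfl⟩ := hu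
    exact key _ _ (hr w hw)

private theorem pr_BB {N : ℝ} {n m K j : ℕ} (hK : (2 * m + 1) * K ≤ 2 * n + 1) (hj : j < K) :
    Pr P (boxE n) (BB N n m j) = Pr P (boxE m) (Big N m) := by
  have h1 : Pr P (boxE n) (BB N n m j) = Pr P (SB n m j) (BB N n m j) :=
    Pr_local (SB_subset hK hj) (fun F _ => BB_local (F := F))
  rw [h1, SB_eq]
  unfold P
  rw [LSym.pr]
  apply Pr_congr
  intro F _
  unfold BB
  rw [trl_trl]

private theorem pr_none {N : ℝ} {n m K : ℕ} (hK : (2 * m + 1) * K ≤ 2 * n + 1) {k : ℕ}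
    (hk : k ≤ K) :
    Pr P (boxE n) (fun F => ∀ j < k, ¬ BB N n m j F) = (1 - Pr P (boxE m) (Big N m)) ^ k := by
  induction k with
  | zero =>
    rw [pow_zero]
    exact Pr_true _ (fun F _ j hj => absurd hj (Nat.not_lt_zero _))
  | succ k ih =>
    have e : Pr P (boxE n) (fun F => ∀ j < k + 1, ¬ BB N n m j F)
        = Pr P (boxE n) (fun F => (∀ j < k, ¬ BB N n m j F) ∧ ¬ BB N n m k F) := by
      apply Pr_congr
      intro F _
      constructor
      · intro h
        exact ⟨fun j hj => h j (by omega), h k (by omega)⟩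
      · rintro ⟨h1, h2⟩ j hj
        rcases Nat.lt_succ_iff_lt_or_eq.mp hj with h | h
        · exact h1 j h
        · rw [h]; exact h2
    rw [e, Pr_indep (S := (Finset.range k).biUnion (SB n m)) (T := SB n m k), ih (by omega),
      Pr_not, pr_BB hK (by omega), pow_succ]
    · intro e he
      rw [Finset.mem_biUnion] at he
      obtain ⟨j, hj, he⟩ := he
      exact SB_subset hK (by have := Finset.mem_range.mp hj; omega) he
    · exact SB_subset hK (by omega)
    · rw [Finset.disjoint_biUnion_left]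
      intro j hj
      exact SB_disjoint (Finset.mem_range.mp hj)
    · intro F _
      have : ∀ j < k, (BB N n m j F ↔ BB N n m j (F ∩ (Finset.range k).biUnion (SB n m))) := by
        intro j hj
        rw [BB_local, BB_local (F := F ∩ (Finset.range k).biUnion (SB n m))]
        have : F ∩ (Finset.range k).biUnion (SB n m) ∩ SB n m j = F ∩ SB n m j := by
          rw [Finset.inter_assoc]
          congr 1
          rw [Finset.inter_eq_right]
          exact Finset.subset_biUnion_of_mem (SB n m) (Finset.mem_range.mpr hj)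
        rw [this]
      constructor
      · intro h j hj h2
        exact h j hj ((this j hj).mpr h2)
      · intro h j hj h2
        exact h j hj ((this j hj).mp h2)
    · intro F _
      exact not_congr BB_local

theorem max_lower_of (h1 : ∃ c : ℝ, 0 < c ∧ ∃ n0 : ℕ, ∀ n : ℕ, n0 ≤ n →
    c ≤ Pr P (boxE n) (Big (c * ((n : ℝ) ^ 2 * ar n)) n)) (δ : ℝ) (hδ : 0 < δ) :
    ∃ c : ℝ, 0 < c ∧ ∃ n0 : ℕ, ∀ n : ℕ, n0 ≤ n →
    1 - δ ≤ Pr P (boxE n) (Big (c * ((n : ℝ) ^ 2 * ar n)) n) := by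
  obtain ⟨c, hc, n1, hn1⟩ := h1
  have hc1 : c ≤ 1 := (hn1 n1 le_rfl).trans (Pr_le_one okP _ _)
  obtain ⟨K0, hK0⟩ := exists_pow_lt_of_lt_one hδ (show 1 - c < 1 by linarith)
  set K := K0 + 1 with hKdef
  have hKpos : 0 < K := by omega
  have hKpow : (1 - c) ^ K ≤ δ := by
    rw [hKdef, pow_succ]
    have : 0 ≤ (1 - c) ^ K0 := pow_nonneg (by linarith) _
    nlinarith
  refine ⟨c / (4 * K) ^ 2, by positivity, (2 * K) * (n1 + 1) + 4 * K, ?_⟩
  intro n hn
  set m := n / (2 * K) with hm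
  have hmn1 : n1 ≤ m := by
    rw [hm, Nat.le_div_iff_mul_le (by omega)]
    nlinarith
  have hm2 : m * (2 * K) ≤ n := Nat.div_mul_le_self _ _
  have hKn : K ≤ n := by nlinarith
  have hKK : (2 * m + 1) * K ≤ 2 * n + 1 := by nlinarith
  have hmn : m ≤ n := Nat.div_le_self _ _
  have hm3 : n < (m + 1) * (2 * K) := by
    rw [hm]
    exact Nat.lt_mul_of_div_lt (Nat.lt_succ_self _) (by omega)
  have hm4 : n ≤ m * (4 * K) := by
    have : 1 ≤ m := by
      rw [hm, Nat.le_div_iff_mul_le (by omega)]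
      nlinarith
    nlinarith
  have hKr : (0 : ℝ) < K := by exact_mod_cast hKpos
  have hm5 : (n : ℝ) ≤ m * (4 * K) := by exact_mod_cast hm4
  -- the size
  have hsize : c / (4 * K) ^ 2 * ((n : ℝ) ^ 2 * ar n) ≤ c * ((m : ℝ) ^ 2 * ar m) := by
    have i1 : (n : ℝ) ^ 2 ≤ (m * (4 * K)) ^ 2 := pow_le_pow_left₀ (by positivity) hm5 2
    have i2 : (n : ℝ) ^ 2 * ar n ≤ (m * (4 * K)) ^ 2 * ar m :=
      mul_le_mul i1 (ar_anti' hmn) (ar_nonneg' n) (by positivity)
    calc c / (4 * K) ^ 2 * ((n : ℝ) ^ 2 * ar n)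
        ≤ c / (4 * K) ^ 2 * ((m * (4 * K)) ^ 2 * ar m) :=
          mul_le_mul_of_nonneg_left i2 (by positivity)
      _ = c * ((m : ℝ) ^ 2 * ar m) := by field_simp
  set N := c * ((m : ℝ) ^ 2 * ar m) with hN
  have hp := hn1 m hmn1
  have hnone := pr_none (N := N) hKK (le_refl K)
  have i3 : Pr P (boxE n) (fun F => ¬ Big (c / (4 * K) ^ 2 * ((n : ℝ) ^ 2 * ar n)) n F)
      ≤ Pr P (boxE n) (fun F => ∀ j < K, ¬ BB N n m j F) := by
    apply Pr_mono okP
    intro F _ hF j hj hB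
    apply hF
    obtain ⟨v, hv, T, hT, hr⟩ := BB_big hKK hj hB
    exact ⟨v, hv, T, hsize.trans hT, hr⟩
  rw [Pr_not, hnone] at i3
  have i4 : (1 - Pr P (boxE m) (Big N m)) ^ K ≤ (1 - c) ^ K := by
    apply pow_le_pow_left₀
    · linarith [Pr_le_one okP (boxE m) (Big N m)]
    · linarith
  linarith

end Pool.Agent.H160R2.CV
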