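import Pool.Agent.H160R2.CV.Ratio
import Pool.Agent.H160R2.CV.Max
import Pool.Agent.H160R2.CV.Max2
import Pool.Agent.H160R2.CV.Inf
import Pool.Agent.H160R2.CV.InfMax

/-!
# Task X: from the one-arm exponent to the volume exponents (real analysis)
-/

set_option autoImplicit false

namespace Pool.Agent.H160R2.CV
open Finset H974 Filter MeasureTheory

/-- the one-arm exponent -/
def OneArmExp : Prop := ∀ ε : ℝ, 0 < ε → ∃ n0 : ℕ, ∀ n : ℕ, n0 ≤ n →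
    (n : ℝ) ^ (-(5 / 48 : ℝ) - ε) ≤ ar n ∧ ar n ≤ (n : ℝ) ^ (-(5 / 48 : ℝ) + ε)

/-- constants are absorbed by small powers -/
theorem X_absorb (C δ : ℝ) (hδ : 0 < δ) : ∃ n0 : ℕ, 1 ≤ n0 ∧ ∀ n : ℕ, n0 ≤ n →
    C ≤ (n : ℝ) ^ δ := by
  have h1 : Tendsto (fun n : ℕ => (n : ℝ) ^ δ) atTop atTop :=
    (tendsto_rpow_atTop hδ).comp tendsto_natCast_atTop_atTop
  obtain ⟨n0, h0⟩ := eventually_atTop.mp (h1.eventually_ge_atTop C)
  exact ⟨max n0 1, le_max_right _ _, fun n hn => h0 n (le_trans (le_max_left _ _) hn)⟩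

theorem X_absorb_neg (c δ : ℝ) (hc : 0 < c) (hδ : 0 < δ) : ∃ n0 : ℕ, 1 ≤ n0 ∧ ∀ n : ℕ, n0 ≤ n →
    (n : ℝ) ^ (-δ) ≤ c := by
  obtain ⟨n0, h1, h2⟩ := X_absorb (1 / c) δ hδ
  refine ⟨n0, h1, fun n hn => ?_⟩
  have hn0 : (0 : ℝ) < n := by
    have : 0 < n := lt_of_lt_of_le h1 hn
    exact_mod_cast this
  rw [Real.rpow_neg hn0.le]
  have h3 := h2 n hn
  rw [inv_le_comm₀ (Real.rpow_pos_of_pos hn0 δ) hc]
  rw [one_div] at h3
  exact h3

/-- bounds for the square of the one-arm probability -/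
theorem X_sq (h : OneArmExp) (c C : ℝ) (hc : 0 < c) (ε : ℝ) (hε : 0 < ε) :
    ∃ R : ℕ, ∀ k : ℕ, R ≤ k → (k : ℝ) ^ (-(5 / 24 : ℝ) - ε) ≤ c * ar k ^ 2 ∧
      C * ar k ^ 2 ≤ (k : ℝ) ^ (-(5 / 24 : ℝ) + ε) := by
  obtain ⟨n1, h1⟩ := h (ε / 4) (by positivity)
  obtain ⟨n2, h20, h2⟩ := X_absorb C (ε / 2) (by positivity)
  obtain ⟨n3, h30, h3⟩ := X_absorb_neg c (ε / 2) hc (by positivity)
  refine ⟨max n1 (max n2 n3), fun k hk => ?_⟩
  have hk1 : n1 ≤ k := le_trans (le_max_left _ _) hk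
  have hk2 : n2 ≤ k := le_trans (le_trans (le_max_left _ _) (le_max_right _ _)) hk
  have hk3 : n3 ≤ k := le_trans (le_trans (le_max_right _ _) (le_max_right _ _)) hk
  have hkpos : (0 : ℝ) < k := by
    have : 0 < k := lt_of_lt_of_le h20 hk2
    exact_mod_cast this
  obtain ⟨hl, hu⟩ := h1 k hk1
  have hp := ar_pos k
  constructor
  · have e1 : (k : ℝ) ^ (-(5 / 24 : ℝ) - ε) = (k : ℝ) ^ (-(ε / 2)) *
        ((k : ℝ) ^ (-(5 / 48 : ℝ) - ε / 4)) ^ 2 := by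
      rw [← Real.rpow_natCast ((k : ℝ) ^ (-(5 / 48 : ℝ) - ε / 4)) 2, ← Real.rpow_mul hkpos.le,
        ← Real.rpow_add hkpos]
      congr 1
      push_cast
      ring
    rw [e1]
    exact mul_le_mul (h3 k hk3) (pow_le_pow_left₀ (Real.rpow_nonneg hkpos.le _) hl 2)
      (by positivity) hc.le
  · have e1 : (k : ℝ) ^ (-(5 / 24 : ℝ) + ε) = (k : ℝ) ^ (ε / 2) *
        ((k : ℝ) ^ (-(5 / 48 : ℝ) + ε / 4)) ^ 2 := by
      rw [← Real.rpow_natCast ((k : ℝ) ^ (-(5 / 48 : ℝ) + ε / 4)) 2, ← Real.rpow_mul hkpos.le,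
        ← Real.rpow_add hkpos]
      congr 1
      push_cast
      ring
    rw [e1]
    exact mul_le_mul (h2 k hk2) (pow_le_pow_left₀ hp.le hu 2)
      (by positivity) (by positivity)

theorem exp_two (h : OneArmExp) (ε : ℝ) (hε : 0 < ε) : ∃ R : ℕ, ∀ x : ℤ × ℤ, R ≤ nv x →
    (nv x : ℝ) ^ (-(5 / 24 : ℝ) - ε) ≤
      (bondLaw hlf).real {ω | (openGraph ω).Reachable (0, 0) x} ∧
    (bondLaw hlf).real {ω | (openGraph ω).Reachable (0, 0) x} ≤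
      (nv x : ℝ) ^ (-(5 / 24 : ℝ) + ε) := by
  obtain ⟨c, C, hc, hC, hh⟩ := inf_two
  obtain ⟨R, hR⟩ := X_sq h c C hc ε hε
  refine ⟨R, fun x hx => ?_⟩
  obtain ⟨h1, h2⟩ := hR (nv x) hx
  obtain ⟨h3, h4⟩ := hh x
  exact ⟨h1.trans h3, h4.trans h2⟩

/-- the ceiling of a power -/
theorem X_ceil (N : ℕ) (κ : ℝ) (hN : 1 ≤ N) (hκ : 0 ≤ κ) :
    (N : ℝ) ^ κ ≤ (⌈(N : ℝ) ^ κ⌉₊ : ℝ) ∧ (⌈(N : ℝ) ^ κ⌉₊ : ℝ) ≤ 2 * (N : ℝ) ^ κ := by
  have hN' : (1 : ℝ) ≤ N := by exact_mod_cast hN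
  have h1 : (1 : ℝ) ≤ (N : ℝ) ^ κ := Real.one_le_rpow hN' hκ
  refine ⟨Nat.le_ceil _, ?_⟩
  have := Nat.ceil_lt_add_one (a := (N : ℝ) ^ κ) (by linarith)
  linarith

theorem exp_vol (h : OneArmExp) (ε : ℝ) (hε : 0 < ε) : ∃ N0 : ℕ, ∀ N : ℕ, N0 ≤ N →
    (N : ℝ) ^ (-(5 / 91 : ℝ) - ε) ≤ (bondLaw hlf).real {ω | (N : ℕ∞) ≤ (cluster0 ω).encard} ∧
    (bondLaw hlf).real {ω | (N : ℕ∞) ≤ (cluster0 ω).encard} ≤ (N : ℝ) ^ (-(5 / 91 : ℝ) + ε) := by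
  obtain ⟨C, hC, hup⟩ := inf_vol_upper
  obtain ⟨c, hc, hlo⟩ := inf_vol_lower
  -- parameters
  obtain ⟨e, he0, he1, he2⟩ : ∃ e : ℝ, 0 < e ∧ e ≤ ε / 4 ∧ e ≤ 1 / 48 :=
    ⟨min (ε / 4) (1 / 48), by positivity, min_le_left _ _, min_le_right _ _⟩
  obtain ⟨δ, hδ0, hδ1, hδ2⟩ : ∃ δ : ℝ, 0 < δ ∧ δ ≤ ε / 2 ∧ δ ≤ 1 / 4 :=
    ⟨min (ε / 2) (1 / 4), by positivity, min_le_left _ _, min_le_right _ _⟩
  obtain ⟨n1, hn1⟩ := h e he0
  obtain ⟨n2, hn2⟩ := h δ hδ0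
  obtain ⟨m1, hm10, hm1⟩ := X_absorb ((max n1 n2 : ℕ) + 12) (48 / 91) (by norm_num)
  obtain ⟨m2, hm20, hm2⟩ := X_absorb (1 + 4 * C) (ε / 2) (by positivity)
  obtain ⟨m3, hm30, hm3⟩ := X_absorb (1 / c) δ hδ0
  obtain ⟨m4, hm40, hm4⟩ := X_absorb_neg (c / 2) δ (by positivity) hδ0
  refine ⟨max (max m1 m2) (max m3 m4), fun N hN => ?_⟩
  have hN1 : m1 ≤ N := le_trans (le_trans (le_max_left _ _) (le_max_left _ _)) hN
  have hN2 : m2 ≤ N := le_trans (le_trans (le_max_right _ _) (le_max_left _ _)) hN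
  have hN3 : m3 ≤ N := le_trans (le_trans (le_max_left _ _) (le_max_right _ _)) hN
  have hN4 : m4 ≤ N := le_trans (le_trans (le_max_right _ _) (le_max_right _ _)) hN
  have hNone : 1 ≤ N := le_trans hm10 hN1
  have hN' : (1 : ℝ) ≤ N := by exact_mod_cast hNone
  have hNpos : (0 : ℝ) < N := by linarith
  constructor
  · -- lower bound
    obtain ⟨hc1, hc2⟩ := X_ceil N (48 / 91 + δ) hNone (by positivity)
    set n : ℕ := ⌈(N : ℝ) ^ (48 / 91 + δ)⌉₊ with hn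
    have hbig : ((max n1 n2 : ℕ) + 12 : ℝ) ≤ n := by
      refine le_trans (hm1 N hN1) (le_trans ?_ hc1)
      exact Real.rpow_le_rpow_of_exponent_le hN' (by linarith)
    have hbig' : max n1 n2 + 12 ≤ n := by exact_mod_cast hbig
    have hn12 : 12 ≤ n := by omega
    have hnn2 : n2 ≤ n := by omega
    have hnpos : (0 : ℝ) < n := by
      have : 0 < n := by omega
      exact_mod_cast this
    obtain ⟨ha1, ha2⟩ := hn2 n hnn2
    have hA : (N : ℝ) * (1 / c) ≤ (n : ℝ) ^ 2 * ar n := by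
      have e1 : (n : ℝ) ^ 2 * ar n ≥ (n : ℝ) ^ (91 / 48 - δ) := by
        have : (n : ℝ) ^ (91 / 48 - δ) = (n : ℝ) ^ 2 * (n : ℝ) ^ (-(5 / 48 : ℝ) - δ) := by
          rw [← Real.rpow_natCast (n : ℝ) 2, ← Real.rpow_add hnpos]
          congr 1
          push_cast
          ring
        rw [this]
        exact mul_le_mul_of_nonneg_left ha1 (by positivity)
      have e2 : (N : ℝ) ^ ((48 / 91 + δ) * (91 / 48 - δ)) ≤ (n : ℝ) ^ (91 / 48 - δ) := by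
        rw [Real.rpow_mul hNpos.le]
        exact Real.rpow_le_rpow (by positivity) hc1 (by linarith)
      have e3 : (N : ℝ) ^ (1 + δ) ≤ (N : ℝ) ^ ((48 / 91 + δ) * (91 / 48 - δ)) := by
        apply Real.rpow_le_rpow_of_exponent_le hN'
        nlinarith
      have e4 : (N : ℝ) * (1 / c) ≤ (N : ℝ) ^ (1 + δ) := by
        rw [Real.rpow_add hNpos, Real.rpow_one]
        exact mul_le_mul_of_nonneg_left (hm3 N hN3) hNpos.le
      linarith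
    have hB : (N : ℝ) ≤ c * ((n : ℝ) ^ 2 * ar n) := by
      have := mul_le_mul_of_nonneg_left hA hc.le
      rwa [show c * ((N : ℝ) * (1 / c)) = N by field_simp] at this
    refine le_trans ?_ (hlo n hn12 N hB)
    have e1 : (2 * (N : ℝ) ^ (48 / 91 + δ)) ^ (-(5 / 48 : ℝ) - δ) ≤ (n : ℝ) ^ (-(5 / 48 : ℝ) - δ) :=
      Real.rpow_le_rpow_of_nonpos hnpos hc2 (by linarith)
    have e2 : (1 / 2 : ℝ) * (N : ℝ) ^ (-(5 / 91 : ℝ) - δ) ≤
        (2 * (N : ℝ) ^ (48 / 91 + δ)) ^ (-(5 / 48 : ℝ) - δ) := by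
      rw [Real.mul_rpow (by norm_num) (by positivity), ← Real.rpow_mul hNpos.le]
      apply mul_le_mul
      · have : (2 : ℝ) ^ (-1 : ℝ) ≤ (2 : ℝ) ^ (-(5 / 48 : ℝ) - δ) :=
          Real.rpow_le_rpow_of_exponent_le (by norm_num) (by linarith)
        rw [Real.rpow_neg_one] at this
        linarith
      · apply Real.rpow_le_rpow_of_exponent_le hN'
        nlinarith
      · positivity
      · positivity
    have e3 : (N : ℝ) ^ (-(5 / 91 : ℝ) - ε) ≤ (c / 2) * (N : ℝ) ^ (-(5 / 91 : ℝ) - δ) := by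
      have : (N : ℝ) ^ (-(5 / 91 : ℝ) - ε) ≤ (N : ℝ) ^ (-δ) * (N : ℝ) ^ (-(5 / 91 : ℝ) - δ) := by
        rw [← Real.rpow_add hNpos]
        apply Real.rpow_le_rpow_of_exponent_le hN'
        linarith
      refine this.trans ?_
      exact mul_le_mul_of_nonneg_right (hm4 N hN4) (by positivity)
    have e4 : c * ((1 / 2 : ℝ) * (N : ℝ) ^ (-(5 / 91 : ℝ) - δ)) ≤ c * ar n :=
      mul_le_mul_of_nonneg_left (le_trans e2 (le_trans e1 ha1)) hc.le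
    calc (N : ℝ) ^ (-(5 / 91 : ℝ) - ε) ≤ (c / 2) * (N : ℝ) ^ (-(5 / 91 : ℝ) - δ) := e3
      _ = c * ((1 / 2 : ℝ) * (N : ℝ) ^ (-(5 / 91 : ℝ) - δ)) := by ring
      _ ≤ c * ar n := e4
  · -- upper bound
    obtain ⟨hc1, hc2⟩ := X_ceil N (48 / 91) hNone (by positivity)
    set n : ℕ := ⌈(N : ℝ) ^ (48 / 91 : ℝ)⌉₊ with hn
    have hbig : ((max n1 n2 : ℕ) + 12 : ℝ) ≤ n := le_trans (hm1 N hN1) hc1
    have hbig' : max n1 n2 + 12 ≤ n := by exact_mod_cast hbig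
    have hn12 : 1 ≤ n := by omega
    have hnn1 : n1 ≤ n := by omega
    have hnpos : (0 : ℝ) < n := by
      have : 0 < n := by omega
      exact_mod_cast this
    obtain ⟨ha1, ha2⟩ := hn1 n hnn1
    have hNk : (0 : ℝ) < (N : ℝ) ^ (48 / 91 : ℝ) := Real.rpow_pos_of_pos hNpos _
    refine (hup n hn12 N hNone).trans ?_
    have e1 : ar n ≤ (N : ℝ) ^ (-(5 / 91 : ℝ) + 2 * (48 / 91) * e) := by
      refine ha2.trans ?_
      have : (n : ℝ) ^ (-(5 / 48 : ℝ) + e) ≤ ((N : ℝ) ^ (48 / 91 : ℝ)) ^ (-(5 / 48 : ℝ) + e) :=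
        Real.rpow_le_rpow_of_nonpos hNk hc1 (by linarith)
      refine this.trans ?_
      rw [← Real.rpow_mul hNpos.le]
      apply Real.rpow_le_rpow_of_exponent_le hN'
      nlinarith
    have e2 : (n : ℝ) * ar n ≤ 2 * (N : ℝ) ^ (43 / 91 + (48 / 91) * e) := by
      have i1 : (n : ℝ) * ar n ≤ (n : ℝ) ^ (43 / 48 + e) := by
        have : (n : ℝ) ^ (43 / 48 + e) = (n : ℝ) * (n : ℝ) ^ (-(5 / 48 : ℝ) + e) := by
          nth_rewrite 2 [← Real.rpow_one (n : ℝ)]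
          rw [← Real.rpow_add hnpos]
          congr 1
          ring
        rw [this]
        exact mul_le_mul_of_nonneg_left ha2 hnpos.le
      have i2 : (n : ℝ) ^ (43 / 48 + e) ≤ (2 * (N : ℝ) ^ (48 / 91 : ℝ)) ^ (43 / 48 + e) :=
        Real.rpow_le_rpow hnpos.le hc2 (by positivity)
      have i3 : (2 * (N : ℝ) ^ (48 / 91 : ℝ)) ^ (43 / 48 + e) ≤
          2 * (N : ℝ) ^ (43 / 91 + (48 / 91) * e) := by
        rw [Real.mul_rpow (by norm_num) hNk.le, ← Real.rpow_mul hNpos.le]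
        apply mul_le_mul
        · have : (2 : ℝ) ^ (43 / 48 + e) ≤ (2 : ℝ) ^ (1 : ℝ) :=
            Real.rpow_le_rpow_of_exponent_le (by norm_num) (by linarith)
          rwa [Real.rpow_one] at this
        · apply Real.rpow_le_rpow_of_exponent_le hN'
          nlinarith
        · positivity
        · norm_num
      exact i1.trans (i2.trans i3)
    have hnar : 0 ≤ (n : ℝ) * ar n := mul_nonneg hnpos.le (ar_pos n).le
    have e3 : (n : ℝ) ^ 2 * ar n ^ 2 / N ≤ 4 * (N : ℝ) ^ (-(5 / 91 : ℝ) + 2 * (48 / 91) * e) := by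
      have i1 : (n : ℝ) ^ 2 * ar n ^ 2 ≤ (2 * (N : ℝ) ^ (43 / 91 + (48 / 91) * e)) ^ 2 := by
        rw [← mul_pow]
        exact pow_le_pow_left₀ hnar e2 2
      have i2 : (2 * (N : ℝ) ^ (43 / 91 + (48 / 91) * e)) ^ 2 =
          4 * (N : ℝ) ^ (-(5 / 91 : ℝ) + 2 * (48 / 91) * e) * N := by
        rw [mul_pow, ← Real.rpow_natCast ((N : ℝ) ^ (43 / 91 + (48 / 91) * e)) 2,
          ← Real.rpow_mul hNpos.le]
        have : (N : ℝ) ^ (-(5 / 91 : ℝ) + 2 * (48 / 91) * e) * N =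
            (N : ℝ) ^ ((43 / 91 + (48 / 91) * e) * ((2 : ℕ) : ℝ)) := by
          nth_rewrite 2 [← Real.rpow_one (N : ℝ)]
          rw [← Real.rpow_add hNpos]
          congr 1
          push_cast
          ring
        rw [← this]
        ring
      rw [div_le_iff₀ hNpos]
      rw [i2] at i1
      exact i1
    have hM : (0 : ℝ) < (N : ℝ) ^ (-(5 / 91 : ℝ) + 2 * (48 / 91) * e) :=
      Real.rpow_pos_of_pos hNpos _
    calc ar n + C * ((n : ℝ) ^ 2 * ar n ^ 2) / N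
        = ar n + C * ((n : ℝ) ^ 2 * ar n ^ 2 / N) := by ring
      _ ≤ (N : ℝ) ^ (-(5 / 91 : ℝ) + 2 * (48 / 91) * e) +
          C * (4 * (N : ℝ) ^ (-(5 / 91 : ℝ) + 2 * (48 / 91) * e)) :=
          add_le_add e1 (mul_le_mul_of_nonneg_left e3 hC.le)
      _ = (1 + 4 * C) * (N : ℝ) ^ (-(5 / 91 : ℝ) + 2 * (48 / 91) * e) := by ring
      _ ≤ (N : ℝ) ^ (ε / 2) * (N : ℝ) ^ (-(5 / 91 : ℝ) + 2 * (48 / 91) * e) :=
          mul_le_mul_of_nonneg_right (hm2 N hN2) hM.le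
      _ = (N : ℝ) ^ (ε / 2 + (-(5 / 91 : ℝ) + 2 * (48 / 91) * e)) := by
          rw [← Real.rpow_add hNpos]
      _ ≤ (N : ℝ) ^ (-(5 / 91 : ℝ) + ε) := by
          apply Real.rpow_le_rpow_of_exponent_le hN'
          nlinarith

theorem X_okP : Ok P := by
  intro e
  unfold P
  norm_num

theorem X_big_mono {N N' : ℝ} (h : N' ≤ N) {n : ℕ} {F : Finset Edg} (hb : Big N n F) :
    Big N' n F := by
  obtain ⟨v, hv, T, hT, hr⟩ := hb
  exact ⟨v, hv, T, h.trans hT, hr⟩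

theorem X_max_small (h : OneArmExp) (ε : ℝ) (hε : 0 < ε) (hε1 : ε ≤ 1) : Tendsto (fun n : ℕ =>
    (bondLaw hlf).real {ω | (n : ℝ) ^ (91 / 48 - ε : ℝ) ≤ maxCl n ω ∧
      (maxCl n ω : ℝ) ≤ (n : ℝ) ^ (91 / 48 + ε : ℝ)}) atTop (nhds 1) := by
  obtain ⟨C, hC, hup⟩ := max_upper
  have hle : ∀ n : ℕ, (bondLaw hlf).real {ω | (n : ℝ) ^ (91 / 48 - ε : ℝ) ≤ maxCl n ω ∧
      (maxCl n ω : ℝ) ≤ (n : ℝ) ^ (91 / 48 + ε : ℝ)} ≤ 1 := fun n => measureReal_le_one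
  rw [Metric.tendsto_atTop]
  intro η hη
  obtain ⟨c, hc, nl, hlo⟩ := max_lower_of max_lower1 (η / 4) (by positivity)
  obtain ⟨n1, hn1⟩ := h (ε / 2) (by positivity)
  obtain ⟨m2, hm20, hm2⟩ := X_absorb (4 * C / η) ε hε
  obtain ⟨m3, hm30, hm3⟩ := X_absorb (2 / c) (ε / 2) (by positivity)
  refine ⟨max (max nl n1) (max m2 m3), fun n hn => ?_⟩
  have k1 : nl ≤ n := le_trans (le_trans (le_max_left _ _) (le_max_left _ _)) hn
  have k2 : n1 ≤ n := le_trans (le_trans (le_max_right _ _) (le_max_left _ _)) hn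
  have k3 : m2 ≤ n := le_trans (le_trans (le_max_left _ _) (le_max_right _ _)) hn
  have k4 : m3 ≤ n := le_trans (le_trans (le_max_right _ _) (le_max_right _ _)) hn
  have hn1' : 1 ≤ n := le_trans hm20 k3
  have hnr : (1 : ℝ) ≤ n := by exact_mod_cast hn1'
  have hnpos : (0 : ℝ) < n := by linarith
  obtain ⟨ha1, ha2⟩ := hn1 n k2
  -- upper tail
  have hU : (bondLaw hlf).real {ω | ⌊(n : ℝ) ^ (91 / 48 + ε : ℝ)⌋₊ + 1 ≤ maxCl n ω} ≤ η / 4 := by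
    rw [law_maxCl]
    have hx : (n : ℝ) ^ (ε / 2) * ((n : ℝ) ^ 2 * ar n) ≤
        ((⌊(n : ℝ) ^ (91 / 48 + ε : ℝ)⌋₊ + 1 : ℕ) : ℝ) := by
      have i1 : (n : ℝ) ^ (ε / 2) * ((n : ℝ) ^ 2 * ar n) ≤ (n : ℝ) ^ (91 / 48 + ε : ℝ) := by
        have : (n : ℝ) ^ (91 / 48 + ε : ℝ) =
            (n : ℝ) ^ (ε / 2) * ((n : ℝ) ^ 2 * (n : ℝ) ^ (-(5 / 48 : ℝ) + ε / 2)) := by
          rw [← Real.rpow_natCast (n : ℝ) 2, ← Real.rpow_add hnpos, ← Real.rpow_add hnpos]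
          congr 1
          push_cast
          ring
        rw [this]
        exact mul_le_mul_of_nonneg_left (mul_le_mul_of_nonneg_left ha2 (by positivity))
          (by positivity)
      have i2 := Nat.lt_floor_add_one ((n : ℝ) ^ (91 / 48 + ε : ℝ))
      push_cast
      linarith
    have i3 : Pr P (boxE n) (Big ((⌊(n : ℝ) ^ (91 / 48 + ε : ℝ)⌋₊ + 1 : ℕ) : ℝ) n) ≤
        Pr P (boxE n) (Big ((n : ℝ) ^ (ε / 2) * ((n : ℝ) ^ 2 * ar n)) n) :=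
      Pr_mono X_okP (fun F _ hF => X_big_mono hx hF)
    refine i3.trans ((hup n hn1' _ (by positivity)).trans ?_)
    have i4 : ((n : ℝ) ^ (ε / 2)) ^ 2 = (n : ℝ) ^ ε := by
      rw [← Real.rpow_natCast ((n : ℝ) ^ (ε / 2)) 2, ← Real.rpow_mul hnpos.le]
      congr 1
      push_cast
      ring
    rw [i4, div_le_iff₀ (by positivity)]
    have i5 := hm2 n k3
    rw [div_le_iff₀ hη] at i5
    nlinarith
  -- lower tail
  have hL : 1 - η / 4 ≤ (bondLaw hlf).real {ω | ⌈(n : ℝ) ^ (91 / 48 - ε : ℝ)⌉₊ ≤ maxCl n ω} := by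
    rw [law_maxCl]
    refine (hlo n k1).trans ?_
    apply Pr_mono X_okP
    intro F _ hF
    refine X_big_mono ?_ hF
    have i1 : (n : ℝ) ^ (91 / 48 - ε / 2 : ℝ) ≤ (n : ℝ) ^ 2 * ar n := by
      have : (n : ℝ) ^ (91 / 48 - ε / 2 : ℝ) =
          (n : ℝ) ^ 2 * (n : ℝ) ^ (-(5 / 48 : ℝ) - ε / 2) := by
        rw [← Real.rpow_natCast (n : ℝ) 2, ← Real.rpow_add hnpos]
        congr 1
        push_cast
        ring
      rw [this]
      exact mul_le_mul_of_nonneg_left ha1 (by positivity)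
    have i2 : (n : ℝ) ^ (91 / 48 - ε / 2 : ℝ) = (n : ℝ) ^ (ε / 2) * (n : ℝ) ^ (91 / 48 - ε : ℝ) := by
      rw [← Real.rpow_add hnpos]
      congr 1
      ring
    have i3 : 2 / c ≤ (n : ℝ) ^ (ε / 2) := hm3 n k4
    have i3' : 2 ≤ c * (n : ℝ) ^ (ε / 2) := by
      rw [div_le_iff₀ hc] at i3
      linarith
    have hy : (0 : ℝ) < (n : ℝ) ^ (91 / 48 - ε : ℝ) := by positivity
    by_cases hbig : 1 ≤ (n : ℝ) ^ (91 / 48 - ε : ℝ)
    · have i4 := Nat.ceil_lt_add_one (a := (n : ℝ) ^ (91 / 48 - ε : ℝ)) hy.le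
      calc ((⌈(n : ℝ) ^ (91 / 48 - ε : ℝ)⌉₊ : ℕ) : ℝ) ≤ 2 * (n : ℝ) ^ (91 / 48 - ε : ℝ) := by
            linarith
        _ ≤ (c * (n : ℝ) ^ (ε / 2)) * (n : ℝ) ^ (91 / 48 - ε : ℝ) :=
            mul_le_mul_of_nonneg_right i3' hy.le
        _ = c * (n : ℝ) ^ (91 / 48 - ε / 2 : ℝ) := by rw [i2]; ring
        _ ≤ c * ((n : ℝ) ^ 2 * ar n) := mul_le_mul_of_nonneg_left i1 hc.le
    · exact absurd (Real.one_le_rpow hnr (by linarith)) hbig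
  -- conclusion
  have hfin : (bondLaw hlf).real {ω | ⌈(n : ℝ) ^ (91 / 48 - ε : ℝ)⌉₊ ≤ maxCl n ω} ≤
      (bondLaw hlf).real {ω | (n : ℝ) ^ (91 / 48 - ε : ℝ) ≤ maxCl n ω ∧
      (maxCl n ω : ℝ) ≤ (n : ℝ) ^ (91 / 48 + ε : ℝ)} +
      (bondLaw hlf).real {ω | ⌊(n : ℝ) ^ (91 / 48 + ε : ℝ)⌋₊ + 1 ≤ maxCl n ω} := by
    refine le_trans (measureReal_mono ?_) (measureReal_union_le _ _)
    intro ω hω
    by_cases hx : (maxCl n ω : ℝ) ≤ (n : ℝ) ^ (91 / 48 + ε : ℝ)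
    · left
      exact ⟨le_trans (Nat.le_ceil _) (by exact_mod_cast hω), hx⟩
    · right
      push Not at hx
      have : ⌊(n : ℝ) ^ (91 / 48 + ε : ℝ)⌋₊ < maxCl n ω := (Nat.floor_lt (by positivity)).mpr hx
      exact this
  have h1 := hle n
  rw [Real.dist_eq, abs_sub_comm, abs_of_nonneg (by linarith)]
  linarith

theorem exp_max (h : OneArmExp) (ε : ℝ) (hε : 0 < ε) : Tendsto (fun n : ℕ =>
    (bondLaw hlf).real {ω | (n : ℝ) ^ (91 / 48 - ε : ℝ) ≤ maxCl n ω ∧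
      (maxCl n ω : ℝ) ≤ (n : ℝ) ^ (91 / 48 + ε : ℝ)}) atTop (nhds 1) := by
  have h1 := X_max_small h (min ε 1) (lt_min hε one_pos) (min_le_right _ _)
  refine tendsto_of_tendsto_of_tendsto_of_le_of_le' h1 tendsto_const_nhds ?_
    (Eventually.of_forall fun n => measureReal_le_one)
  filter_upwards [eventually_ge_atTop 1] with n hn
  have hnr : (1 : ℝ) ≤ n := by exact_mod_cast hn
  refine measureReal_mono ?_
  rintro ω ⟨ha, hb⟩
  refine ⟨le_trans ?_ ha, le_trans hb ?_⟩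
  · apply Real.rpow_le_rpow_of_exponent_le hnr
    have := min_le_left ε 1
    linarith
  · apply Real.rpow_le_rpow_of_exponent_le hnr
    have := min_le_left ε 1
    linarith

end Pool.Agent.H160R2.CV
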