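import Pool.Agent.H160R2.CV.Exp

/-!
# From the sharp one-arm estimate to sharp two-point, volume and largest cluster estimates
-/

set_option autoImplicit false

namespace Pool.Agent.H160R2.CV
open Finset H974 Filter MeasureTheory

/-- the sharp one-arm estimate -/
def ArSharp : Prop := ∃ c C : ℝ, 0 < c ∧ 0 < C ∧ ∀ n : ℕ, 1 ≤ n →
    c * (n : ℝ) ^ (-(5 / 48 : ℝ)) ≤ ar n ∧ ar n ≤ C * (n : ℝ) ^ (-(5 / 48 : ℝ))

theorem Y_sq (n : ℕ) (hn : 1 ≤ n) : ((n : ℝ) ^ (-(5 / 48 : ℝ))) ^ 2 = (n : ℝ) ^ (-(5 / 24 : ℝ)) := by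
  have hn0 : (0 : ℝ) < n := by exact_mod_cast hn
  rw [← Real.rpow_natCast ((n : ℝ) ^ (-(5 / 48 : ℝ))) 2, ← Real.rpow_mul hn0.le]
  congr 1
  norm_num

theorem sharp_two (h : ArSharp) : ∃ c C : ℝ, 0 < c ∧ 0 < C ∧ ∀ x : ℤ × ℤ, 1 ≤ nv x →
    c * (nv x : ℝ) ^ (-(5 / 24 : ℝ)) ≤
      (bondLaw hlf).real {ω | (openGraph ω).Reachable (0, 0) x} ∧
    (bondLaw hlf).real {ω | (openGraph ω).Reachable (0, 0) x} ≤
      C * (nv x : ℝ) ^ (-(5 / 24 : ℝ)) := by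
  obtain ⟨c, C, hc, hC, hh⟩ := inf_two
  obtain ⟨a, A, ha, hA, har⟩ := h
  refine ⟨c * a ^ 2, C * A ^ 2, by positivity, by positivity, fun x hx => ?_⟩
  obtain ⟨h1, h2⟩ := har (nv x) hx
  obtain ⟨h3, h4⟩ := hh x
  have hp : (0 : ℝ) ≤ (nv x : ℝ) ^ (-(5 / 48 : ℝ)) := Real.rpow_nonneg (Nat.cast_nonneg _) _
  constructor
  · refine le_trans ?_ h3
    rw [← Y_sq _ hx, mul_assoc, ← mul_pow]
    exact mul_le_mul_of_nonneg_left (pow_le_pow_left₀ (by positivity) h1 2) hc.le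
  · refine le_trans h4 ?_
    rw [← Y_sq _ hx, mul_assoc, ← mul_pow]
    exact mul_le_mul_of_nonneg_left (pow_le_pow_left₀ (ar_pos _).le h2 2) hC.le

theorem sharp_vol (h : ArSharp) : ∃ c C : ℝ, 0 < c ∧ 0 < C ∧ ∀ N : ℕ, 1 ≤ N →
    c * (N : ℝ) ^ (-(5 / 91 : ℝ)) ≤ (bondLaw hlf).real {ω | (N : ℕ∞) ≤ (cluster0 ω).encard} ∧
    (bondLaw hlf).real {ω | (N : ℕ∞) ≤ (cluster0 ω).encard} ≤ C * (N : ℝ) ^ (-(5 / 91 : ℝ)) := by
  obtain ⟨C, hC, hup⟩ := inf_vol_upper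
  obtain ⟨c, hc, hlo⟩ := inf_vol_lower
  obtain ⟨a, A, ha, hA, har⟩ := h
  set B : ℝ := max 12 (1 / (c * a)) with hB
  have hB12 : 12 ≤ B := le_max_left _ _
  have hBc : 1 / (c * a) ≤ B := le_max_right _ _
  refine ⟨c * a * (1 / (2 * B)), A + C * (4 * A ^ 2), by positivity, by positivity,
    fun N hN => ?_⟩
  have hN' : (1 : ℝ) ≤ N := by exact_mod_cast hN
  have hNpos : (0 : ℝ) < N := by linarith
  have hP : (0 : ℝ) < (N : ℝ) ^ (48 / 91 : ℝ) := Real.rpow_pos_of_pos hNpos _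
  have hP1 : (1 : ℝ) ≤ (N : ℝ) ^ (48 / 91 : ℝ) := Real.one_le_rpow hN' (by norm_num)
  constructor
  · -- lower bound
    set x : ℝ := B * (N : ℝ) ^ (48 / 91 : ℝ) with hx
    have hx12 : 12 ≤ x := by rw [hx]; nlinarith
    set n : ℕ := ⌈x⌉₊ with hn
    have hn1 : x ≤ n := Nat.le_ceil x
    have hn2 : (n : ℝ) ≤ 2 * x := by
      have := Nat.ceil_lt_add_one (a := x) (by linarith)
      linarith
    have hn12 : 12 ≤ n := by
      have : (12 : ℝ) ≤ n := hx12.trans hn1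
      exact_mod_cast this
    have hnpos : (0 : ℝ) < n := by linarith
    obtain ⟨ha1, -⟩ := har n (by omega)
    have hmain : (N : ℝ) ≤ c * ((n : ℝ) ^ 2 * ar n) := by
      have e1 : (n : ℝ) ^ (91 / 48 : ℝ) = (n : ℝ) ^ 2 * (n : ℝ) ^ (-(5 / 48 : ℝ)) := by
        rw [← Real.rpow_natCast (n : ℝ) 2, ← Real.rpow_add hnpos]
        congr 1
        push_cast
        ring
      have e2 : x ^ (91 / 48 : ℝ) ≤ (n : ℝ) ^ (91 / 48 : ℝ) :=
        Real.rpow_le_rpow (by linarith) hn1 (by norm_num)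
      have e3 : B * N ≤ x ^ (91 / 48 : ℝ) := by
        rw [hx, Real.mul_rpow (by linarith) hP.le, ← Real.rpow_mul hNpos.le]
        have e4 : (48 / 91 : ℝ) * (91 / 48) = 1 := by norm_num
        rw [e4, Real.rpow_one]
        apply mul_le_mul_of_nonneg_right _ hNpos.le
        have : B ^ (1 : ℝ) ≤ B ^ (91 / 48 : ℝ) :=
          Real.rpow_le_rpow_of_exponent_le (by linarith) (by norm_num)
        rwa [Real.rpow_one] at this
      have e5 : a * (B * N) ≤ (n : ℝ) ^ 2 * ar n := by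
        calc a * (B * N) ≤ a * (n : ℝ) ^ (91 / 48 : ℝ) :=
              mul_le_mul_of_nonneg_left (e3.trans e2) ha.le
          _ = (n : ℝ) ^ 2 * (a * (n : ℝ) ^ (-(5 / 48 : ℝ))) := by rw [e1]; ring
          _ ≤ (n : ℝ) ^ 2 * ar n := mul_le_mul_of_nonneg_left ha1 (by positivity)
      have e6 : 1 ≤ c * a * B := by
        rw [div_le_iff₀ (by positivity)] at hBc
        linarith
      calc (N : ℝ) = 1 * N := by ring
        _ ≤ (c * a * B) * N := mul_le_mul_of_nonneg_right e6 hNpos.le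
        _ = c * (a * (B * N)) := by ring
        _ ≤ _ := mul_le_mul_of_nonneg_left e5 hc.le
    refine le_trans ?_ (hlo n hn12 N hmain)
    have e1 : (2 * x) ^ (-(5 / 48 : ℝ)) ≤ (n : ℝ) ^ (-(5 / 48 : ℝ)) :=
      Real.rpow_le_rpow_of_nonpos hnpos hn2 (by norm_num)
    have e2 : (1 / (2 * B)) * (N : ℝ) ^ (-(5 / 91 : ℝ)) ≤ (2 * x) ^ (-(5 / 48 : ℝ)) := by
      rw [hx, ← mul_assoc, Real.mul_rpow (by linarith) hP.le, ← Real.rpow_mul hNpos.le]
      have e4 : (48 / 91 : ℝ) * (-(5 / 48)) = -(5 / 91) := by norm_num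
      rw [e4]
      apply mul_le_mul_of_nonneg_right _ (by positivity)
      have : (2 * B) ^ (-1 : ℝ) ≤ (2 * B) ^ (-(5 / 48 : ℝ)) :=
        Real.rpow_le_rpow_of_exponent_le (by linarith) (by norm_num)
      rwa [Real.rpow_neg_one, ← one_div] at this
    calc c * a * (1 / (2 * B)) * (N : ℝ) ^ (-(5 / 91 : ℝ))
        = c * (a * ((1 / (2 * B)) * (N : ℝ) ^ (-(5 / 91 : ℝ)))) := by ring
      _ ≤ c * (a * (n : ℝ) ^ (-(5 / 48 : ℝ))) := by
          apply mul_le_mul_of_nonneg_left _ hc.le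
          exact mul_le_mul_of_nonneg_left (e2.trans e1) ha.le
      _ ≤ c * ar n := mul_le_mul_of_nonneg_left ha1 hc.le
  · -- upper bound
    obtain ⟨hc1, hc2⟩ := X_ceil N (48 / 91) hN (by norm_num)
    set n : ℕ := ⌈(N : ℝ) ^ (48 / 91 : ℝ)⌉₊ with hn
    have hnpos : (0 : ℝ) < n := by linarith
    have hn1 : 1 ≤ n := by
      have : 0 < n := by exact_mod_cast hnpos
      omega
    obtain ⟨-, ha2⟩ := har n hn1
    refine (hup n hn1 N hN).trans ?_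
    have e4 : (48 / 91 : ℝ) * (-(5 / 48)) = -(5 / 91) := by norm_num
    have e1 : (n : ℝ) ^ (-(5 / 48 : ℝ)) ≤ (N : ℝ) ^ (-(5 / 91 : ℝ)) := by
      have := Real.rpow_le_rpow_of_nonpos hP hc1 (show (-(5 / 48 : ℝ)) ≤ 0 by norm_num)
      rwa [← Real.rpow_mul hNpos.le, e4] at this
    have e2 : (n : ℝ) ^ 2 * ar n ^ 2 / N ≤ 4 * A ^ 2 * (N : ℝ) ^ (-(5 / 91 : ℝ)) := by
      rw [div_le_iff₀ hNpos]
      have i1 : (n : ℝ) * ar n ≤ A * (2 * (N : ℝ) ^ (43 / 91 : ℝ)) := by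
        have i2 : (n : ℝ) * (n : ℝ) ^ (-(5 / 48 : ℝ)) = (n : ℝ) ^ (43 / 48 : ℝ) := by
          nth_rewrite 1 [← Real.rpow_one (n : ℝ)]
          rw [← Real.rpow_add hnpos]
          congr 1
          norm_num
        have i3 : (n : ℝ) ^ (43 / 48 : ℝ) ≤ 2 * (N : ℝ) ^ (43 / 91 : ℝ) := by
          have i4 : (n : ℝ) ^ (43 / 48 : ℝ) ≤ (2 * (N : ℝ) ^ (48 / 91 : ℝ)) ^ (43 / 48 : ℝ) :=
            Real.rpow_le_rpow hnpos.le hc2 (by norm_num)
          refine i4.trans ?_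
          rw [Real.mul_rpow (by norm_num) hP.le, ← Real.rpow_mul hNpos.le]
          have e5 : (48 / 91 : ℝ) * (43 / 48) = 43 / 91 := by norm_num
          rw [e5]
          apply mul_le_mul_of_nonneg_right _ (by positivity)
          have : (2 : ℝ) ^ (43 / 48 : ℝ) ≤ (2 : ℝ) ^ (1 : ℝ) :=
            Real.rpow_le_rpow_of_exponent_le (by norm_num) (by norm_num)
          rwa [Real.rpow_one] at this
        calc (n : ℝ) * ar n ≤ (n : ℝ) * (A * (n : ℝ) ^ (-(5 / 48 : ℝ))) :=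
              mul_le_mul_of_nonneg_left ha2 hnpos.le
          _ = A * (n : ℝ) ^ (43 / 48 : ℝ) := by rw [← i2]; ring
          _ ≤ _ := mul_le_mul_of_nonneg_left i3 hA.le
      have i5 : 0 ≤ (n : ℝ) * ar n := mul_nonneg hnpos.le (ar_pos n).le
      have i6 : (N : ℝ) ^ (-(5 / 91 : ℝ)) * N = ((N : ℝ) ^ (43 / 91 : ℝ)) ^ 2 := by
        rw [← Real.rpow_natCast ((N : ℝ) ^ (43 / 91 : ℝ)) 2, ← Real.rpow_mul hNpos.le]
        nth_rewrite 2 [← Real.rpow_one (N : ℝ)]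
        rw [← Real.rpow_add hNpos]
        congr 1
        norm_num
      calc (n : ℝ) ^ 2 * ar n ^ 2 = ((n : ℝ) * ar n) ^ 2 := by ring
        _ ≤ (A * (2 * (N : ℝ) ^ (43 / 91 : ℝ))) ^ 2 := pow_le_pow_left₀ i5 i1 2
        _ = 4 * A ^ 2 * ((N : ℝ) ^ (43 / 91 : ℝ)) ^ 2 := by ring
        _ = 4 * A ^ 2 * (N : ℝ) ^ (-(5 / 91 : ℝ)) * N := by rw [← i6]; ring
    calc ar n + C * ((n : ℝ) ^ 2 * ar n ^ 2) / N
        = ar n + C * ((n : ℝ) ^ 2 * ar n ^ 2 / N) := by ring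
      _ ≤ A * (N : ℝ) ^ (-(5 / 91 : ℝ)) + C * (4 * A ^ 2 * (N : ℝ) ^ (-(5 / 91 : ℝ))) :=
          add_le_add (ha2.trans (mul_le_mul_of_nonneg_left e1 hA.le))
            (mul_le_mul_of_nonneg_left e2 hC.le)
      _ = _ := by ring

theorem Y_one_le_max (n : ℕ) (ω : sqLattice.edgeSet → Bool) : 1 ≤ maxCl n ω := by
  rw [InfMax.le_maxCl_iff]
  refine ⟨(0, 0), by rw [InfMax.mem_bx]; simp, {(0, 0)}, by simp, fun u hu => ?_⟩
  rw [Finset.mem_singleton] at hu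
  rw [hu]
  exact Reach.refl _ _

theorem Y_max_le (n : ℕ) (ω : sqLattice.edgeSet → Bool) : maxCl n ω ≤ (bx n).card := by
  unfold maxCl
  refine Finset.sup_le fun v hv => ?_
  rw [← Set.ncard_coe_finset]
  refine Set.ncard_le_ncard ?_ (Finset.finite_toSet _)
  intro u hu
  have hu' : Reach (opn ω ∩ ↑(boxE n)) v u := (InfMax.box_reach n ω v u).mp hu
  have := InfMax.reach_sub n ω v hu'
  rw [Finset.mem_coe, Finset.mem_insert] at this
  rcases this with h | h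
  · rw [h]; exact hv
  · exact h

theorem sharp_max (h : ArSharp) (ε : ℝ) (hε : 0 < ε) : ∃ c C : ℝ, 0 < c ∧ 0 < C ∧ ∀ n : ℕ, 1 ≤ n →
    1 - ε ≤ (bondLaw hlf).real {ω | c * (n : ℝ) ^ (91 / 48 : ℝ) ≤ maxCl n ω ∧
      (maxCl n ω : ℝ) ≤ C * (n : ℝ) ^ (91 / 48 : ℝ)} := by
  obtain ⟨K, hK, hup⟩ := max_upper
  obtain ⟨c, hc, nl, hlo⟩ := max_lower_of max_lower1 (ε / 2) (by positivity)
  obtain ⟨a, A, ha, hA, har⟩ := h
  -- constants
  obtain ⟨l, hl0, hl⟩ : ∃ l : ℝ, 0 < l ∧ K / l ^ 2 ≤ ε / 2 := by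
    refine ⟨2 * K / ε + 1, by positivity, ?_⟩
    rw [div_le_iff₀ (by positivity)]
    have h1 : 2 * K / ε ≤ (2 * K / ε + 1) ^ 2 := by
      have : 0 ≤ 2 * K / ε := by positivity
      nlinarith
    have h2 : ε / 2 * (2 * K / ε) = K := by field_simp
    nlinarith
  set M : ℕ := max nl 1 with hM
  have hM0 : (0 : ℝ) < M := by
    have : 0 < M := lt_of_lt_of_le one_pos (le_max_right _ _)
    exact_mod_cast this
  set c' : ℝ := min (c * a / 2) (1 / (M : ℝ) ^ (91 / 48 : ℝ)) with hc'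
  have hc'0 : 0 < c' := by rw [hc']; positivity
  set C' : ℝ := l * A + (((bx M).card : ℝ) + 1) with hC'
  have hC'0 : 0 < C' := by rw [hC']; positivity
  refine ⟨c' , C', hc'0, hC'0, fun n hn => ?_⟩
  have hnr : (1 : ℝ) ≤ n := by exact_mod_cast hn
  have hnpos : (0 : ℝ) < n := by linarith
  have hy1 : (1 : ℝ) ≤ (n : ℝ) ^ (91 / 48 : ℝ) := Real.one_le_rpow hnr (by norm_num)
  have hpow : (n : ℝ) ^ (91 / 48 : ℝ) = (n : ℝ) ^ 2 * (n : ℝ) ^ (-(5 / 48 : ℝ)) := by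
    rw [← Real.rpow_natCast (n : ℝ) 2, ← Real.rpow_add hnpos]
    congr 1
    push_cast
    ring
  rcases Nat.lt_or_ge n M with hnM | hnM
  · -- small boxes
    have huniv : {ω | c' * (n : ℝ) ^ (91 / 48 : ℝ) ≤ maxCl n ω ∧
      (maxCl n ω : ℝ) ≤ C' * (n : ℝ) ^ (91 / 48 : ℝ)} = Set.univ := by
      apply Set.eq_univ_of_forall
      intro ω
      constructor
      · have h1 : (1 : ℝ) ≤ maxCl n ω := by exact_mod_cast Y_one_le_max n ω
        have h2 : (n : ℝ) ^ (91 / 48 : ℝ) ≤ (M : ℝ) ^ (91 / 48 : ℝ) :=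
          Real.rpow_le_rpow hnpos.le (by exact_mod_cast hnM.le) (by norm_num)
        have h3 : c' ≤ 1 / (M : ℝ) ^ (91 / 48 : ℝ) := min_le_right _ _
        have h4 : (0 : ℝ) < (M : ℝ) ^ (91 / 48 : ℝ) := Real.rpow_pos_of_pos hM0 _
        calc c' * (n : ℝ) ^ (91 / 48 : ℝ) ≤ 1 / (M : ℝ) ^ (91 / 48 : ℝ) * (M : ℝ) ^ (91 / 48 : ℝ) :=
              mul_le_mul h3 h2 (by positivity) (by positivity)
          _ = 1 := by field_simp
          _ ≤ _ := h1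
      · have h1 : (maxCl n ω : ℝ) ≤ (bx M).card := by
          have i1 := Y_max_le n ω
          have i2 : (bx n).card ≤ (bx M).card := by
            apply Finset.card_le_card
            intro u hu
            rw [InfMax.mem_bx] at hu ⊢
            omega
          exact_mod_cast i1.trans i2
        have h2 : (0 : ℝ) ≤ (bx M).card := Nat.cast_nonneg _
        have h3 : 0 ≤ l * A := by positivity
        nlinarith
    rw [huniv]
    simp
    linarith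
  · have hnl : nl ≤ n := (le_max_left _ _).trans hnM
    obtain ⟨ha1, ha2⟩ := har n hn
    -- upper tail
    have hU : (bondLaw hlf).real {ω | ⌊C' * (n : ℝ) ^ (91 / 48 : ℝ)⌋₊ + 1 ≤ maxCl n ω} ≤ ε / 2 := by
      rw [law_maxCl]
      have hx : l * ((n : ℝ) ^ 2 * ar n) ≤
          ((⌊C' * (n : ℝ) ^ (91 / 48 : ℝ)⌋₊ + 1 : ℕ) : ℝ) := by
        have i1 : l * ((n : ℝ) ^ 2 * ar n) ≤ C' * (n : ℝ) ^ (91 / 48 : ℝ) := by
          calc l * ((n : ℝ) ^ 2 * ar n) ≤ l * ((n : ℝ) ^ 2 * (A * (n : ℝ) ^ (-(5 / 48 : ℝ)))) :=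
                mul_le_mul_of_nonneg_left (mul_le_mul_of_nonneg_left ha2 (by positivity)) hl0.le
            _ = l * A * (n : ℝ) ^ (91 / 48 : ℝ) := by rw [hpow]; ring
            _ ≤ C' * (n : ℝ) ^ (91 / 48 : ℝ) := by
                apply mul_le_mul_of_nonneg_right _ (by positivity)
                have h2 : (0 : ℝ) ≤ (bx M).card := Nat.cast_nonneg _
                linarith
        have i2 := Nat.lt_floor_add_one (C' * (n : ℝ) ^ (91 / 48 : ℝ))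
        push_cast
        linarith
      have i3 : Pr P (boxE n) (Big ((⌊C' * (n : ℝ) ^ (91 / 48 : ℝ)⌋₊ + 1 : ℕ) : ℝ) n) ≤
          Pr P (boxE n) (Big (l * ((n : ℝ) ^ 2 * ar n)) n) :=
        Pr_mono X_okP (fun F _ hF => X_big_mono hx hF)
      exact i3.trans ((hup n hn _ hl0).trans hl)
    -- lower tail
    have hL : 1 - ε / 2 ≤ (bondLaw hlf).real {ω | ⌈c' * (n : ℝ) ^ (91 / 48 : ℝ)⌉₊ ≤ maxCl n ω} := by
      rw [law_maxCl]
      by_cases hbig : 1 ≤ c' * (n : ℝ) ^ (91 / 48 : ℝ)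
      · refine (hlo n hnl).trans ?_
        apply Pr_mono X_okP
        intro F _ hF
        refine X_big_mono ?_ hF
        have i4 := Nat.ceil_lt_add_one (a := c' * (n : ℝ) ^ (91 / 48 : ℝ)) (by positivity)
        have i5 : c' ≤ c * a / 2 := min_le_left _ _
        calc ((⌈c' * (n : ℝ) ^ (91 / 48 : ℝ)⌉₊ : ℕ) : ℝ) ≤ 2 * (c' * (n : ℝ) ^ (91 / 48 : ℝ)) := by
              linarith
          _ ≤ 2 * (c * a / 2 * (n : ℝ) ^ (91 / 48 : ℝ)) := by gcongr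
          _ = c * ((n : ℝ) ^ 2 * (a * (n : ℝ) ^ (-(5 / 48 : ℝ)))) := by rw [hpow]; ring
          _ ≤ c * ((n : ℝ) ^ 2 * ar n) :=
              mul_le_mul_of_nonneg_left (mul_le_mul_of_nonneg_left ha1 (by positivity)) hc.le
      · push Not at hbig
        have i1 : ⌈c' * (n : ℝ) ^ (91 / 48 : ℝ)⌉₊ ≤ 1 := by
          rw [Nat.ceil_le]
          push_cast
          exact hbig.le
        rw [← law_maxCl]
        have huniv : {ω : sqLattice.edgeSet → Bool |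
            ⌈c' * (n : ℝ) ^ (91 / 48 : ℝ)⌉₊ ≤ maxCl n ω} = Set.univ :=
          Set.eq_univ_of_forall fun ω => i1.trans (Y_one_le_max n ω)
        rw [huniv]
        simp
        linarith
    -- conclusion
    have hfin : (bondLaw hlf).real {ω | ⌈c' * (n : ℝ) ^ (91 / 48 : ℝ)⌉₊ ≤ maxCl n ω} ≤
        (bondLaw hlf).real {ω | c' * (n : ℝ) ^ (91 / 48 : ℝ) ≤ maxCl n ω ∧
          (maxCl n ω : ℝ) ≤ C' * (n : ℝ) ^ (91 / 48 : ℝ)} +
        (bondLaw hlf).real {ω | ⌊C' * (n : ℝ) ^ (91 / 48 : ℝ)⌋₊ + 1 ≤ maxCl n ω} := by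
      refine le_trans (measureReal_mono ?_) (measureReal_union_le _ _)
      intro ω hω
      by_cases hx : (maxCl n ω : ℝ) ≤ C' * (n : ℝ) ^ (91 / 48 : ℝ)
      · left
        exact ⟨le_trans (Nat.le_ceil _) (by exact_mod_cast hω), hx⟩
      · right
        push Not at hx
        have : ⌊C' * (n : ℝ) ^ (91 / 48 : ℝ)⌋₊ < maxCl n ω :=
          (Nat.floor_lt (by positivity)).mpr hx
        exact this
    linarith

end Pool.Agent.H160R2.CV
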