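import Pool.Agent.H160R2.CV.Defs

/-! Blueprint (statements only). -/

set_option autoImplicit false

namespace Pool.Agent.H160R2.CV
open Finset H974 Filter MeasureTheory

/-! ### Task R (Ratio.lean) -/

theorem ar_pos (n : ℕ) : 0 < ar n := sorry
theorem ar_le_one (n : ℕ) : ar n ≤ 1 := sorry
theorem ar_anti {n m : ℕ} (h : n ≤ m) : ar m ≤ ar n := sorry

theorem ar_ratio (K : ℕ) : ∃ C : ℝ, 0 < C ∧ ∀ r n : ℕ, r ≤ n → n ≤ K * (r + 1) →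
    ar r ≤ C * ar n := sorry

theorem ar_sum : ∃ C : ℝ, 0 < C ∧ ∀ n : ℕ, 1 ≤ n →
    ∑ k ∈ range (n + 1), ((k : ℝ) + 1) * ar k ≤ C * ((n : ℝ) ^ 2 * ar n) := sorry

theorem ar_sum_sq : ∃ C : ℝ, 0 < C ∧ ∀ n : ℕ, 1 ≤ n →
    ∑ k ∈ range (n + 1), ((k : ℝ) + 1) * ar k ^ 2 ≤ C * ((n : ℝ) ^ 2 * ar n ^ 2) := sorry

/-- sums of functions of the norm -/
theorem sum_bx (n : ℕ) (f : ℕ → ℝ) (hf : ∀ k, 0 ≤ f k) :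
    ∑ x ∈ bx n, f (nv x) ≤ 8 * ∑ k ∈ range (n + 1), ((k : ℝ) + 1) * f k := sorry

theorem sum_bx_shift (n : ℕ) (x : Vtx) (hx : x ∈ bx n) (f : ℕ → ℝ) (hf : ∀ k, 0 ≤ f k) :
    ∑ y ∈ bx n, f (nv (y - x)) ≤ 8 * ∑ k ∈ range (2 * n + 1), ((k : ℝ) + 1) * f k := sorry

/-! ### Task T (Two.lean), uses R -/

theorem far_le (S : Finset Edg) (v : Vtx) (r : ℕ) : Pr P S (Far v r) ≤ ar r := sorry

theorem far_ge {S : Finset Edg} {n r : ℕ} (hS : boxE (n + r) ⊆ S) {v : Vtx} (hv : v ∈ bx n) :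
    ar r ≤ Pr P S (Far v r) := sorry

theorem two_upper : ∃ C : ℝ, 0 < C ∧ ∀ (S : Finset Edg) (x : Vtx),
    Pr P S (fun F => Reach (↑F) (0, 0) x) ≤ C * ar (nv x) ^ 2 := sorry

theorem two_lower : ∃ c : ℝ, 0 < c ∧ ∀ n : ℕ, 1 ≤ n → ∀ x ∈ bx n, ∀ S : Finset Edg,
    boxE (5 * n) ⊆ S → c * ar n ^ 2 ≤ Pr P S (fun F => Reach (↑F) (0, 0) x) := sorry

/-! ### Task Q (Quad.lean), uses R -/

theorem pair_bound : ∃ C : ℝ, 0 < C ∧ ∀ n : ℕ, 1 ≤ n → ∀ x y : Vtx, nv (x - y) ≤ 2 * n →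
    ∀ S : Finset Edg, Pr P S (fun F => Far x n F ∧ Far y n F) ≤ C * (ar (nv (x - y)) * ar n) :=
  sorry

theorem triple_bound : ∃ C : ℝ, 0 < C ∧ ∀ n : ℕ, 1 ≤ n → ∀ x y : Vtx, 3 * n ≤ nv x → 3 * n ≤ nv y →
    nv (x - y) ≤ 48 * n → ∀ S : Finset Edg,
    Pr P S (fun F => Reach (↑F) (0, 0) x ∧ Reach (↑F) (0, 0) y)
      ≤ C * (ar n ^ 2 * ar (nv (x - y))) := sorry

/-! ### Task V (Vol.lean), uses R T Q -/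

theorem first_moment : ∃ C : ℝ, 0 < C ∧ ∀ n : ℕ, 1 ≤ n → ∀ S : Finset Edg,
    ∑ x ∈ bx n, Pr P S (fun F => Reach (↑F) (0, 0) x) ≤ C * ((n : ℝ) ^ 2 * ar n ^ 2) := sorry

theorem vol_upper : ∃ C : ℝ, 0 < C ∧ ∀ n : ℕ, 1 ≤ n → ∀ N : ℝ, 0 < N → ∀ S : Finset Edg,
    Pr P S (fun F => Vol N ↑F) ≤ ar n + C * ((n : ℝ) ^ 2 * ar n ^ 2) / N := sorry

theorem vol_lower : ∃ c : ℝ, 0 < c ∧ ∀ n : ℕ, 12 ≤ n → ∀ S : Finset Edg, boxE (5 * n) ⊆ S →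
    c * ar n ≤ Pr P S (fun F => Vol (c * ((n : ℝ) ^ 2 * ar n)) ↑F) := sorry

/-! ### Task W (Max.lean), uses R T Q -/

theorem second_moment : ∃ C : ℝ, 0 < C ∧ ∀ n : ℕ, 1 ≤ n → ∀ S : Finset Edg,
    ∑ x ∈ bx n, ∑ y ∈ bx n, Pr P S (fun F => Far x n F ∧ Far y n F)
      ≤ C * ((n : ℝ) ^ 2 * ar n) ^ 2 := sorry

theorem max_upper : ∃ C : ℝ, 0 < C ∧ ∀ n : ℕ, 1 ≤ n → ∀ l : ℝ, 0 < l →
    Pr P (boxE n) (Big (l * ((n : ℝ) ^ 2 * ar n)) n) ≤ C / l ^ 2 := sorry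

theorem max_lower1 : ∃ c : ℝ, 0 < c ∧ ∃ n0 : ℕ, ∀ n : ℕ, n0 ≤ n →
    c ≤ Pr P (boxE n) (Big (c * ((n : ℝ) ^ 2 * ar n)) n) := sorry

/-! ### Task W2 (Max2.lean), uses R and max_lower1 of Task W -/

theorem max_lower (δ : ℝ) (hδ : 0 < δ) : ∃ c : ℝ, 0 < c ∧ ∃ n0 : ℕ, ∀ n : ℕ, n0 ≤ n →
    1 - δ ≤ Pr P (boxE n) (Big (c * ((n : ℝ) ^ 2 * ar n)) n) := sorry

/-! ### Task I (Inf.lean): the infinite lattice, uses T V -/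

theorem inf_two : ∃ c C : ℝ, 0 < c ∧ 0 < C ∧ ∀ x : Vtx,
    c * ar (nv x) ^ 2 ≤ (bondLaw hlf).real {ω | (openGraph ω).Reachable (0, 0) x} ∧
    (bondLaw hlf).real {ω | (openGraph ω).Reachable (0, 0) x} ≤ C * ar (nv x) ^ 2 := sorry

theorem inf_vol_upper : ∃ C : ℝ, 0 < C ∧ ∀ n : ℕ, 1 ≤ n → ∀ N : ℕ, 1 ≤ N →
    (bondLaw hlf).real {ω | (N : ℕ∞) ≤ (cluster0 ω).encard} ≤
      ar n + C * ((n : ℝ) ^ 2 * ar n ^ 2) / N := sorry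

theorem inf_vol_lower : ∃ c : ℝ, 0 < c ∧ ∀ n : ℕ, 12 ≤ n → ∀ N : ℕ,
    (N : ℝ) ≤ c * ((n : ℝ) ^ 2 * ar n) →
    c * ar n ≤ (bondLaw hlf).real {ω | (N : ℕ∞) ≤ (cluster0 ω).encard} := sorry

/-! ### Task J (InfMax.lean): the largest cluster of a box in the infinite lattice -/

theorem law_maxCl (n : ℕ) (N : ℕ) :
    (bondLaw hlf).real {ω | N ≤ maxCl n ω} = Pr P (boxE n) (Big N n) := sorry

/-! ### Task X (Exp.lean), uses R I J W W2 -/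

/-- the one-arm exponent (to be replaced by the theorem of helper906) -/
def OneArmExp : Prop := ∀ ε : ℝ, 0 < ε → ∃ n0 : ℕ, ∀ n : ℕ, n0 ≤ n →
    (n : ℝ) ^ (-(5 / 48 : ℝ) - ε) ≤ ar n ∧ ar n ≤ (n : ℝ) ^ (-(5 / 48 : ℝ) + ε)

theorem exp_two (h : OneArmExp) (ε : ℝ) (hε : 0 < ε) : ∃ R : ℕ, ∀ x : ℤ × ℤ, R ≤ nv x →
    (nv x : ℝ) ^ (-(5 / 24 : ℝ) - ε) ≤
      (bondLaw hlf).real {ω | (openGraph ω).Reachable (0, 0) x} ∧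
    (bondLaw hlf).real {ω | (openGraph ω).Reachable (0, 0) x} ≤
      (nv x : ℝ) ^ (-(5 / 24 : ℝ) + ε) := sorry

theorem exp_vol (h : OneArmExp) (ε : ℝ) (hε : 0 < ε) : ∃ N0 : ℕ, ∀ N : ℕ, N0 ≤ N →
    (N : ℝ) ^ (-(5 / 91 : ℝ) - ε) ≤ (bondLaw hlf).real {ω | (N : ℕ∞) ≤ (cluster0 ω).encard} ∧
    (bondLaw hlf).real {ω | (N : ℕ∞) ≤ (cluster0 ω).encard} ≤ (N : ℝ) ^ (-(5 / 91 : ℝ) + ε) :=
  sorry

theorem exp_max (h : OneArmExp) (ε : ℝ) (hε : 0 < ε) : Tendsto (fun n : ℕ =>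
    (bondLaw hlf).real {ω | (n : ℝ) ^ (91 / 48 - ε : ℝ) ≤ maxCl n ω ∧
      (maxCl n ω : ℝ) ≤ (n : ℝ) ^ (91 / 48 + ε : ℝ)}) atTop (nhds 1) := sorry

end Pool.Agent.H160R2.CV
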